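import Mathlib

set_option autoImplicit false

namespace Pool.Agent.H.MP_02e21a_al

open Equiv

abbrev Ad := List Bool

def cone : Ad → ℤ → ℤ
  | [], k => k
  | b :: a, k => (if b then 1 else 0) + 2 * cone a k

@[simp] lemma cone_nil (k : ℤ) : cone [] k = k := rfl

lemma cone_cons (b : Bool) (a : Ad) (k : ℤ) :
    cone (b :: a) k = (if b then 1 else 0) + 2 * cone a k := rfl

lemma cone_append (a b : Ad) (k : ℤ) : cone (a ++ b) k = cone a (cone b k) := by
  induction a with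
  | nil => rfl
  | cons c a ih => simp only [List.cons_append, cone_cons, ih]

lemma cone_inj (a : Ad) : Function.Injective (cone a) := by
  induction a with
  | nil => exact fun _ _ h => h
  | cons c a ih =>
    intro k l h
    simp only [cone_cons] at h
    exact ih (by linarith)

lemma cone_eq (a : Ad) : ∃ r : ℤ, 0 ≤ r ∧ r < 2 ^ a.length ∧ ∀ k, cone a k = r + 2 ^ a.length * k := by
  induction a with
  | nil => exact ⟨0, le_rfl, by simp, fun k => by simp⟩
  | cons c a ih =>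
    obtain ⟨r, h0, h1, h⟩ := ih
    refine ⟨(if c then 1 else 0) + 2 * r, ?_, ?_, fun k => ?_⟩
    · split_ifs <;> omega
    · rw [List.length_cons, pow_succ]
      split_ifs <;> omega
    · rw [cone_cons, h, List.length_cons, pow_succ]; ring

def Dj (a b : Ad) : Prop := ∀ k l, cone a k ≠ cone b l

lemma Dj.symm {a b : Ad} (h : Dj a b) : Dj b a := fun k l e => h l k e.symm

lemma Dj.ne {a b : Ad} (h : Dj a b) : a ≠ b := fun e => h 0 0 (by rw [e])

lemma Dj.app {a b : Ad} (h : Dj a b) (u v : Ad) : Dj (a ++ u) (b ++ v) := fun k l => by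
  rw [cone_append, cone_append]; exact h _ _

lemma Dj.appl {a b : Ad} (h : Dj a b) (u : Ad) : Dj (a ++ u) b := by
  simpa using h.app u []

lemma Dj.appr {a b : Ad} (h : Dj a b) (v : Ad) : Dj a (b ++ v) := by
  simpa using h.app [] v

lemma Dj.pre {a b : Ad} (h : Dj a b) (c : Ad) : Dj (c ++ a) (c ++ b) := fun k l => by
  rw [cone_append, cone_append]; exact fun e => h _ _ (cone_inj c e)

lemma dj_bool {i j : Bool} (h : i ≠ j) (u v : Ad) : Dj (i :: u) (j :: v) := fun k l => by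
  simp only [cone_cons]
  cases i <;> cases j <;> simp at h ⊢ <;> omega

lemma dj_ch (a : Ad) : Dj (a ++ [false]) (a ++ [true]) := (dj_bool (by simp) [] []).pre a

lemma dj_ch' (a : Ad) {i j : Bool} (h : i ≠ j) : Dj (a ++ [i]) (a ++ [j]) :=
  (dj_bool h [] []).pre a

lemma not_dj_app (a u : Ad) : ¬ Dj a (a ++ u) := fun h => h (cone u 0) 0 (cone_append a u 0).symm

lemma cmp {a b : Ad} (h : ¬ Dj a b) : (∃ u, b = a ++ u) ∨ ∃ u, a = b ++ u := by
  induction a generalizing b with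
  | nil => exact Or.inl ⟨b, rfl⟩
  | cons i a ih =>
    cases b with
    | nil => exact Or.inr ⟨i :: a, rfl⟩
    | cons j b =>
      by_cases hij : i = j
      · subst hij
        have : ¬ Dj a b := fun h' => h (h'.pre [i])
        rcases ih this with ⟨u, rfl⟩ | ⟨u, rfl⟩
        · exact Or.inl ⟨u, rfl⟩
        · exact Or.inr ⟨u, rfl⟩
      · exact absurd (dj_bool hij a b) h

lemma cmp_len {a b : Ad} (h : ¬ Dj a b) (hl : a.length ≤ b.length) : ∃ u, b = a ++ u := by
  rcases cmp h with h | ⟨u, rfl⟩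
  · exact h
  · have : u = [] := by
      rw [List.length_append] at hl
      exact List.length_eq_zero_iff.1 (by omega)
    exact ⟨[], by simp [this]⟩

lemma cone_split (a : Ad) (k : ℤ) : ∃ i l, cone a k = cone (a ++ [i]) l := by
  rcases Int.emod_two_eq_zero_or_one k with h | h
  · exact ⟨false, k / 2, by rw [cone_append]; congr 1; simp [cone_cons]; omega⟩
  · exact ⟨true, k / 2, by rw [cone_append]; congr 1; simp [cone_cons]; omega⟩

lemma cone_deep (d : ℕ) (k : ℤ) : ∃ u : Ad, u.length = d ∧ ∃ l, k = cone u l := by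
  induction d with
  | zero => exact ⟨[], rfl, k, rfl⟩
  | succ d ih =>
    obtain ⟨u, hu, l, rfl⟩ := ih
    obtain ⟨i, l', h⟩ := cone_split u l
    exact ⟨u ++ [i], by simp [hu], l', h⟩

lemma cone_ext {a b : Ad} (h : ∀ k, cone a k = cone b k) : a = b := by
  have h1 : ¬ Dj a b := fun h' => h' 0 0 (h 0)
  have key : ∀ a u : Ad, (∀ k, cone a k = cone (a ++ u) k) → u = [] := by
    intro a u h
    cases u with
    | nil => rfl
    | cons i u =>
      exfalso
      have h0 := cone_inj a ((h 0).trans (cone_append _ _ _))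
      have h1 := cone_inj a ((h 1).trans (cone_append _ _ _))
      simp only [cone_cons] at h0 h1
      split_ifs at h0 h1 <;> omega
  rcases cmp h1 with ⟨u, rfl⟩ | ⟨u, rfl⟩
  · simp [key a u h]
  · simp [key b u (fun k => (h k).symm)]

/-- `σ` maps the cone `a` canonically onto the cone `b`. -/
def Mp (σ : Perm ℤ) (a b : Ad) : Prop := ∀ k, σ (cone a k) = cone b k

lemma Mp.one (a : Ad) : Mp 1 a a := fun _ => rfl

lemma Mp.app {σ : Perm ℤ} {a b : Ad} (h : Mp σ a b) (u : Ad) : Mp σ (a ++ u) (b ++ u) :=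
  fun k => by rw [cone_append, cone_append, h]

lemma Mp.mul {σ ρ : Perm ℤ} {a b c : Ad} (h : Mp σ b c) (h' : Mp ρ a b) : Mp (σ * ρ) a c :=
  fun k => by rw [Perm.mul_apply, h', h]

lemma Mp.inv {σ : Perm ℤ} {a b : Ad} (h : Mp σ a b) : Mp σ⁻¹ b a :=
  fun k => by rw [Perm.inv_eq_iff_eq, h]

lemma Mp.uniq {σ : Perm ℤ} {a b c : Ad} (h : Mp σ a b) (h' : Mp σ a c) : b = c :=
  cone_ext fun k => by rw [← h, h']

lemma Mp.uniq' {σ : Perm ℤ} {a b c : Ad} (h : Mp σ a c) (h' : Mp σ b c) : a = b :=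
  h.inv.uniq h'.inv

lemma Mp.dj {σ : Perm ℤ} {a b a' b' : Ad} (h : Mp σ a a') (h' : Mp σ b b') (d : Dj a b) :
    Dj a' b' := fun k l e => d k l (σ.injective (by rw [h, h', e]))

lemma Mp.of_ch {σ : Perm ℤ} {a b : Ad} (h : ∀ i, Mp σ (a ++ [i]) (b ++ [i])) : Mp σ a b := by
  intro k
  obtain ⟨i, l, e⟩ := cone_split [] k
  simp only [cone_nil, List.nil_append] at e
  rw [e, ← cone_append, ← cone_append, h]

/-- swap of the images of two maps -/
def IsSw (a b : ℤ → ℤ) (σ : Perm ℤ) : Prop :=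
  (∀ k, σ (a k) = b k) ∧ (∀ k, σ (b k) = a k) ∧ ∀ n, (∀ k, n ≠ a k) → (∀ k, n ≠ b k) → σ n = n

lemma IsSw.symm {a b : ℤ → ℤ} {σ : Perm ℤ} (h : IsSw a b σ) : IsSw b a σ :=
  ⟨h.2.1, h.1, fun n h1 h2 => h.2.2 n h2 h1⟩

lemma IsSw.uniq {a b : ℤ → ℤ} {σ ρ : Perm ℤ} (h : IsSw a b σ) (h' : IsSw a b ρ) : σ = ρ := by
  ext n
  by_cases h1 : ∃ k, n = a k
  · obtain ⟨k, rfl⟩ := h1
    rw [h.1, h'.1]
  · by_cases h2 : ∃ k, n = b k
    · obtain ⟨k, rfl⟩ := h2
      rw [h.2.1, h'.2.1]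
    · push Not at h1 h2
      rw [h.2.2 n h1 h2, h'.2.2 n h1 h2]

lemma IsSw.conj {a b a' b' : ℤ → ℤ} {σ ρ : Perm ℤ} (h : IsSw a b σ) (ha : ∀ k, ρ (a k) = a' k)
    (hb : ∀ k, ρ (b k) = b' k) : IsSw a' b' (ρ * σ * ρ⁻¹) := by
  refine ⟨fun k => ?_, fun k => ?_, fun n h1 h2 => ?_⟩
  · have : ρ⁻¹ (a' k) = a k := by rw [Perm.inv_eq_iff_eq, ha]
    simp only [Perm.mul_apply, this, h.1, hb]
  · have : ρ⁻¹ (b' k) = b k := by rw [Perm.inv_eq_iff_eq, hb]
    simp only [Perm.mul_apply, this, h.2.1, ha]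
  · simp only [Perm.mul_apply]
    rw [h.2.2 (ρ⁻¹ n)]
    · simp
    · intro k e
      exact h1 k (by rw [← ha, ← e]; simp)
    · intro k e
      exact h2 k (by rw [← hb, ← e]; simp)

lemma IsSw.sq {a b : ℤ → ℤ} {σ : Perm ℤ} (h : IsSw a b σ) : σ * σ = 1 := by
  ext n
  by_cases h1 : ∃ k, n = a k
  · obtain ⟨k, rfl⟩ := h1
    rw [Perm.mul_apply, h.1, h.2.1]; rfl
  · by_cases h2 : ∃ k, n = b k
    · obtain ⟨k, rfl⟩ := h2
      rw [Perm.mul_apply, h.2.1, h.1]; rfl
    · push Not at h1 h2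
      rw [Perm.mul_apply, h.2.2 n h1 h2, h.2.2 n h1 h2]; rfl

lemma exists_sw {a b : ℤ → ℤ} (ha : Function.Injective a) (hb : Function.Injective b)
    (hd : ∀ k l, a k ≠ b l) : ∃ σ, IsSw a b σ := by
  classical
  let f : ℤ → ℤ := fun n =>
    if h : ∃ k, n = a k then b h.choose else if h : ∃ k, n = b k then a h.choose else n
  have f1 : ∀ k, f (a k) = b k := by
    intro k
    have h : ∃ l, a k = a l := ⟨k, rfl⟩
    simp only [f, dif_pos h]
    rw [← ha h.choose_spec]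
  have f2 : ∀ k, f (b k) = a k := by
    intro k
    have h' : ¬ ∃ l, b k = a l := fun ⟨l, hl⟩ => hd l k hl.symm
    have h : ∃ l, b k = b l := ⟨k, rfl⟩
    simp only [f, dif_neg h', dif_pos h]
    rw [← hb h.choose_spec]
  have f3 : ∀ n, (∀ k, n ≠ a k) → (∀ k, n ≠ b k) → f n = n := by
    intro n h1 h2
    have h' : ¬ ∃ l, n = a l := fun ⟨l, hl⟩ => h1 l hl
    have h'' : ¬ ∃ l, n = b l := fun ⟨l, hl⟩ => h2 l hl
    simp only [f, dif_neg h', dif_neg h'']
  have hinv : Function.Involutive f := by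
    intro n
    by_cases h1 : ∃ k, n = a k
    · obtain ⟨k, rfl⟩ := h1
      rw [f1, f2]
    · by_cases h2 : ∃ k, n = b k
      · obtain ⟨k, rfl⟩ := h2
        rw [f2, f1]
      · push Not at h1 h2
        rw [f3 n h1 h2, f3 n h1 h2]
  exact ⟨hinv.toPerm f, f1, f2, f3⟩

def Ts (a b : Ad) (σ : Perm ℤ) : Prop := IsSw (cone a) (cone b) σ

lemma Ts.l {a b : Ad} {σ : Perm ℤ} (h : Ts a b σ) : Mp σ a b := h.1
lemma Ts.r {a b : Ad} {σ : Perm ℤ} (h : Ts a b σ) : Mp σ b a := h.2.1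
lemma Ts.o {a b c : Ad} {σ : Perm ℤ} (h : Ts a b σ) (h1 : Dj c a) (h2 : Dj c b) : Mp σ c c :=
  fun k => h.2.2 _ (h1 k) (h2 k)

lemma Ts.conj {a b a' b' : Ad} {σ ρ : Perm ℤ} (h : Ts a b σ) (ha : Mp ρ a a') (hb : Mp ρ b b') :
    Ts a' b' (ρ * σ * ρ⁻¹) := IsSw.conj h ha hb

lemma Ts.split {a b : Ad} {σ ρ : Perm ℤ} (d : Dj a b) (h0 : Ts (a ++ [false]) (b ++ [false]) σ)
    (h1 : Ts (a ++ [true]) (b ++ [true]) ρ) : Ts a b (σ * ρ) := by
  refine ⟨Mp.of_ch fun i => ?_, Mp.of_ch fun i => ?_, fun n n1 n2 => ?_⟩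
  · cases i
    · exact h0.l.mul (h1.o (dj_ch a) (d.app _ _))
    · exact (h0.o (d.symm.app _ _) (dj_ch b).symm).mul h1.l
  · cases i
    · exact h0.r.mul (h1.o (d.symm.app _ _) (dj_ch b))
    · exact (h0.o (dj_ch a).symm (d.app _ _)).mul h1.r
  · rw [Perm.mul_apply, h1.2.2 n, h0.2.2 n] <;>
    · intro k
      rw [cone_append]
      first | exact n1 _ | exact n2 _

/-- leaves of the right vine with `n` carets -/
def lf (n i : ℕ) : Ad := if i < n then List.replicate i true ++ [false] else List.replicate n true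

lemma lf_lt {n i : ℕ} (h : i < n) : lf n i = List.replicate i true ++ [false] := if_pos h
lemma lf_last (n : ℕ) : lf n n = List.replicate n true := if_neg (lt_irrefl n)

lemma dj_vine {i j : ℕ} (h : i < j) : Dj (List.replicate i true ++ [false]) (List.replicate j true) := by
  obtain ⟨m, rfl⟩ := Nat.exists_eq_add_of_lt h
  rw [show i + m + 1 = i + (m + 1) by ring, List.replicate_add, List.replicate_succ]
  exact (dj_bool (by simp) _ _).pre _

lemma lf_dj {n i j : ℕ} (hi : i ≤ n) (hj : j ≤ n) (h : i ≠ j) : Dj (lf n i) (lf n j) := by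
  wlog hij : i < j generalizing i j
  · exact (this hj hi h.symm (by omega)).symm
  rw [lf_lt (by omega : i < n)]
  rcases hj.lt_or_eq with hj | rfl
  · rw [lf_lt hj]; exact (dj_vine hij).appr _
  · rw [lf_last]; exact dj_vine hij

lemma lf_cover (n : ℕ) (k : ℤ) : ∃ i ≤ n, ∃ l, k = cone (lf n i) l := by
  induction n with
  | zero => exact ⟨0, le_rfl, k, by simp [lf]⟩
  | succ n ih =>
    obtain ⟨i, hi, l, rfl⟩ := ih
    rcases hi.lt_or_eq with hi | rfl
    · exact ⟨i, by omega, l, by rw [lf_lt hi, lf_lt (by omega)]⟩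
    · obtain ⟨b, l', e⟩ := cone_split (lf i i) l
      cases b
      · exact ⟨i, by omega, l', by rw [e, lf_last, lf_lt (by omega)]⟩
      · exact ⟨i + 1, le_rfl, l', by rw [e, lf_last, lf_last, List.replicate_succ']⟩

lemma lf_len (n i : ℕ) : (lf n i).length ≤ n := by
  unfold lf; split_ifs <;> simp; omega

/-- `σ` straightens the residue classes mod `p` inside the cone `a` -/
def Gs (p : ℕ) (a : Ad) (σ : Perm ℤ) : Prop :=
  (∀ j < p, ∀ k, σ (cone a (j + p * k)) = cone (a ++ lf (p - 1) j) k) ∧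
    ∀ n, (∀ k, n ≠ cone a k) → σ n = n

lemma decomp (n : ℤ) {p : ℕ} (hp : 0 < p) : ∃ j < p, ∃ k : ℤ, n = (j : ℤ) + p * k := by
  have hp' : (0 : ℤ) < p := by exact_mod_cast hp
  refine ⟨(n % p).toNat, ?_, n / p, ?_⟩
  · have := Int.emod_lt_of_pos n hp'
    have := Int.emod_nonneg n hp'.ne'
    omega
  · rw [Int.toNat_of_nonneg (Int.emod_nonneg n hp'.ne')]
    exact (Int.emod_add_mul_ediv n p).symm

lemma decomp_unique {m j j' q q' : ℤ} (h0 : 0 ≤ j) (h1 : j < m) (g0 : 0 ≤ j') (g1 : j' < m)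
    (h : j + m * q = j' + m * q') : j = j' ∧ q = q' := by
  have : q = q' := by
    rcases lt_trichotomy q q' with c | c | c
    · have : q + 1 ≤ q' := c
      nlinarith
    · exact c
    · have : q' + 1 ≤ q := c
      nlinarith
  subst this
  exact ⟨by linarith, rfl⟩

lemma Gs.o {p : ℕ} {a c : Ad} {σ : Perm ℤ} (h : Gs p a σ) (d : Dj c a) : Mp σ c c :=
  fun k => h.2 _ (d k)

lemma Gs.uniq {p : ℕ} (hp : 0 < p) {a : Ad} {σ ρ : Perm ℤ} (h : Gs p a σ) (h' : Gs p a ρ) :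
    σ = ρ := by
  ext n
  by_cases h1 : ∃ k, n = cone a k
  · obtain ⟨k, rfl⟩ := h1
    obtain ⟨j, hj, l, rfl⟩ := decomp k hp
    rw [h.1 j hj, h'.1 j hj]
  · push Not at h1
    rw [h.2 n h1, h'.2 n h1]

lemma Gs.conj {p : ℕ} {a a' : Ad} {σ ρ : Perm ℤ} (h : Gs p a σ) (ha : Mp ρ a a') :
    Gs p a' (ρ * σ * ρ⁻¹) := by
  refine ⟨fun j hj k => ?_, fun n h1 => ?_⟩
  · simp only [Perm.mul_apply]
    rw [ha.inv, h.1 j hj, ha.app]
  · simp only [Perm.mul_apply]
    rw [h.2 (ρ⁻¹ n)]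
    · simp
    · intro k e
      exact h1 k (by rw [← ha, ← e]; simp)

lemma gs_two (a : Ad) : Gs 2 a 1 := by
  refine ⟨fun j hj k => ?_, fun _ _ => rfl⟩
  rw [cone_append]
  interval_cases j <;> simp [lf, cone_cons]

lemma exists_gs {p : ℕ} (hp : 0 < p) (a : Ad) : ∃ σ, Gs p a σ := by
  have hp' : (0 : ℤ) < p := by exact_mod_cast hp
  let f : ℤ → ℤ := fun n => cone (lf (p - 1) (n % p).toNat) (n / p)
  have hf : ∀ j < p, ∀ k : ℤ, f (j + p * k) = cone (lf (p - 1) j) k := by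
    intro j hj k
    have h1 : ((j : ℤ) + p * k) % p = j := by
      rw [Int.add_mul_emod_self_left]
      exact Int.emod_eq_of_lt (by positivity) (by exact_mod_cast hj)
    have h2 : ((j : ℤ) + p * k) / p = k := by
      rw [Int.add_mul_ediv_left _ _ hp'.ne', Int.ediv_eq_zero_of_lt (by positivity) (by exact_mod_cast hj)]
      simp
    simp only [f, h1, h2, Int.toNat_natCast]
  have hb : Function.Bijective f := by
    constructor
    · intro x y e
      obtain ⟨j, hj, k, rfl⟩ := decomp x hp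
      obtain ⟨j', hj', k', rfl⟩ := decomp y hp
      rw [hf j hj, hf j' hj'] at e
      by_cases hjj : j = j'
      · subst hjj
        rw [cone_inj _ e]
      · exact absurd e (lf_dj (by omega) (by omega) hjj _ _)
    · intro y
      obtain ⟨i, hi, l, rfl⟩ := lf_cover (p - 1) y
      exact ⟨i + p * l, hf i (by omega) l⟩
  refine ⟨Perm.viaEmbedding (Equiv.ofBijective f hb) ⟨cone a, cone_inj a⟩, fun j hj k => ?_,
    fun n hn => ?_⟩
  · have := Perm.viaEmbedding_apply (Equiv.ofBijective f hb) ⟨cone a, cone_inj a⟩ (j + p * k)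
    simp only [Function.Embedding.coeFn_mk, Equiv.ofBijective_apply] at this
    rw [this, hf j hj, cone_append]
  · exact Perm.viaEmbedding_apply_of_notMem _ ⟨cone a, cone_inj a⟩ n (fun ⟨k, hk⟩ => hn k hk.symm)

end Pool.Agent.H.MP_02e21a_al
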