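import Pool.Agent.H.MP_02e21a_al.A

set_option autoImplicit false

namespace Pool.Agent.H.MP_02e21a_al

open Equiv

variable {H : Type} [Group H]

/-- the infinite family of relations -/
structure MI (P : ℕ → Prop) (π : H →* Perm ℤ) (t : Ad → Ad → H) (g : ℕ → Ad → H) : Prop where
  ts : ∀ {a b}, Dj a b → Ts a b (π (t a b))
  gs : ∀ {p}, P p → ∀ a, Gs p a (π (g p a))
  sq : ∀ {a b}, Dj a b → t a b * t a b = 1
  sym : ∀ {a b}, Dj a b → t a b = t b a
  com : ∀ {a b c d}, Dj a b → Dj c d → Dj a c → Dj a d → Dj b c → Dj b d →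
    t a b * t c d = t c d * t a b
  tri : ∀ {a b c}, Dj a b → Dj a c → Dj b c → t a b * t b c * t a b = t a c
  spl : ∀ {a b}, Dj a b →
    t a b = t (a ++ [false]) (b ++ [false]) * t (a ++ [true]) (b ++ [true])
  g1 : ∀ {p a b}, P p → Dj a b → t a b * g p a * t a b = g p b
  g2 : ∀ {p a b c}, P p → Dj a b → Dj a c → Dj b c → t b c * g p a = g p a * t b c
  g3 : ∀ {p q a b}, P p → P q → Dj a b → g p a * g q b = g q b * g p a
  gtwo : ∀ a, g 2 a = 1

inductive Wd (t : Ad → Ad → H) (A : Set Ad) : H → Prop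
  | one : Wd t A 1
  | mul (a b : Ad) (x : H) : a ∈ A → b ∈ A → Dj a b → Wd t A x → Wd t A (t a b * x)

variable {P : ℕ → Prop} {π : H →* Perm ℤ} {t : Ad → Ad → H} {g : ℕ → Ad → H}

lemma Wd.mono {A B : Set Ad} (h : A ⊆ B) {x : H} (hx : Wd t A x) : Wd t B x := by
  induction hx with
  | one => exact Wd.one
  | mul a b x ha hb d _ ih => exact Wd.mul a b x (h ha) (h hb) d ih

lemma Wd.univ {A : Set Ad} {x : H} (hx : Wd t A x) : Wd t Set.univ x := hx.mono (Set.subset_univ _)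

lemma Wd.mul' {A : Set Ad} {x y : H} (hx : Wd t A x) (hy : Wd t A y) : Wd t A (x * y) := by
  induction hx with
  | one => simpa using hy
  | mul a b x ha hb d _ ih => rw [mul_assoc]; exact Wd.mul a b _ ha hb d ih

lemma Wd.single {A : Set Ad} {a b : Ad} (ha : a ∈ A) (hb : b ∈ A) (d : Dj a b) :
    Wd t A (t a b) := by
  simpa using Wd.mul (t := t) a b 1 ha hb d Wd.one

lemma MI.tinv (M : MI P π t g) {a b : Ad} (d : Dj a b) : (t a b)⁻¹ = t a b :=
  inv_eq_of_mul_eq_one_right (M.sq d)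

lemma Wd.inv (M : MI P π t g) {A : Set Ad} {x : H} (hx : Wd t A x) : Wd t A x⁻¹ := by
  induction hx with
  | one => simpa using Wd.one
  | mul a b x ha hb d _ ih => rw [mul_inv_rev, M.tinv d]; exact ih.mul' (Wd.single ha hb d)

lemma conj_of_com {G : Type} [Group G] {s x : G} (h : s * x = x * s) (h2 : s * s = 1) :
    s * x * s = x := by rw [h, mul_assoc, h2, mul_one]

lemma conj_two {G : Type} [Group G] {s r x y : G} (hc : s * r = r * s) (h1 : r * x * r = y)
    (h2 : s * y * s = y) : s * r * x * (s * r) = y := by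
  calc s * r * x * (s * r) = s * r * x * (r * s) := by rw [← hc]
    _ = s * (r * x * r) * s := by group
    _ = y := by rw [h1, h2]

lemma conj_two' {G : Type} [Group G] {s r x y : G} (hc : s * r = r * s) (h1 : r * x * r = x)
    (h2 : s * x * s = y) : s * r * x * (s * r) = y := by
  calc s * r * x * (s * r) = s * r * x * (r * s) := by rw [← hc]
    _ = s * (r * x * r) * s := by group
    _ = y := by rw [h1, h2]

lemma MI.cjo (M : MI P π t g) {a b c d : Ad} (h : Dj a b) (h1 : Dj c d) (h2 : Dj a c)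
    (h3 : Dj a d) (h4 : Dj b c) (h5 : Dj b d) : t a b * t c d * t a b = t c d :=
  conj_of_com (M.com h h1 h2 h3 h4 h5) (M.sq h)

lemma MI.comch (M : MI P π t g) {a b : Ad} (d : Dj a b) :
    t (a ++ [false]) (b ++ [false]) * t (a ++ [true]) (b ++ [true]) =
      t (a ++ [true]) (b ++ [true]) * t (a ++ [false]) (b ++ [false]) :=
  M.com (d.app _ _) (d.app _ _) (dj_ch a) (d.app _ _) (d.symm.app _ _) (dj_ch b)

lemma MI.cj1 (M : MI P π t g) {z : Ad} (u : Ad) : ∀ {a b : Ad}, Dj a b → Dj a z → Dj b z →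
    t a b * t (a ++ u) z * t a b = t (b ++ u) z := by
  induction u with
  | nil =>
    intro a b d h1 h2
    simp only [List.append_nil]
    rw [M.sym d]
    exact M.tri d.symm h2 h1
  | cons i u ih =>
    intro a b d h1 h2
    have e : ∀ c : Ad, c ++ i :: u = c ++ [i] ++ u := fun c => by simp
    rw [M.spl d, e a, e b]
    cases i
    · refine conj_two' (M.comch d) ?_ (ih (d.app _ _) (h1.appl _) (h2.appl _))
      exact M.cjo (d.app _ _) ((h1.appl _).appl _) ((dj_ch a).symm.appr _) (h1.appl _)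
        ((d.symm.app _ _).appr _) (h2.appl _)
    · refine conj_two (M.comch d) (ih (d.app _ _) (h1.appl _) (h2.appl _)) ?_
      exact M.cjo (d.app _ _) ((h2.appl _).appl _) ((d.app _ _).appr _) (h1.appl _)
        ((dj_ch b).appr _) (h2.appl _)

lemma MI.gjo (M : MI P π t g) {p : ℕ} (hp : P p) {a b c : Ad} (h : Dj a b) (h1 : Dj c a)
    (h2 : Dj c b) : t a b * g p c * t a b = g p c :=
  conj_of_com (M.g2 hp h1 h2 h) (M.sq h)

lemma MI.gj1 (M : MI P π t g) {p : ℕ} (hp : P p) (u : Ad) : ∀ {a b : Ad}, Dj a b →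
    t a b * g p (a ++ u) * t a b = g p (b ++ u) := by
  induction u with
  | nil =>
    intro a b d
    simpa using M.g1 hp d
  | cons i u ih =>
    intro a b d
    have e : ∀ c : Ad, c ++ i :: u = c ++ [i] ++ u := fun c => by simp
    rw [M.spl d, e a, e b]
    cases i
    · refine conj_two' (M.comch d) ?_ (ih (d.app _ _))
      exact M.gjo hp (d.app _ _) ((dj_ch a).appl _) ((d.app _ _).appl _)
    · refine conj_two (M.comch d) (ih (d.app _ _)) ?_
      exact M.gjo hp (d.app _ _) ((d.symm.app _ _).appl _) ((dj_ch b).symm.appl _)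

/-- `x` is compatible with the transposition of `a` and `b` -/
def Cp (a b x : Ad) : Prop := (Dj x a ∧ Dj x b) ∨ (∃ u, x = a ++ u) ∨ ∃ u, x = b ++ u

lemma MI.cjz (M : MI P π t g) {a b x x' z : Ad} (d : Dj a b) (hx : Cp a b x)
    (hm : Mp (π (t a b)) x x') (h1 : Dj a z) (h2 : Dj b z) (h3 : Dj x z) :
    t a b * t x z * t a b = t x' z := by
  rcases hx with ⟨c1, c2⟩ | ⟨u, rfl⟩ | ⟨u, rfl⟩
  · rw [hm.uniq ((M.ts d).o c1 c2)]
    exact M.cjo d h3 c1.symm h1 c2.symm h2
  · rw [hm.uniq ((M.ts d).l.app u)]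
    exact M.cj1 u d h1 h2
  · rw [hm.uniq ((M.ts d).r.app u), M.sym d]
    exact M.cj1 u d.symm h2 h1

lemma MI.cj2 (M : MI P π t g) {a b x x' y y' z : Ad} (d : Dj a b) (hx : Cp a b x)
    (hy : Cp a b y) (hm : Mp (π (t a b)) x x') (hm' : Mp (π (t a b)) y y') (dxy : Dj x y)
    (h1 : Dj a z) (h2 : Dj b z) (h3 : Dj x z) (h4 : Dj y z) :
    t a b * t x y * t a b = t x' y' := by
  have hz : Mp (π (t a b)) z z := (M.ts d).o h1.symm h2.symm
  have e1 := M.cjz d hx hm h1 h2 h3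
  have e2 := M.cjz d hy hm' h1 h2 h4
  have h3' := hm.dj hz h3
  have h4' := hm'.dj hz h4
  rw [← M.tri h3 dxy h4.symm, ← M.tri h3' (hm.dj hm' dxy) h4'.symm, M.sym h4.symm,
    M.sym h4'.symm, ← e1, ← e2]
  have := M.sq d
  calc t a b * (t x z * t y z * t x z) * t a b
      = t a b * (t x z * (t a b * t a b) * t y z * (t a b * t a b) * t x z) * t a b := by
        rw [this]; simp
    _ = _ := by group

lemma MI.gjc (M : MI P π t g) {p : ℕ} (hp : P p) {a b x x' : Ad} (d : Dj a b) (hx : Cp a b x)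
    (hm : Mp (π (t a b)) x x') : t a b * g p x * t a b = g p x' := by
  rcases hx with ⟨c1, c2⟩ | ⟨u, rfl⟩ | ⟨u, rfl⟩
  · rw [hm.uniq ((M.ts d).o c1 c2)]
    exact M.gjo hp d c1 c2
  · rw [hm.uniq ((M.ts d).l.app u)]
    exact M.gj1 hp u d
  · rw [hm.uniq ((M.ts d).r.app u), M.sym d]
    exact M.gj1 hp u d.symm

def AC (A : Set Ad) : Prop := ∀ a ∈ A, ∀ b ∈ A, a ≠ b → Dj a b

lemma AC.mono {A B : Set Ad} (h : AC B) (hs : A ⊆ B) : AC A :=
  fun a ha b hb => h a (hs ha) b (hs hb)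

lemma Wd.fix (M : MI P π t g) {A : Set Ad} {x : H} (hx : Wd t A x) {c : Ad}
    (hc : ∀ a ∈ A, Dj c a) : Mp (π x) c c := by
  induction hx with
  | one => simpa using Mp.one c
  | mul a b x ha hb d _ ih =>
    rw [map_mul]; exact ((M.ts d).o (hc a ha) (hc b hb)).mul ih

lemma Wd.nf (M : MI P π t g) {s : Set Ad} {k : Ad} (hA : AC (insert k s)) (hk : k ∉ s) {x : H}
    (hx : Wd t (insert k s) x) : Wd t s x ∨ ∃ i ∈ s, ∃ h, Wd t s h ∧ x = t i k * h := by
  have dk : ∀ i ∈ s, Dj i k := fun i hi =>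
    hA i (Or.inr hi) k (Or.inl rfl) (fun e => hk (e ▸ hi))
  have ds : ∀ i ∈ s, ∀ j ∈ s, i ≠ j → Dj i j := fun i hi j hj =>
    hA i (Or.inr hi) j (Or.inr hj)
  induction hx with
  | one => exact Or.inl Wd.one
  | mul a b x ha hb d _ ih =>
    have key : ∀ b ∈ s, Wd t s (t b k * x) ∨ ∃ i ∈ s, ∃ h, Wd t s h ∧ t b k * x = t i k * h := by
      intro b hb
      rcases ih with ih | ⟨i, hi, h, hh, rfl⟩
      · exact Or.inr ⟨b, hb, x, ih, rfl⟩
      · by_cases e : b = i
        · left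
          rw [e, ← mul_assoc, M.sq (dk i hi), one_mul]; exact hh
        · right
          refine ⟨i, hi, t i b * h, Wd.mul i b h hi hb (ds i hi b hb (Ne.symm e)) hh, ?_⟩
          rw [← M.tri (dk i hi) (ds i hi b hb (Ne.symm e)) (dk b hb).symm, M.sym (dk b hb).symm,
            ← mul_assoc, ← mul_assoc, ← mul_assoc, ← mul_assoc, M.sq (dk i hi), one_mul]
    rcases ha with rfl | ha
    · rcases hb with rfl | hb
      · exact absurd rfl d.ne
      · rw [M.sym d]; exact key b hb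
    · rcases hb with rfl | hb
      · exact key a ha
      · rcases ih with ih | ⟨i, hi, h, hh, rfl⟩
        · exact Or.inl (Wd.mul a b x ha hb d ih)
        · right
          have : ∃ j ∈ s, t a b * t i k * t a b = t j k := by
            by_cases e1 : i = a
            · exact ⟨b, hb, by simpa [e1] using M.cj1 [] d (dk a ha) (dk b hb)⟩
            · by_cases e2 : i = b
              · exact ⟨a, ha, by
                  rw [M.sym d]; simpa [e2] using M.cj1 [] d.symm (dk b hb) (dk a ha)⟩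
              · exact ⟨i, hi, M.cjo d (dk i hi) (ds a ha i hi (Ne.symm e1)) (dk a ha)
                  (ds b hb i hi (Ne.symm e2)) (dk b hb)⟩
          obtain ⟨j, hj, e⟩ := this
          refine ⟨j, hj, t a b * h, Wd.mul a b h ha hb d hh, ?_⟩
          rw [← e, mul_assoc (t a b * t i k), ← mul_assoc (t a b) (t a b), M.sq d, one_mul, mul_assoc]

lemma Wd.stab (M : MI P π t g) {s : Set Ad} {k : Ad} (hA : AC (insert k s)) (hk : k ∉ s) {x : H}
    (hx : Wd t (insert k s) x) (hf : Mp (π x) k k) : Wd t s x := by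
  have dk : ∀ i ∈ s, Dj i k := fun i hi =>
    hA i (Or.inr hi) k (Or.inl rfl) (fun e => hk (e ▸ hi))
  rcases hx.nf M hA hk with h | ⟨i, hi, h, hh, rfl⟩
  · exact h
  · exfalso
    rw [map_mul] at hf
    have := ((M.ts (dk i hi)).r.mul (hh.fix M fun a ha => (dk a ha).symm)).uniq hf
    exact hk (this ▸ hi)

lemma Wd.injFin (M : MI P π t g) {s : Set Ad} (hs : s.Finite) :
    AC s → ∀ {x : H}, Wd t s x → π x = 1 → x = 1 := by
  induction s, hs using Set.Finite.induction_on with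
  | empty =>
    intro _ x hx _
    cases hx with
    | one => rfl
    | mul a b x ha => exact absurd ha (Set.notMem_empty a)
  | @insert k s hk _ ih =>
    intro hA x hx h1
    exact ih (hA.mono (Set.subset_insert _ _)) (hx.stab M hA hk (by rw [h1]; exact Mp.one k)) h1

lemma MI.tperm (M : MI P π t g) {A : Set Ad} (hA : AC A) {a b : Ad} (ha : a ∈ A) (hb : b ∈ A)
    (d : Dj a b) {c : Ad} (hc : c ∈ A) : ∃ e ∈ A, Mp (π (t a b)) c e := by
  by_cases e1 : c = a
  · exact ⟨b, hb, e1 ▸ (M.ts d).l⟩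
  · by_cases e2 : c = b
    · exact ⟨a, ha, e2 ▸ (M.ts d).r⟩
    · exact ⟨c, hc, (M.ts d).o (hA c hc a ha e1) (hA c hc b hb e2)⟩

lemma Wd.perm (M : MI P π t g) {A : Set Ad} (hA : AC A) {x : H} (hx : Wd t A x) :
    ∀ c ∈ A, ∃ e ∈ A, Mp (π x) c e := by
  induction hx with
  | one => exact fun c hc => ⟨c, hc, by simpa using Mp.one c⟩
  | mul a b x ha hb d _ ih =>
    intro c hc
    obtain ⟨e, he, h1⟩ := ih c hc
    obtain ⟨e', he', h2⟩ := M.tperm hA ha hb d he
    exact ⟨e', he', by rw [map_mul]; exact h2.mul h1⟩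

lemma Wd.perm' (M : MI P π t g) {A : Set Ad} (hA : AC A) {x : H} (hx : Wd t A x) :
    ∀ c ∈ A, ∃ e ∈ A, Mp (π x) e c := by
  intro c hc
  obtain ⟨e, he, h⟩ := (hx.inv M).perm M hA c hc
  exact ⟨e, he, by simpa using h.inv⟩

lemma MI.mv (M : MI P π t g) {A : Set Ad} (hA : AC A) {b c : Ad} (hb : b ∈ A) (hc : c ∈ A) :
    ∃ s, Wd t A s ∧ Mp (π s) b c ∧ ∀ e ∈ A, e ≠ b → e ≠ c → Mp (π s) e e := by
  by_cases h : b = c
  · exact ⟨1, Wd.one, by simpa [h] using Mp.one c, fun e _ _ _ => by simpa using Mp.one e⟩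
  · have d := hA b hb c hc h
    exact ⟨t b c, Wd.single hb hc d, (M.ts d).l,
      fun e he h1 h2 => (M.ts d).o (hA e he b hb h1) (hA e he c hc h2)⟩

def Room (A : Set Ad) : Prop := ∀ a b c d : Ad, ∃ z ∈ A, z ≠ a ∧ z ≠ b ∧ z ≠ c ∧ z ≠ d

/-- conjugation by `x` acts as expected on transpositions below the members of `A` -/
def CJ (π : H →* Perm ℤ) (t : Ad → Ad → H) (A : Set Ad) (x : H) : Prop :=
  ∀ a ∈ A, ∀ b ∈ A, ∀ u v a' b', Mp (π x) a a' → Mp (π x) b b' → Dj (a ++ u) (b ++ v) →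
    x * t (a ++ u) (b ++ v) * x⁻¹ = t (a' ++ u) (b' ++ v)

lemma CJ.mul {A B : Set Ad} {x y : H} (hx : CJ π t A x) (hy : CJ π t B y)
    (h : ∀ a ∈ A, ∃ b ∈ B, Mp (π x) a b) : CJ π t A (y * x) := by
  intro a ha b hb u v a' b' m1 m2 d
  obtain ⟨a1, ha1, n1⟩ := h a ha
  obtain ⟨b1, hb1, n2⟩ := h b hb
  rw [map_mul] at m1 m2
  have k1 : Mp (π y) a1 a' := by simpa using m1.mul n1.inv
  have k2 : Mp (π y) b1 b' := by simpa using m2.mul n2.inv
  rw [← hy a1 ha1 b1 hb1 u v a' b' k1 k2 ((n1.app u).dj (n2.app v) d),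
    ← hx a ha b hb u v a1 b1 n1 n2 d]
  group

lemma cp_of_ac {A : Set Ad} (hA : AC A) {a b c : Ad} (ha : a ∈ A) (hb : b ∈ A) (hc : c ∈ A)
    (u : Ad) : Cp a b (c ++ u) := by
  by_cases e1 : c = a
  · exact Or.inr (Or.inl ⟨u, by rw [e1]⟩)
  · by_cases e2 : c = b
    · exact Or.inr (Or.inr ⟨u, by rw [e2]⟩)
    · exact Or.inl ⟨(hA c hc a ha e1).appl u, (hA c hc b hb e2).appl u⟩

lemma Wd.cj (M : MI P π t g) {A : Set Ad} (hA : AC A) (hR : Room A) {x : H} (hx : Wd t A x) :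
    CJ π t A x := by
  induction hx with
  | one =>
    intro a _ b _ u v a' b' m1 m2 _
    rw [map_one] at m1 m2
    rw [← (Mp.one a).uniq m1, ← (Mp.one b).uniq m2]; simp
  | mul a b x ha hb d hx ih =>
    refine ih.mul ?_ (hx.perm M hA)
    intro c hc e he u v c' e' m1 m2 dd
    obtain ⟨z, hz, z1, z2, z3, z4⟩ := hR a b c e
    rw [M.tinv d]
    exact M.cj2 d (cp_of_ac hA ha hb hc u) (cp_of_ac hA ha hb he v) (m1.app u) (m2.app v) dd
      (hA z hz a ha z1).symm (hA z hz b hb z2).symm ((hA z hz c hc z3).symm.appl u)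
      ((hA z hz e he z4).symm.appl v)

lemma cp_long {a b x : Ad} (h1 : a.length ≤ x.length) (h2 : b.length ≤ x.length) : Cp a b x := by
  by_cases c1 : Dj a x
  · by_cases c2 : Dj b x
    · exact Or.inl ⟨c1.symm, c2.symm⟩
    · exact Or.inr (Or.inr (cmp_len c2 h2))
  · exact Or.inr (Or.inl (cmp_len c1 h1))

lemma Wd.deep (M : MI P π t g) {v : H} (hv : Wd t Set.univ v) :
    ∃ d c : ℕ, ∀ a : Ad, d ≤ a.length → ∃ a', Mp (π v) a a' ∧ a.length ≤ a'.length + c ∧
      ∀ p, P p → v * g p a * v⁻¹ = g p a' := by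
  induction hv with
  | one => exact ⟨0, 0, fun a _ => ⟨a, by simpa using Mp.one a, le_rfl, fun p _ => by simp⟩⟩
  | mul a b x _ _ dd _ ih =>
    obtain ⟨d, c, h⟩ := ih
    refine ⟨d + c + a.length + b.length, c + a.length + b.length, fun e he => ?_⟩
    obtain ⟨e', m, hl, hg⟩ := h e (by omega)
    have hcp : Cp a b e' := cp_long (by omega) (by omega)
    have : ∃ e'', Mp (π (t a b)) e' e'' ∧ e'.length ≤ e''.length + a.length + b.length := by
      rcases hcp with ⟨c1, c2⟩ | ⟨u, rfl⟩ | ⟨u, rfl⟩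
      · exact ⟨e', (M.ts dd).o c1 c2, by omega⟩
      · exact ⟨b ++ u, (M.ts dd).l.app u, by simp; omega⟩
      · exact ⟨a ++ u, (M.ts dd).r.app u, by simp; omega⟩
    obtain ⟨e'', m', hl'⟩ := this
    refine ⟨e'', by rw [map_mul]; exact m'.mul m, by omega, fun p hp => ?_⟩
    rw [← M.gjc hp dd hcp m', ← hg p hp, mul_inv_rev, M.tinv dd]
    group

end Pool.Agent.H.MP_02e21a_al
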