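import Pool.Agent.H.MP_02e21a_al.B

set_option autoImplicit false

namespace Pool.Agent.H.MP_02e21a_al

open Equiv

variable {H : Type} [Group H]
variable {P : ℕ → Prop} {π : H →* Perm ℤ} {t : Ad → Ad → H} {g : ℕ → Ad → H}

def PC (I : Finset Ad) : Prop := ∀ a u, a ++ u ∈ I → a ∈ I

def Lf (I : Finset Ad) (a : Ad) : Prop := a ∉ I ∧ ∀ b u, u ≠ [] → a = b ++ u → b ∈ I

def W (n : ℕ) : Set Ad := {a | ∃ i ≤ n, a = lf n i}
def W' (n : ℕ) : Set Ad := {a | ∃ i < n, a = lf n i}

def J : Finset Ad := (Finset.range 5).image fun i => List.replicate i true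

lemma card_J : J.card = 5 := by decide

lemma mem_J {a : Ad} : a ∈ J ↔ ∃ i < 5, a = List.replicate i true := by
  simp [J, eq_comm]

lemma lf_ac (I : Finset Ad) : AC {a | Lf I a} := by
  intro a ha b hb hab
  by_contra h
  rcases cmp h with ⟨u, rfl⟩ | ⟨u, rfl⟩
  · exact ha.1 (hb.2 a u (fun e => hab (by simp [e])) rfl)
  · exact hb.1 (ha.2 b u (fun e => hab (by simp [e])) rfl)

lemma pre_concat {a b u : Ad} {i : Bool} (hu : u ≠ []) (e : a ++ [i] = b ++ u) :
    ∃ v, a = b ++ v := by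
  rcases List.eq_nil_or_concat u with h | ⟨v, j, rfl⟩
  · exact absurd h hu
  · rw [List.concat_eq_append, ← List.append_assoc] at e
    exact ⟨v, (List.append_inj' e rfl).1⟩

lemma lf_child {I : Finset Ad} (hI : PC I) {a : Ad} (ha : a ∈ I) {i : Bool} (h : a ++ [i] ∉ I) :
    Lf I (a ++ [i]) := by
  refine ⟨h, fun b u hu e => ?_⟩
  obtain ⟨v, rfl⟩ := pre_concat hu e
  exact hI b v ha

lemma pc_insert {I : Finset Ad} (hI : PC I) {a : Ad} (ha : Lf I a) : PC (insert a I) := by
  intro b u h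
  rcases Finset.mem_insert.1 h with h | h
  · by_cases hu : u = []
    · subst hu; simp at h; simp [h]
    · exact Finset.mem_insert_of_mem (ha.2 b u hu h.symm)
  · exact Finset.mem_insert_of_mem (hI b u h)

lemma lf_insert {I : Finset Ad} (hI : PC I) {a : Ad} (ha : Lf I a) {c : Ad} :
    Lf (insert a I) c ↔ (Lf I c ∧ c ≠ a) ∨ ∃ i, c = a ++ [i] := by
  constructor
  · intro hc
    have h1 : c ≠ a := fun e => hc.1 (by simp [e])
    have h2 : c ∉ I := fun e => hc.1 (Finset.mem_insert_of_mem e)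
    by_cases h : ∃ u, u ≠ [] ∧ c = a ++ u
    · obtain ⟨u, hu, rfl⟩ := h
      right
      cases u with
      | nil => exact absurd rfl hu
      | cons i u =>
        refine ⟨i, ?_⟩
        by_contra hne
        have hu' : u ≠ [] := fun e => hne (by simp [e])
        rcases Finset.mem_insert.1 (hc.2 (a ++ [i]) u hu' (by simp)) with e | e
        · simp at e
        · exact ha.1 (hI a [i] e)
    · left
      refine ⟨⟨h2, fun b u hu e => ?_⟩, h1⟩
      rcases Finset.mem_insert.1 (hc.2 b u hu e) with e' | e'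
      · exact absurd ⟨u, hu, e' ▸ e⟩ h
      · exact e'
  · rintro (⟨hc, h1⟩ | ⟨i, rfl⟩)
    · exact ⟨by simp [h1, hc.1], fun b u hu e => Finset.mem_insert_of_mem (hc.2 b u hu e)⟩
    · refine lf_child (pc_insert hI ha) (Finset.mem_insert_self _ _) fun h => ?_
      rcases Finset.mem_insert.1 h with e | e
      · simp at e
      · exact ha.1 (hI a [i] e)

lemma ext_leaf {I : Finset Ad} (hI : PC I) {a : Ad} (ha : a ∈ I) : ∃ u, u ≠ [] ∧ Lf I (a ++ u) := by
  obtain ⟨N, hN⟩ : ∃ N, ∀ b ∈ I, b.length ≤ N := ⟨I.sup List.length, fun b hb => Finset.le_sup hb⟩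
  have : ∀ k (a : Ad), N ≤ a.length + k → a ∈ I → ∃ u, u ≠ [] ∧ Lf I (a ++ u) := by
    intro k
    induction k with
    | zero =>
      intro a h ha
      refine ⟨[false], by simp, lf_child hI ha fun h' => ?_⟩
      have := hN _ h'
      simp at this; omega
    | succ k ih =>
      intro a h ha
      by_cases h' : a ++ [false] ∈ I
      · obtain ⟨u, _, hu⟩ := ih (a ++ [false]) (by simp; omega) h'
        exact ⟨false :: u, by simp, by simpa using hu⟩
      · exact ⟨[false], by simp, lf_child hI ha h'⟩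
  exact this N a (by omega) ha

lemma sub_of_lf {I I' : Finset Ad} (hI : PC I) (h : ∀ a, Lf I a → Lf I' a) : I ⊆ I' := by
  intro a ha
  obtain ⟨u, hu, hl⟩ := ext_leaf hI ha
  exact (h _ hl).2 a u hu rfl

lemma pre_rep {b u : Ad} {n : ℕ} (e : List.replicate n true = b ++ u) :
    b = List.replicate b.length true ∧ b.length + u.length = n := by
  refine ⟨List.eq_replicate_iff.2 ⟨rfl, fun x hx => ?_⟩, ?_⟩
  · have : x ∈ List.replicate n true := by rw [e]; simp [hx]
    exact List.eq_of_mem_replicate this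
  · have := congrArg List.length e
    simp at this; omega

lemma pc_J : PC J := by
  intro a u h
  obtain ⟨i, hi, e⟩ := mem_J.1 h
  obtain ⟨h1, h2⟩ := pre_rep e.symm
  exact mem_J.2 ⟨a.length, by omega, h1⟩

lemma ac_W (n : ℕ) : AC (W n) := by
  rintro _ ⟨i, hi, rfl⟩ _ ⟨j, hj, rfl⟩ h
  exact lf_dj hi hj fun e => h (by rw [e])

lemma lf_W {n i : ℕ} (h : i ≤ n) : lf n i ∈ W n := ⟨i, h, rfl⟩

lemma lf_succ {n i : ℕ} (h : i < n) : lf (n + 1) i = lf n i := by rw [lf_lt h, lf_lt (by omega)]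

lemma lf_l0 (n : ℕ) : lf (n + 1) n = lf n n ++ [false] := by rw [lf_lt (by omega), lf_last]
lemma lf_l1 (n : ℕ) : lf (n + 1) (n + 1) = lf n n ++ [true] := by
  rw [lf_last, lf_last, List.replicate_succ']

lemma W_eq (n : ℕ) : W n = insert (lf n n) (W' n) := by
  ext a
  constructor
  · rintro ⟨i, hi, rfl⟩
    rcases hi.lt_or_eq with hi | rfl
    · exact Or.inr ⟨i, hi, rfl⟩
    · exact Or.inl rfl
  · rintro (rfl | ⟨i, hi, rfl⟩)
    · exact lf_W le_rfl
    · exact lf_W hi.le

lemma last_notMem (n : ℕ) : lf n n ∉ W' n := by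
  rintro ⟨i, hi, e⟩
  exact (lf_dj le_rfl hi.le hi.ne').ne e

lemma W'_sub (n : ℕ) : W' n ⊆ W (n + 1) := by
  rintro _ ⟨i, hi, rfl⟩
  exact ⟨i, by omega, (lf_succ hi).symm⟩

lemma room_W {n : ℕ} (hn : 4 ≤ n) : Room (W n) := by
  intro a b c d
  have key : ∀ e : Ad, ∃ m : ℕ, ∀ i ≤ n, lf n i = e → i = m := by
    intro e
    by_cases h : ∃ i ≤ n, lf n i = e
    · obtain ⟨i, hi, rfl⟩ := h
      refine ⟨i, fun j hj e => ?_⟩
      by_contra hc
      exact (lf_dj hj hi hc).ne e
    · exact ⟨0, fun i hi e => absurd ⟨i, hi, e⟩ h⟩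
  obtain ⟨m1, h1⟩ := key a
  obtain ⟨m2, h2⟩ := key b
  obtain ⟨m3, h3⟩ := key c
  obtain ⟨m4, h4⟩ := key d
  have : ∃ i ≤ 4, i ≠ m1 ∧ i ≠ m2 ∧ i ≠ m3 ∧ i ≠ m4 := by
    by_contra hc
    push Not at hc
    have a0 := hc 0 (by omega)
    have a1 := hc 1 (by omega)
    have a2 := hc 2 (by omega)
    have a3 := hc 3 (by omega)
    have a4 := hc 4 (by omega)
    omega
  obtain ⟨i, hi, i1, i2, i3, i4⟩ := this
  have hi' : i ≤ n := by omega
  exact ⟨lf n i, lf_W hi', fun e => i1 (h1 i hi' e), fun e => i2 (h2 i hi' e),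
    fun e => i3 (h3 i hi' e), fun e => i4 (h4 i hi' e)⟩

lemma lf_J_of {a : Ad} (h : a ∈ W 5) : Lf J a := by
  obtain ⟨i, hi, rfl⟩ := h
  rcases hi.lt_or_eq with hi | rfl
  · rw [lf_lt hi]
    refine lf_child pc_J (mem_J.2 ⟨i, hi, rfl⟩) fun h => ?_
    obtain ⟨j, _, e⟩ := mem_J.1 h
    have : false ∈ List.replicate j true := by rw [← e]; simp
    simp at this
  · rw [lf_l1, lf_last]
    refine lf_child pc_J (mem_J.2 ⟨4, by omega, rfl⟩) (by decide)

lemma of_lf_J {a : Ad} (h : Lf J a) : a ∈ W 5 := by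
  obtain ⟨i, hi, l, e⟩ := lf_cover 5 (cone a 0)
  by_contra hc
  have hne : a ≠ lf 5 i := fun e => hc (e ▸ lf_W hi)
  exact lf_ac J a h _ (lf_J_of (lf_W hi)) hne 0 l e

inductive Str (π : H →* Perm ℤ) (t : Ad → Ad → H) : Finset Ad → H → Prop
  | base : Str π t J 1
  | perm (I : Finset Ad) (x s : H) : Str π t I x → Wd t (W I.card) s → Str π t I (s * x)
  | split (I : Finset Ad) (x : H) (a : Ad) : Str π t I x → Lf I a →
      Mp (π x) a (lf I.card I.card) → Str π t (insert a I) x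

lemma Str.perm' {I : Finset Ad} {x s : H} {n : ℕ} (hn : I.card = n) (h : Str π t I x)
    (hs : Wd t (W n) s) : Str π t I (s * x) := Str.perm I x s h (by rw [hn]; exact hs)

lemma Str.split' {I : Finset Ad} {x : H} {a : Ad} {n : ℕ} (hn : I.card = n) (h : Str π t I x)
    (ha : Lf I a) (m : Mp (π x) a (lf n n)) : Str π t (insert a I) x :=
  Str.split I x a h ha (by rw [hn]; exact m)

structure Inv (π : H →* Perm ℤ) (t : Ad → Ad → H) (I : Finset Ad) (x : H) : Prop where
  pc : PC I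
  sub : J ⊆ I
  fwd : ∀ a, Lf I a → ∃ w ∈ W I.card, Mp (π x) a w
  fro : ∀ w ∈ W I.card, ∃ a, Lf I a ∧ Mp (π x) a w
  cj : CJ π t {a | Lf I a} x

lemma card_ge {I : Finset Ad} (h : J ⊆ I) : 5 ≤ I.card := card_J ▸ Finset.card_le_card h

lemma CJ.refine {A A' : Set Ad} {x : H} (h : CJ π t A x)
    (h' : ∀ c ∈ A', ∃ a ∈ A, ∃ κ a', c = a ++ κ ∧ Mp (π x) a a') : CJ π t A' x := by
  intro c hc e he u v c' e' m1 m2 d
  obtain ⟨a, ha, κ, a', rfl, n1⟩ := h' c hc
  obtain ⟨b, hb, κ', b', rfl, n2⟩ := h' e he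
  rw [m1.uniq (n1.app κ), m2.uniq (n2.app κ')]
  simp only [List.append_assoc] at d ⊢
  exact h a ha b hb _ _ a' b' n1 n2 d

lemma Str.inv (M : MI P π t g) {I : Finset Ad} {x : H} (h : Str π t I x) : Inv π t I x := by
  induction h with
  | base =>
    refine ⟨pc_J, subset_rfl, fun a ha => ⟨a, card_J ▸ of_lf_J ha, by simpa using Mp.one a⟩,
      fun w hw => ⟨w, lf_J_of (card_J ▸ hw), by simpa using Mp.one w⟩, ?_⟩
    intro a _ b _ u v a' b' m1 m2 _
    rw [map_one] at m1 m2
    rw [← (Mp.one a).uniq m1, ← (Mp.one b).uniq m2]; simp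
  | perm I x s _ hs ih =>
    refine ⟨ih.pc, ih.sub, fun a ha => ?_, fun w hw => ?_, ?_⟩
    · obtain ⟨w, hw, m⟩ := ih.fwd a ha
      obtain ⟨w', hw', m'⟩ := hs.perm M (ac_W _) w hw
      exact ⟨w', hw', by rw [map_mul]; exact m'.mul m⟩
    · obtain ⟨w', hw', m'⟩ := hs.perm' M (ac_W _) w hw
      obtain ⟨a, ha, m⟩ := ih.fro w' hw'
      exact ⟨a, ha, by rw [map_mul]; exact m'.mul m⟩
    · exact ih.cj.mul (hs.cj M (ac_W _) (room_W (by have := card_ge ih.sub; omega))) ih.fwd
  | split I x a _ ha m ih =>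
    have hc : (insert a I).card = I.card + 1 := Finset.card_insert_of_notMem ha.1
    refine ⟨pc_insert ih.pc ha, ih.sub.trans (Finset.subset_insert _ _), fun c hc' => ?_,
      fun w hw => ?_, ih.cj.refine fun c hc' => ?_⟩
    · rw [hc]
      rcases (lf_insert ih.pc ha).1 hc' with ⟨h1, h2⟩ | ⟨i, rfl⟩
      · obtain ⟨w, hw, m'⟩ := ih.fwd c h1
        rw [W_eq] at hw
        rcases hw with rfl | hw
        · exact absurd (m'.uniq' m) h2
        · exact ⟨w, W'_sub _ hw, m'⟩
      · cases i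
        · exact ⟨_, lf_W (Nat.le_succ _), by rw [lf_l0]; exact m.app _⟩
        · exact ⟨_, lf_W le_rfl, by rw [lf_l1]; exact m.app _⟩
    · rw [hc] at hw
      obtain ⟨i, hi, rfl⟩ := hw
      rcases hi.lt_or_eq with hi | rfl
      · rcases (Nat.lt_succ_iff.1 hi).lt_or_eq with hi | rfl
        · obtain ⟨c, h1, m'⟩ := ih.fro _ (lf_W hi.le)
          refine ⟨c, (lf_insert ih.pc ha).2 (Or.inl ⟨h1, fun e => ?_⟩), by rw [lf_succ hi]; exact m'⟩
          subst e
          exact (lf_dj hi.le le_rfl hi.ne).ne (m'.uniq m)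
        · exact ⟨_, (lf_insert ih.pc ha).2 (Or.inr ⟨false, rfl⟩), by rw [lf_l0]; exact m.app _⟩
      · exact ⟨_, (lf_insert ih.pc ha).2 (Or.inr ⟨true, rfl⟩), by rw [lf_l1]; exact m.app _⟩
    · rcases (lf_insert ih.pc ha).1 hc' with ⟨h1, _⟩ | ⟨i, rfl⟩
      · obtain ⟨w, _, m'⟩ := ih.fwd c h1
        exact ⟨c, h1, [], w, by simp, m'⟩
      · exact ⟨a, ha, [i], _, rfl, m⟩

lemma Str.expand (M : MI P π t g) {I : Finset Ad} {x : H} (h : Str π t I x) {a : Ad}
    (ha : Lf I a) : ∃ s, Wd t (W I.card) s ∧ Mp (π (s * x)) a (lf I.card I.card) := by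
  obtain ⟨w, hw, m⟩ := (h.inv M).fwd a ha
  obtain ⟨s, hs, m', _⟩ := M.mv (ac_W _) hw (lf_W le_rfl)
  exact ⟨s, hs, by rw [map_mul]; exact m'.mul m⟩

lemma exists_max {I : Finset Ad} (hI : PC I) (hJ : J ⊆ I) (hne : I ≠ J) :
    ∃ a ∈ I, PC (I.erase a) ∧ J ⊆ I.erase a ∧ Lf (I.erase a) a := by
  have : (I \ J).Nonempty := by
    rw [Finset.sdiff_nonempty]
    exact fun h => hne (Finset.Subset.antisymm h hJ)
  obtain ⟨a, ha, hmax⟩ := Finset.exists_max_image (I \ J) List.length this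
  rw [Finset.mem_sdiff] at ha
  refine ⟨a, ha.1, fun b u h => ?_, fun b hb => ?_, by simp, fun b u hu e => ?_⟩
  · rw [Finset.mem_erase] at h ⊢
    refine ⟨fun e => ?_, hI b u h.2⟩
    subst e
    have hu : u ≠ [] := fun e => h.1 (by simp [e])
    have h1 : b ++ u ∉ J := fun h' => ha.2 (pc_J b u h')
    have h2 := hmax _ (Finset.mem_sdiff.2 ⟨h.2, h1⟩)
    have := List.length_pos_iff.2 hu
    rw [List.length_append] at h2; omega
  · exact Finset.mem_erase.2 ⟨fun e => ha.2 (e ▸ hb), hJ hb⟩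
  · refine Finset.mem_erase.2 ⟨fun e' => hu ?_, hI b u (e ▸ ha.1)⟩
    subst e'
    simpa using e

lemma exists_str (M : MI P π t g) (n : ℕ) : ∀ I : Finset Ad, I.card = n → PC I → J ⊆ I →
    ∃ x, Str π t I x := by
  induction n with
  | zero => intro I h _ hJ; have := card_ge hJ; omega
  | succ n ih =>
    intro I h hI hJ
    by_cases e : I = J
    · exact ⟨1, e ▸ Str.base⟩
    · obtain ⟨a, ha, h1, h2, h3⟩ := exists_max hI hJ e
      obtain ⟨x, hx⟩ := ih (I.erase a) (by rw [Finset.card_erase_of_mem ha]; omega) h1 h2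
      obtain ⟨s, hs, m⟩ := hx.expand M h3
      have := Str.split _ _ a (Str.perm _ _ s hx hs) h3 m
      rw [Finset.insert_erase ha] at this
      exact ⟨_, this⟩

lemma Str.cases {I : Finset Ad} {x : H} (h : Str π t I x) :
    (I = J ∧ Wd t (W I.card) x) ∨ ∃ I1 a x1 s, I = insert a I1 ∧ Str π t I1 x1 ∧ Lf I1 a ∧
      Mp (π x1) a (lf I1.card I1.card) ∧ Wd t (W I.card) s ∧ x = s * x1 := by
  induction h with
  | base => exact Or.inl ⟨rfl, Wd.one⟩
  | perm I x s _ hs ih =>
    rcases ih with ⟨h1, h2⟩ | ⟨I1, a, x1, s', h1, h2, h3, h4, h5, rfl⟩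
    · exact Or.inl ⟨h1, hs.mul' h2⟩
    · exact Or.inr ⟨I1, a, x1, s * s', h1, h2, h3, h4, hs.mul' h5, by rw [mul_assoc]⟩
  | split I x a hx ha m _ => exact Or.inr ⟨I, a, x, 1, rfl, hx, ha, m, Wd.one, by simp⟩

lemma up_of_fix (M : MI P π t g) {n : ℕ} {x y : H} {a : Ad} (h : Wd t (W n) (y * x⁻¹))
    (m1 : Mp (π x) a (lf n n)) (m2 : Mp (π y) a (lf n n)) : Wd t (W (n + 1)) (y * x⁻¹) := by
  rw [W_eq] at h
  refine (h.stab M (W_eq n ▸ ac_W n) (last_notMem n) ?_).mono (W'_sub n)
  rw [map_mul, map_inv]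
  exact m2.mul m1.inv

lemma square (M : MI P π t g) {m : ℕ} (hm : 4 ≤ m) :
    Wd t (W (m + 1 + 1 + 1)) (t (lf (m + 1) m) (lf (m + 1 + 1) (m + 1 + 1)) *
      t (lf (m + 1) (m + 1)) (lf (m + 1) m) * (t (lf (m + 1) m) (lf (m + 1 + 1) (m + 1 + 1)))⁻¹) := by
  have e0 : lf (m + 1 + 1) m = lf (m + 1) m := lf_succ (by omega)
  have d0 : Dj (lf (m + 1) (m + 1)) (lf (m + 1) m) := lf_dj le_rfl (by omega) (by omega)
  have d1 : Dj (lf (m + 1 + 1) m) (lf (m + 1 + 1) (m + 1 + 1)) := lf_dj (by omega) le_rfl (by omega)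
  have hc := (Wd.single (t := t) (lf_W (by omega)) (lf_W le_rfl) d1).cj M (ac_W _)
    (room_W (by omega))
  have T := M.ts d1
  have k1 := hc _ (lf_W (Nat.le_succ (m + 1))) _ (lf_W (by omega : m ≤ m + 1 + 1)) [] [false] _ _
    (T.o (lf_dj (by omega) (by omega) (by omega)) (lf_dj (by omega) le_rfl (by omega))) T.l
    ((lf_dj (by omega) (by omega) (by omega)).app _ _)
  have k2 := hc _ (lf_W le_rfl) _ (lf_W (by omega : m ≤ m + 1 + 1)) [] [true] _ _
    T.r T.l (d1.symm.app _ _)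
  rw [M.spl d0, ← e0, ← lf_l0, ← lf_l1]
  simp only [List.append_nil] at k1 k2
  have : ∀ r x y : H, r * (x * y) * r⁻¹ = r * x * r⁻¹ * (r * y * r⁻¹) := fun r x y => by group
  rw [this, k1, k2, ← lf_l0, ← lf_l1, ← lf_succ (Nat.lt_succ_self (m + 1)),
    ← lf_succ (by omega : m < m + 1 + 1)]
  exact (Wd.single (lf_W (by omega)) (lf_W (by omega)) (lf_dj (by omega) (by omega) (by omega))).mul'
    (Wd.single (lf_W (by omega)) (lf_W (by omega)) (lf_dj (by omega) (by omega) (by omega)))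

lemma confl (M : MI P π t g) (n : ℕ) : ∀ (I : Finset Ad) (x y : H), I.card = n → Str π t I x →
    Str π t I y → Wd t (W n) (y * x⁻¹) := by
  induction n with
  | zero => intro I x y h hx _; have := card_ge (hx.inv M).sub; omega
  | succ n ih =>
    intro I x y h hx hy
    rcases hx.cases with ⟨e1, w1⟩ | ⟨I1, a, x1, s, e1, h1, l1, m1, ws, rfl⟩
    · rcases hy.cases with ⟨_, w2⟩ | ⟨I2, b, y1, s', e2, h2, l2, _, _, rfl⟩
      · rw [← h]; exact w2.mul' (w1.inv M)
      · exact absurd ((h2.inv M).sub (by rw [← e1, e2]; simp)) l2.1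
    · rcases hy.cases with ⟨e2, _⟩ | ⟨I2, b, y1, s', e2, h2, l2, m2, ws', rfl⟩
      · exact absurd ((h1.inv M).sub (by rw [← e2, e1]; simp)) l1.1
      have c1 : I1.card = n := by
        have := Finset.card_insert_of_notMem l1.1
        rw [← e1] at this; omega
      have c2 : I2.card = n := by
        have := Finset.card_insert_of_notMem l2.1
        rw [← e2] at this; omega
      rw [h] at ws ws'
      rw [c1] at m1
      rw [c2] at m2
      suffices Wd t (W (n + 1)) (y1 * x1⁻¹) by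
        have := (ws'.mul' this).mul' (ws.inv M)
        rwa [show s' * (y1 * x1⁻¹) * s⁻¹ = s' * y1 * (s * x1)⁻¹ by group] at this
      by_cases hab : a = b
      · subst hab
        have : I1 = I2 := by
          rw [← Finset.erase_insert l1.1, ← e1, e2, Finset.erase_insert l2.1]
        subst this
        exact up_of_fix M (ih I1 x1 y1 c1 h1 h2) m1 m2
      · have i1 := h1.inv M
        have i2 := h2.inv M
        have e : insert a I1 = insert b I2 := e1.symm.trans e2
        have hb : b ∈ I1 := by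
          have : b ∈ insert a I1 := by rw [e]; simp
          rcases Finset.mem_insert.1 this with h | h
          · exact absurd h.symm hab
          · exact h
        have ha : a ∈ I2 := by
          have : a ∈ insert b I2 := by rw [← e]; simp
          rcases Finset.mem_insert.1 this with h | h
          · exact absurd h hab
          · exact h
        have f1 : I1 = insert b (I1 ∩ I2) := by
          ext c
          simp only [Finset.mem_insert, Finset.mem_inter]
          constructor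
          · intro hc
            have : c ∈ insert b I2 := by rw [← e]; simp [hc]
            rcases Finset.mem_insert.1 this with h | h
            · exact Or.inl h
            · exact Or.inr ⟨hc, h⟩
          · rintro (rfl | h)
            · exact hb
            · exact h.1
        have f2 : I2 = insert a (I1 ∩ I2) := by
          ext c
          simp only [Finset.mem_insert, Finset.mem_inter]
          constructor
          · intro hc
            have : c ∈ insert a I1 := by rw [e]; simp [hc]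
            rcases Finset.mem_insert.1 this with h | h
            · exact Or.inl h
            · exact Or.inr ⟨h, hc⟩
          · rintro (rfl | h)
            · exact ha
            · exact h.2
        have p0 : PC (I1 ∩ I2) := fun c u hc =>
          Finset.mem_inter.2 ⟨i1.pc c u (Finset.mem_inter.1 hc).1, i2.pc c u (Finset.mem_inter.1 hc).2⟩
        have j0 : J ⊆ I1 ∩ I2 := Finset.subset_inter i1.sub i2.sub
        have la : Lf (I1 ∩ I2) a := ⟨fun h => l1.1 (Finset.mem_inter.1 h).1, fun c u hu e =>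
          Finset.mem_inter.2 ⟨l1.2 c u hu e, i2.pc c u (e ▸ ha)⟩⟩
        have lb : Lf (I1 ∩ I2) b := ⟨fun h => l2.1 (Finset.mem_inter.1 h).2, fun c u hu e =>
          Finset.mem_inter.2 ⟨i1.pc c u (e ▸ hb), l2.2 c u hu e⟩⟩
        generalize I1 ∩ I2 = I0 at f1 f2 p0 j0 la lb
        subst f1 f2
        obtain ⟨m, hm⟩ : ∃ m, I0.card = m + 1 := ⟨I0.card - 1, by have := card_ge j0; omega⟩
        have hm4 : 4 ≤ m := by have := card_ge j0; omega
        have hn : n = m + 1 + 1 := by rw [← c1, Finset.card_insert_of_notMem lb.1, hm]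
        subst hn
        obtain ⟨z0, hz0⟩ := exists_str M _ I0 rfl p0 j0
        obtain ⟨r1, wr1, n1⟩ := hz0.expand M lb
        have hz1 := Str.perm _ _ _ hz0 wr1
        obtain ⟨w, hw, n2⟩ := (hz1.inv M).fwd a la
        rw [hm] at n1 hw
        obtain ⟨r2, wr2, n3, n4⟩ := M.mv (ac_W _) hw (lf_W (Nat.le_succ m))
        have hz := hz1.perm' hm wr2
        have d0 : Dj (lf (m + 1) (m + 1)) (lf (m + 1) m) := lf_dj le_rfl (by omega) (by omega)
        have za : Mp (π (r2 * (r1 * z0))) a (lf (m + 1) m) := by rw [map_mul]; exact n3.mul n2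
        have zb : Mp (π (r2 * (r1 * z0))) b (lf (m + 1) (m + 1)) := by
          rw [map_mul]
          exact (n4 _ (lf_W le_rfl) (fun e => hab (n2.uniq' (e ▸ n1))) d0.ne).mul n1
        generalize r2 * (r1 * z0) = z at hz za zb
        have e0 : lf (m + 1 + 1) m = lf (m + 1) m := lf_succ (by omega)
        have d1 : Dj (lf (m + 1) m) (lf (m + 1 + 1) (m + 1 + 1)) :=
          e0 ▸ lf_dj (by omega) le_rfl (by omega)
        have wr : Wd t (W (m + 1 + 1)) (t (lf (m + 1) m) (lf (m + 1 + 1) (m + 1 + 1))) :=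
          Wd.single (e0 ▸ lf_W (by omega)) (lf_W le_rfl) d1
        have s1 := (hz.split' hm lb zb).perm' c1 wr
        have wr' : Wd t (W (m + 1)) (t (lf (m + 1) (m + 1)) (lf (m + 1) m)) :=
          Wd.single (lf_W le_rfl) (lf_W (Nat.le_succ m)) d0
        have hz' := hz.perm' hm wr'
        have za' : Mp (π (t (lf (m + 1) (m + 1)) (lf (m + 1) m) * z)) a (lf (m + 1) (m + 1)) := by
          rw [map_mul]; exact (M.ts d0).r.mul za
        have zb' : Mp (π (t (lf (m + 1) (m + 1)) (lf (m + 1) m) * z)) b (lf (m + 1) m) := by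
          rw [map_mul]; exact (M.ts d0).l.mul zb
        have s2 := (hz'.split' hm la za').perm' c2 wr
        have k1 := up_of_fix M (ih _ _ _ c1 h1 s1) m1 (by rw [map_mul]; exact (M.ts d1).l.mul za)
        have k2 := up_of_fix M (ih _ _ _ c2 s2 h2) (by rw [map_mul]; exact (M.ts d1).l.mul zb') m2
        have := (k2.mul' (square M hm4)).mul' k1
        refine cast (congrArg _ ?_) this
        group

def Nw (π : H →* Perm ℤ) (t : Ad → Ad → H) (γ : H) (I I' : Finset Ad) (x : H) : Prop :=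
  Str π t I x ∧ Str π t I' (x * γ⁻¹) ∧ I.card = I'.card

lemma Nw.symm {γ x : H} {I I' : Finset Ad} (h : Nw π t γ I I' x) :
    Nw π t γ⁻¹ I' I (x * γ⁻¹) := ⟨h.2.1, by simpa using h.1, h.2.2.symm⟩

lemma Nw.step (M : MI P π t g) {γ x : H} {I I' : Finset Ad} (h : Nw π t γ I I' x) {a : Ad}
    (ha : Lf I a) : ∃ K' x', Nw π t γ (insert a I) K' x' := by
  obtain ⟨h1, h2, h3⟩ := h
  obtain ⟨s, ws, m⟩ := h1.expand M ha
  have k1 := Str.perm _ _ _ h1 ws
  have k2 := h2.perm' h3.symm ws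
  obtain ⟨a', ha', m'⟩ := (k2.inv M).fro _ (lf_W le_rfl)
  refine ⟨insert a' I', s * x, Str.split _ _ a k1 ha m, ?_, ?_⟩
  · rw [mul_assoc]; exact Str.split _ _ a' k2 ha' m'
  · rw [Finset.card_insert_of_notMem ha.1, Finset.card_insert_of_notMem ha'.1, h3]

lemma Nw.refine (M : MI P π t g) {γ : H} {K : Finset Ad} (hK : PC K) (n : ℕ) :
    ∀ {x : H} {I I' : Finset Ad}, Nw π t γ I I' x → I ⊆ K → K.card = I.card + n →
      ∃ K' x', Nw π t γ K K' x' := by
  induction n with
  | zero =>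
    intro x I I' h hs hc
    have : I = K := Finset.eq_of_subset_of_card_le hs (by omega)
    exact ⟨I', x, this ▸ h⟩
  | succ n ih =>
    intro x I I' h hs hc
    have : (K \ I).Nonempty := by
      rw [Finset.sdiff_nonempty]
      exact fun h => by have := Finset.card_le_card h; omega
    obtain ⟨a, ha, hmin⟩ := Finset.exists_min_image (K \ I) List.length this
    rw [Finset.mem_sdiff] at ha
    have la : Lf I a := by
      refine ⟨ha.2, fun b u hu e => ?_⟩
      by_contra hb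
      have h2 := hmin b (Finset.mem_sdiff.2 ⟨hK b u (e ▸ ha.1), hb⟩)
      have := List.length_pos_iff.2 hu
      rw [e, List.length_append] at h2; omega
    obtain ⟨K', x', h'⟩ := h.step M la
    exact ih h' (Finset.insert_subset ha.1 hs)
      (by rw [Finset.card_insert_of_notMem la.1]; omega)

lemma Nw.mul (M : MI P π t g) {γ δ x y : H} {I I' K K' : Finset Ad} (h : Nw π t γ I I' x)
    (h' : Nw π t δ K K' y) : ∃ L L' z, Nw π t (δ * γ) L L' z := by
  have hU : PC (I' ∪ K) := fun a u ha => by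
    rcases Finset.mem_union.1 ha with ha | ha
    · exact Finset.mem_union_left _ ((h.2.1.inv M).pc a u ha)
    · exact Finset.mem_union_right _ ((h'.1.inv M).pc a u ha)
  obtain ⟨n, hn⟩ := Nat.exists_eq_add_of_le (Finset.card_le_card (Finset.subset_union_left (s₁ := I') (s₂ := K)))
  obtain ⟨m, hm⟩ := Nat.exists_eq_add_of_le (Finset.card_le_card (Finset.subset_union_right (s₁ := I') (s₂ := K)))
  obtain ⟨L, x', k1, k2, k3⟩ := h.symm.refine M hU n Finset.subset_union_left hn
  obtain ⟨L', y', l1, l2, l3⟩ := h'.refine M hU m Finset.subset_union_right hm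
  have := confl M _ _ _ _ k3 k1 l1
  refine ⟨L, L', _, Str.perm _ _ _ k2 this, ?_, k3.symm.trans l3⟩
  refine cast (congrArg _ ?_) l2
  group

def pp (a : Ad) : Finset Ad := (Finset.range a.length).image fun k => a.take k

lemma mem_pp {a b : Ad} : b ∈ pp a ↔ ∃ u, u ≠ [] ∧ a = b ++ u := by
  simp only [pp, Finset.mem_image, Finset.mem_range]
  constructor
  · rintro ⟨k, hk, rfl⟩
    exact ⟨a.drop k, by simp; omega, (List.take_append_drop k a).symm⟩
  · rintro ⟨u, hu, rfl⟩
    have := List.length_pos_iff.2 hu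
    exact ⟨b.length, by simp; omega, by simp⟩

lemma pc_pp (a : Ad) : PC (pp a) := by
  intro b u h
  obtain ⟨v, hv, rfl⟩ := mem_pp.1 h
  exact mem_pp.2 ⟨u ++ v, by simp [hv], by simp⟩

lemma nw_long (M : MI P π t g) {a b : Ad} (d : Dj a b) (ha : 5 ≤ a.length) (hb : 5 ≤ b.length) :
    ∃ I I' x, Nw π t (t a b) I I' x := by
  have key : ∀ a b : Ad, Dj a b → 5 ≤ a.length → ∀ I : Finset Ad,
      (∀ c, c ∈ I ↔ c ∈ J ∨ c ∈ pp a ∨ c ∈ pp b) → Lf I a := by
    intro a b d ha I hI
    refine ⟨fun h => ?_, fun c u hu e => (hI c).2 (Or.inr (Or.inl (mem_pp.2 ⟨u, hu, e⟩)))⟩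
    rcases (hI a).1 h with h | h | h
    · obtain ⟨i, hi, rfl⟩ := mem_J.1 h
      simp at ha; omega
    · obtain ⟨u, hu, e⟩ := mem_pp.1 h
      exact hu (by simpa using e)
    · obtain ⟨u, _, rfl⟩ := mem_pp.1 h
      exact not_dj_app _ _ d
  have la := key a b d ha (J ∪ (pp a ∪ pp b)) (by simp)
  have lb := key b a d.symm hb (J ∪ (pp a ∪ pp b)) (by simp [or_comm])
  have hp : PC (J ∪ (pp a ∪ pp b)) := fun c u hc => by
    simp only [Finset.mem_union] at hc ⊢
    rcases hc with hc | hc | hc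
    · exact Or.inl (pc_J c u hc)
    · exact Or.inr (Or.inl (pc_pp a c u hc))
    · exact Or.inr (Or.inr (pc_pp b c u hc))
  obtain ⟨x, hx⟩ := exists_str M _ _ rfl hp Finset.subset_union_left
  have i := hx.inv M
  obtain ⟨w, hw, m⟩ := i.fwd a la
  obtain ⟨w', hw', m'⟩ := i.fwd b lb
  have e := i.cj a la b lb [] [] w w' m m' (d.app _ _)
  simp only [List.append_nil] at e
  refine ⟨_, _, x, hx, ?_, rfl⟩
  have := Str.perm _ _ _ hx (Wd.single (t := t) hw hw' (m.dj m' d))
  rw [← e] at this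
  rw [M.tinv d]
  refine cast (congrArg _ ?_) this
  group

lemma nw_t (M : MI P π t g) (k : ℕ) : ∀ {a b : Ad}, Dj a b → 5 ≤ a.length + k →
    5 ≤ b.length + k → ∃ I I' x, Nw π t (t a b) I I' x := by
  induction k with
  | zero => intro a b d ha hb; exact nw_long M d ha hb
  | succ k ih =>
    intro a b d ha hb
    obtain ⟨_, _, _, h0⟩ := ih (d.app [false] [false]) (by simp; omega) (by simp; omega)
    obtain ⟨_, _, _, h1⟩ := ih (d.app [true] [true]) (by simp; omega) (by simp; omega)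
    rw [M.spl d]
    exact h1.mul M h0

theorem MI.injV (M : MI P π t g) {v : H} (hv : Wd t Set.univ v) (h1 : π v = 1) : v = 1 := by
  have : ∃ I I' x, Nw π t v I I' x := by
    clear h1
    induction hv with
    | one => exact ⟨J, J, 1, Str.base, by simpa using Str.base, rfl⟩
    | mul a b x _ _ d _ ih =>
      obtain ⟨_, _, _, h⟩ := ih
      obtain ⟨_, _, _, h'⟩ := nw_t M 5 d (by omega) (by omega)
      exact h.mul M h'
  obtain ⟨I, I', x, k1, k2, k3⟩ := this
  have i1 := k1.inv M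
  have i2 := k2.inv M
  have e : π (x * v⁻¹) = π x := by simp [h1]
  have : I = I' := by
    refine Finset.eq_of_subset_of_card_le (sub_of_lf i1.pc fun a ha => ?_) k3.ge
    obtain ⟨w, hw, m⟩ := i1.fwd a ha
    obtain ⟨a', ha', m'⟩ := i2.fro w (k3 ▸ hw)
    rw [e] at m'
    rwa [m.uniq' m']
  subst this
  have hf : (W I.card).Finite :=
    ((Set.finite_le_nat I.card).image (lf I.card)).subset fun _ ⟨i, hi, e⟩ => ⟨i, hi, e.symm⟩
  have := (confl M _ _ _ _ rfl k1 k2).injFin M hf (ac_W _) (by rw [map_mul, e]; simp)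
  have h2 : v⁻¹ = x⁻¹ * (x * v⁻¹ * x⁻¹) * x := by group
  rw [this] at h2
  simpa using h2

lemma MI.eqV (M : MI P π t g) {v w : H} (hv : Wd t Set.univ v) (hw : Wd t Set.univ w)
    (h : π v = π w) : v = w := by
  have := M.injV (hv.mul' (hw.inv M)) (by simp [h])
  exact mul_inv_eq_one.1 this

end Pool.Agent.H.MP_02e21a_al
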