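import Pool.Agent.H.MP_02e21a_al.C

set_option autoImplicit false

namespace Pool.Agent.H.MP_02e21a_al

open Equiv

variable {H : Type} [Group H]
variable {P : ℕ → Prop} {π : H →* Perm ℤ} {t : Ad → Ad → H} {g : ℕ → Ad → H}

def Pr (f : Ad → H) (L : List Ad) : H := (L.map f).prod

@[simp] lemma Pr_nil (f : Ad → H) : Pr f [] = 1 := rfl
@[simp] lemma Pr_cons (f : Ad → H) (a : Ad) (L : List Ad) : Pr f (a :: L) = f a * Pr f L := by
  simp [Pr]
lemma Pr_append (f : Ad → H) (L L' : List Ad) : Pr f (L ++ L') = Pr f L * Pr f L' := by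
  simp [Pr]

def ch (p : ℕ) (a : Ad) : List Ad := (List.range p).map fun j => a ++ lf (p - 1) j

lemma mem_ch {p : ℕ} {a b : Ad} : b ∈ ch p a ↔ ∃ j < p, b = a ++ lf (p - 1) j := by
  simp [ch, eq_comm]

lemma ch_two (a : Ad) : ch 2 a = [a ++ [false], a ++ [true]] := by
  simp [ch, lf, List.range_succ]

lemma ch_pw (p : ℕ) (a : Ad) : (ch p a).Pairwise Dj := by
  rw [ch, List.pairwise_map]
  refine List.pairwise_lt_range.imp_of_mem fun {i j} hi hj h => ?_
  rw [List.mem_range] at hi hj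
  exact (lf_dj (by omega) (by omega) h.ne).pre a

def D (g : ℕ → Ad → H) (p : ℕ) (f : Ad → H) (a : Ad) : H := Pr f (ch p a) * g p a

def G4 (t : Ad → Ad → H) (g : ℕ → Ad → H) (p q : ℕ) (a : Ad) : Prop :=
  ∃ w, Wd t Set.univ w ∧ D g p (g q) a = w * D g q (g p) a

structure MJ (P : ℕ → Prop) (π : H →* Perm ℤ) (t : Ad → Ad → H) (g : ℕ → Ad → H) : Prop where
  mi : MI P π t g
  pr : ∀ {p}, P p → p.Prime
  two : P 2
  g4 : ∀ {p q}, P p → P q → ∀ a, G4 t g p q a

def Vs (π : H →* Perm ℤ) (t : Ad → Ad → H) (a : Ad) (w : H) : Prop :=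
  Wd t Set.univ w ∧ ∀ c, Dj c a → Mp (π w) c c

lemma Vs.mul {a : Ad} {v w : H} (hv : Vs π t a v) (hw : Vs π t a w) : Vs π t a (v * w) :=
  ⟨hv.1.mul' hw.1, fun c hc => by rw [map_mul]; exact (hv.2 c hc).mul (hw.2 c hc)⟩

lemma Vs.up {a u : Ad} {v : H} (hv : Vs π t (a ++ u) v) : Vs π t a v :=
  ⟨hv.1, fun c hc => hv.2 c (hc.appr u)⟩

lemma Pr_one (L : List Ad) : Pr (fun _ => (1 : H)) L = 1 := by
  induction L with
  | nil => rfl
  | cons a L ih => simp [ih]

lemma MJ.gspl (M : MJ P π t g) {p : ℕ} (hp : P p) (a : Ad) :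
    ∃ w, Vs π t a w ∧ g p a = w * (g p (a ++ [false]) * g p (a ++ [true])) := by
  obtain ⟨w, hw, e⟩ := M.g4 hp M.two a
  have h2 : g 2 = fun _ => 1 := funext M.mi.gtwo
  simp only [D, h2, Pr_one, ch_two, Pr_cons, Pr_nil, one_mul, mul_one] at e
  refine ⟨w, ⟨hw, fun c hc => ?_⟩, e⟩
  have : w = g p a * (g p (a ++ [true]))⁻¹ * (g p (a ++ [false]))⁻¹ := by rw [e]; group
  rw [this, map_mul, map_mul, map_inv, map_inv]
  exact (((M.mi.gs hp a).o hc).mul ((M.mi.gs hp _).o (hc.appr _)).inv).mul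
    ((M.mi.gs hp _).o (hc.appr _)).inv

lemma MJ.gnat (M : MJ P π t g) {p : ℕ} (hp : P p) {v : H} (hv : Wd t Set.univ v) {a a' : Ad}
    (m : Mp (π v) a a') : v * g p a * v⁻¹ = g p a' := by
  obtain ⟨d, c, h⟩ := hv.deep M.mi
  have : ∀ k (a a' : Ad), d ≤ a.length + k → Mp (π v) a a' → v * g p a * v⁻¹ = g p a' := by
    intro k
    induction k with
    | zero =>
      intro a a' hd m
      obtain ⟨b, m', _, hg⟩ := h a hd
      rw [m.uniq m']; exact hg p hp
    | succ k ih =>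
      intro a a' hd m
      have k0 := ih (a ++ [false]) _ (by simp; omega) (m.app _)
      have k1 := ih (a ++ [true]) _ (by simp; omega) (m.app _)
      obtain ⟨w, hw, e⟩ := M.gspl hp a
      obtain ⟨w', hw', e'⟩ := M.gspl hp a'
      have e1 : v * g p a * v⁻¹ = v * w * v⁻¹ * (g p (a' ++ [false]) * g p (a' ++ [true])) := by
        rw [e, ← k0, ← k1]; group
      have e2 : π (v * g p a * v⁻¹) = π (g p a') := by
        rw [map_mul, map_mul, map_inv]
        exact ((M.mi.gs hp a).conj m).uniq (M.pr hp).pos (M.mi.gs hp a')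
      rw [e1] at e2 ⊢
      rw [e', map_mul, map_mul π w'] at e2
      rw [M.mi.eqV ((hv.mul' hw.1).mul' (hv.inv M.mi)) hw'.1 (mul_right_cancel e2), ← e']
  exact this d a a' (by omega) m

inductive Loc (P : ℕ → Prop) (g : ℕ → Ad → H) (a : Ad) : H → Prop
  | one : Loc P g a 1
  | mul (p : ℕ) (u : Ad) (x : H) : P p → Loc P g a x → Loc P g a (g p (a ++ u) * x)

lemma Loc.mul' {a : Ad} {x y : H} (hx : Loc P g a x) (hy : Loc P g a y) : Loc P g a (x * y) := by
  induction hx with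
  | one => simpa using hy
  | mul p u x hp _ ih => rw [mul_assoc]; exact Loc.mul p u _ hp ih

lemma Loc.single {p : ℕ} (hp : P p) (a : Ad) : Loc P g a (g p a) := by
  simpa using Loc.mul (g := g) (a := a) p [] 1 hp Loc.one

lemma Loc.up {a u : Ad} {x : H} (hx : Loc P g (a ++ u) x) : Loc P g a x := by
  induction hx with
  | one => exact Loc.one
  | mul p v x hp _ ih => rw [List.append_assoc]; exact Loc.mul p _ _ hp ih

lemma Loc.com (M : MI P π t g) {a b : Ad} (d : Dj a b) {x y : H} (hx : Loc P g a x)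
    (hy : Loc P g b y) : Commute x y := by
  induction hx with
  | one => exact Commute.one_left y
  | mul p u x hp _ ih =>
    refine Commute.mul_left ?_ ih
    clear ih
    induction hy with
    | one => exact Commute.one_right _
    | mul q v y hq _ ih' => exact Commute.mul_right (M.g3 hp hq (d.app u v)) ih'

lemma Loc.fix (M : MI P π t g) {a c : Ad} (d : Dj c a) {x : H} (hx : Loc P g a x) :
    Mp (π x) c c := by
  induction hx with
  | one => simpa using Mp.one c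
  | mul p u x hp _ ih => rw [map_mul]; exact ((M.gs hp _).o (d.appr u)).mul ih

lemma Loc.comV (M : MJ P π t g) {a : Ad} {x w : H} (hx : Loc P g a x) (hw : Wd t Set.univ w)
    (m : Mp (π w) a a) : Commute w x := by
  induction hx with
  | one => exact Commute.one_right w
  | mul p u x hp _ ih =>
    refine Commute.mul_right ?_ ih
    have := M.gnat hp hw (m.app u)
    exact mul_inv_eq_iff_eq_mul.1 this

lemma Loc.pr {b : Ad} {f : Ad → H} {L : List Ad} (h : ∀ a ∈ L, Loc P g b (f a)) :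
    Loc P g b (Pr f L) := by
  induction L with
  | nil => exact Loc.one
  | cons a L ih =>
    rw [Pr_cons]
    exact (h a (by simp)).mul' (ih fun c hc => h c (by simp [hc]))

lemma prod_perm (M : MI P π t g) {ι : Type} (ad : ι → Ad) (f : ι → H) {L L' : List ι}
    (hp : L.Perm L') (hd : L.Pairwise fun i j => Dj (ad i) (ad j))
    (hl : ∀ i ∈ L, Loc P g (ad i) (f i)) : (L.map f).prod = (L'.map f).prod := by
  refine (hp.map f).prod_eq' ?_
  rw [List.pairwise_map]
  exact hd.imp_of_mem fun {i j} hi hj d => (hl i hi).com M d (hl j hj)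

lemma com_prod {ι : Type} {x : H} {f : ι → H} {L : List ι} (h : ∀ i ∈ L, Commute x (f i)) :
    Commute x (L.map f).prod :=
  Commute.list_prod_right _ _ fun y hy => by
    obtain ⟨i, hi, rfl⟩ := List.mem_map.1 hy
    exact h i hi

lemma conj_prod {ι : Type} (v : H) {f f' : ι → H} {L : List ι}
    (h : ∀ i ∈ L, v * f i * v⁻¹ = f' i) : v * (L.map f).prod * v⁻¹ = (L.map f').prod := by
  induction L with
  | nil => simp
  | cons a L ih =>
    simp only [List.map_cons, List.prod_cons]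
    rw [← h a (by simp), ← ih fun i hi => h i (by simp [hi])]
    group

def Eqv (π : H →* Perm ℤ) (t : Ad → Ad → H) (a : Ad) (x y : H) : Prop :=
  ∃ w, Vs π t a w ∧ x = w * y

lemma Eqv.refl (a : Ad) (x : H) : Eqv π t a x x :=
  ⟨1, ⟨Wd.one, fun c _ => by simpa using Mp.one c⟩, by simp⟩

lemma Eqv.trans {a : Ad} {x y z : H} (h : Eqv π t a x y) (h' : Eqv π t a y z) : Eqv π t a x z := by
  obtain ⟨v, hv, rfl⟩ := h
  obtain ⟨w, hw, rfl⟩ := h'
  exact ⟨v * w, hv.mul hw, by rw [mul_assoc]⟩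

lemma Pr_eqv (M : MJ P π t g) {f f' : Ad → H} (h : ∀ a, Eqv π t a (f a) (f' a))
    (hl : ∀ a, Loc P g a (f' a)) {L : List Ad} (hd : L.Pairwise Dj) :
    ∃ w, Wd t Set.univ w ∧ (∀ c, (∀ a ∈ L, Dj c a) → Mp (π w) c c) ∧ Pr f L = w * Pr f' L := by
  induction L with
  | nil => exact ⟨1, Wd.one, fun c _ => by simpa using Mp.one c, by simp⟩
  | cons a L ih =>
    rw [List.pairwise_cons] at hd
    obtain ⟨w, hw, hf, e⟩ := ih hd.2
    obtain ⟨v, hv, e'⟩ := h a
    refine ⟨v * w, hv.1.mul' hw, fun c hc => ?_, ?_⟩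
    · rw [map_mul]
      exact (hv.2 c (hc a (by simp))).mul (hf c fun b hb => hc b (by simp [hb]))
    · have := ((hl a).comV M hw (hf a hd.1)).eq
      rw [Pr_cons, Pr_cons, e, e', mul_assoc, ← mul_assoc (f' a), ← this]
      group

lemma D_eqv (M : MJ P π t g) {f f' : Ad → H} (h : ∀ a, Eqv π t a (f a) (f' a))
    (hl : ∀ a, Loc P g a (f' a)) (p : ℕ) (a : Ad) : Eqv π t a (D g p f a) (D g p f' a) := by
  obtain ⟨w, hw, hf, e⟩ := Pr_eqv M h hl (ch_pw p a)
  refine ⟨w, ⟨hw, fun c hc => hf c fun b hb => ?_⟩, by rw [D, D, e, mul_assoc]⟩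
  obtain ⟨j, _, rfl⟩ := mem_ch.1 hb
  exact hc.appr _

lemma D_loc {f : Ad → H} (hl : ∀ a, Loc P g a (f a)) {p : ℕ} (hp : P p) (a : Ad) :
    Loc P g a (D g p f a) := by
  refine (Loc.pr fun b hb => ?_).mul' (Loc.single hp a)
  obtain ⟨j, _, rfl⟩ := mem_ch.1 hb
  exact (hl _).up

def Nt (π : H →* Perm ℤ) (t : Ad → Ad → H) (f : Ad → H) : Prop :=
  ∀ v a a', Wd t Set.univ v → Mp (π v) a a' → v * f a * v⁻¹ = f a'

lemma D_nat (M : MJ P π t g) {f : Ad → H} (hn : Nt π t f) {p : ℕ} (hp : P p) :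
    Nt π t (D g p f) := by
  intro v a a' hv m
  have e1 : v * Pr f (ch p a) * v⁻¹ = Pr f (ch p a') := by
    simp only [Pr, ch, List.map_map]
    exact conj_prod v fun j _ => hn v _ _ hv (m.app _)
  rw [D, D, ← e1, ← M.gnat hp hv m]
  group

lemma Pr_act (M : MI P π t g) {f : Ad → H} (hl : ∀ a, Loc P g a (f a)) {L : List Ad}
    (hd : L.Pairwise Dj) {a : Ad} (ha : a ∈ L) {k k' : ℤ} (h : π (f a) (cone a k) = cone a k') :
    π (Pr f L) (cone a k) = cone a k' := by
  induction L with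
  | nil => simp at ha
  | cons b L ih =>
    rw [List.pairwise_cons] at hd
    rw [Pr_cons, map_mul, Perm.mul_apply]
    rcases List.mem_cons.1 ha with rfl | ha
    · have : ∀ L : List Ad, (∀ c ∈ L, Dj a c) → π (Pr f L) (cone a k) = cone a k := by
        intro L hL
        induction L with
        | nil => simp
        | cons c L ih =>
          rw [Pr_cons, map_mul, Perm.mul_apply, ih fun e he => hL e (by simp [he])]
          exact (hl c).fix M (hL c (by simp)) k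
      rw [this L hd.1, h]
    · rw [ih hd.2 ha]
      exact (hl b).fix M (hd.1 a ha).symm k'

lemma semD (M : MI P π t g) {p q : ℕ} (hp : P p) (hq : P q) (a : Ad) {j i : ℕ} (hj : j < p)
    (hi : i < q) (k : ℤ) : π (D g p (g q) a) (cone a (j + p * (i + q * k))) =
      cone (a ++ lf (p - 1) j ++ lf (q - 1) i) k := by
  rw [D, map_mul, Perm.mul_apply, (M.gs hp a).1 j hj, cone_append (a ++ lf (p - 1) j)]
  refine Pr_act M (fun b => Loc.single hq b) (ch_pw p a) (mem_ch.2 ⟨j, hj, rfl⟩) ?_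
  rw [(M.gs hq _).1 i hi, cone_append]

lemma conj_perm (M : MI P π t g) {f : Ad → H} (hn : Nt π t f) (hl : ∀ a, Loc P g a (f a))
    {L1 L2 : List Ad} (d1 : L1.Pairwise Dj) (d2 : L2.Pairwise Dj) {w : H} (hw : Wd t Set.univ w)
    (h1 : ∀ a ∈ L2, ∃ a' ∈ L1, Mp (π w) a a') (h2 : ∀ a' ∈ L1, ∃ a ∈ L2, Mp (π w) a a') :
    w * Pr f L2 * w⁻¹ = Pr f L1 := by
  classical
  let φ : Ad → Ad := fun a => if h : ∃ a', Mp (π w) a a' then h.choose else a
  have hφ : ∀ a ∈ L2, Mp (π w) a (φ a) := by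
    intro a ha
    obtain ⟨a', _, m⟩ := h1 a ha
    have h : ∃ a', Mp (π w) a a' := ⟨a', m⟩
    simp only [φ, dif_pos h]
    exact h.choose_spec
  have d3 : (L2.map φ).Pairwise Dj := by
    rw [List.pairwise_map]
    exact d2.imp_of_mem fun {a b} ha hb d => (hφ a ha).dj (hφ b hb) d
  have hp : (L2.map φ).Perm L1 := by
    refine (List.perm_ext_iff_of_nodup (d3.imp Dj.ne) (d1.imp Dj.ne)).2 fun c => ?_
    rw [List.mem_map]
    constructor
    · rintro ⟨a, ha, rfl⟩
      obtain ⟨a', ha', m⟩ := h1 a ha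
      rwa [(hφ a ha).uniq m]
    · intro hc
      obtain ⟨a, ha, m⟩ := h2 c hc
      exact ⟨a, ha, (hφ a ha).uniq m⟩
  rw [Pr, Pr, conj_prod w (f' := f ∘ φ) fun a ha => hn w a _ hw (hφ a ha), ← List.map_map]
  exact prod_perm M id f hp d3 fun a _ => hl a

lemma Pr_split (M : MI P π t g) {f f' : Ad → H} (hl : ∀ a, Loc P g a (f a))
    (hl' : ∀ a, Loc P g a (f' a)) {L : List Ad} (hd : L.Pairwise Dj) :
    Pr (fun a => f a * f' a) L = Pr f L * Pr f' L := by
  induction L with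
  | nil => simp
  | cons a L ih =>
    rw [List.pairwise_cons] at hd
    have : Commute (f' a) (Pr f L) := com_prod fun b hb => (hl' a).com M (hd.1 b hb) (hl b)
    rw [Pr_cons, Pr_cons, Pr_cons, ih hd.2, mul_assoc, ← mul_assoc (f' a), this.eq]
    group

lemma Pr_flat (f : Ad → H) (F : Ad → List Ad) (L : List Ad) :
    Pr (fun a => Pr f (F a)) L = Pr f (L.flatMap F) := by
  induction L with
  | nil => rfl
  | cons a L ih => rw [Pr_cons, List.flatMap_cons, Pr_append, ih]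

lemma flat_pw (p q : ℕ) (a : Ad) : ((ch p a).flatMap (ch q)).Pairwise Dj := by
  rw [List.pairwise_flatMap]
  refine ⟨fun b _ => ch_pw q b, (ch_pw p a).imp fun {b c} d x hx y hy => ?_⟩
  obtain ⟨i, _, rfl⟩ := mem_ch.1 hx
  obtain ⟨j, _, rfl⟩ := mem_ch.1 hy
  exact d.app _ _

lemma mem_flat {p q : ℕ} {a c : Ad} : c ∈ (ch p a).flatMap (ch q) ↔
    ∃ j < p, ∃ i < q, c = a ++ lf (p - 1) j ++ lf (q - 1) i := by
  simp only [List.mem_flatMap, mem_ch]
  constructor
  · rintro ⟨_, ⟨j, hj, rfl⟩, i, hi, rfl⟩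
    exact ⟨j, hj, i, hi, rfl⟩
  · rintro ⟨j, hj, i, hi, rfl⟩
    exact ⟨_, ⟨j, hj, rfl⟩, i, hi, rfl⟩

lemma DD_eq (M : MI P π t g) {f : Ad → H} (hl : ∀ a, Loc P g a (f a)) {q : ℕ} (hq : P q)
    (p : ℕ) (a : Ad) :
    D g p (D g q f) a = Pr f ((ch p a).flatMap (ch q)) * D g p (g q) a := by
  have : Pr (D g q f) (ch p a) = Pr (fun b => Pr f (ch q b)) (ch p a) * Pr (g q) (ch p a) := by
    refine Pr_split M (f := fun b => Pr f (ch q b)) (fun b => Loc.pr fun c hc => ?_)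
      (fun b => Loc.single hq b) (ch_pw p a)
    obtain ⟨j, _, rfl⟩ := mem_ch.1 hc
    exact (hl _).up
  rw [D, this, Pr_flat, D, mul_assoc]

lemma idx_swap {p q i j : ℕ} (hp : 0 < p) (hi : i < q) (hj : j < p) :
    ∃ j' < p, ∃ i' < q, j' + p * i' = i + q * j := by
  refine ⟨(i + q * j) % p, Nat.mod_lt _ hp, (i + q * j) / p, ?_, Nat.mod_add_div _ _⟩
  rw [Nat.div_lt_iff_lt_mul hp]
  calc i + q * j < q + q * j := by omega
    _ = q * (j + 1) := by ring
    _ ≤ q * p := Nat.mul_le_mul_left _ hj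

lemma semW (M : MI P π t g) {p q : ℕ} (hp : P p) (hq : P q) (a : Ad) {σ : Perm ℤ}
    (e : π (D g p (g q) a) = σ * π (D g q (g p) a)) {j i j' i' : ℕ} (hj : j < p) (hi : i < q)
    (hj' : j' < p) (hi' : i' < q) (h : j + p * i = i' + q * j') :
    Mp σ (a ++ lf (q - 1) i' ++ lf (p - 1) j') (a ++ lf (p - 1) j ++ lf (q - 1) i) := by
  intro k
  rw [← semD M hq hp a hi' hj' k, ← Perm.mul_apply, ← e, ← semD M hp hq a hj hi k]
  congr 2
  have : (j : ℤ) + p * i = i' + q * j' := by exact_mod_cast h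
  linear_combination -this

lemma D_swap (M : MJ P π t g) {f : Ad → H} (hn : Nt π t f) (hl : ∀ a, Loc P g a (f a)) {p q : ℕ}
    (hp : P p) (hq : P q) (a : Ad) : Eqv π t a (D g p (D g q f) a) (D g q (D g p f) a) := by
  obtain ⟨w, hw, e⟩ := M.g4 hp hq a
  have e' : π (D g p (g q) a) = π w * π (D g q (g p) a) := by rw [e, map_mul]
  have := conj_perm M.mi hn hl (flat_pw p q a) (flat_pw q p a) hw ?_ ?_
  · refine ⟨w, ⟨hw, fun c hc => ?_⟩, ?_⟩
    · have : π w = π (D g p (g q) a) * (π (D g q (g p) a))⁻¹ := by rw [e']; group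
      rw [this]
      exact ((D_loc (fun b => Loc.single hq b) hp a).fix M.mi hc).mul
        ((D_loc (fun b => Loc.single hp b) hq a).fix M.mi hc).inv
    · rw [DD_eq M.mi hl hq, DD_eq M.mi hl hp, e, ← this]
      group
  · intro c hc
    obtain ⟨i', hi', j', hj', rfl⟩ := mem_flat.1 hc
    obtain ⟨j, hj, i, hi, h⟩ := idx_swap (M.pr hp).pos hi' hj'
    exact ⟨_, mem_flat.2 ⟨j, hj, i, hi, rfl⟩, semW M.mi hp hq a e' hj hi hj' hi' h⟩
  · intro c hc
    obtain ⟨j, hj, i, hi, rfl⟩ := mem_flat.1 hc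
    obtain ⟨i', hi', j', hj', h⟩ := idx_swap (M.pr hq).pos hj hi
    exact ⟨_, mem_flat.2 ⟨i', hi', j', hj', rfl⟩, semW M.mi hp hq a e' hj hi hj' hi' h.symm⟩

def uL (g : ℕ → Ad → H) : List ℕ → Ad → H
  | [] => fun _ => 1
  | p :: l => D g p (uL g l)

lemma uL_loc {l : List ℕ} (h : ∀ p ∈ l, P p) : ∀ a, Loc P g a (uL g l a) := by
  induction l with
  | nil => exact fun _ => Loc.one
  | cons p l ih => exact D_loc (ih fun q hq => h q (by simp [hq])) (h p (by simp))

lemma uL_nat (M : MJ P π t g) {l : List ℕ} (h : ∀ p ∈ l, P p) : Nt π t (uL g l) := by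
  induction l with
  | nil => intro v a a' _ _; simp [uL]
  | cons p l ih => exact D_nat M (ih fun q hq => h q (by simp [hq])) (h p (by simp))

lemma uL_perm (M : MJ P π t g) {l l' : List ℕ} (hp : l.Perm l') :
    (∀ p ∈ l, P p) → ∀ a, Eqv π t a (uL g l a) (uL g l' a) := by
  induction hp with
  | nil => exact fun _ a => Eqv.refl a _
  | cons p hp ih =>
    intro h a
    exact D_eqv M (ih fun q hq => h q (by simp [hq]))
      (uL_loc fun q hq => h q (by simp [hp.mem_iff, hq])) p a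
  | swap p q l =>
    intro h a
    have hl : ∀ r ∈ l, P r := fun r hr => h r (by simp [hr])
    exact D_swap M (uL_nat M hl) (uL_loc hl) (h q (by simp)) (h p (by simp)) a
  | trans h1 _ ih1 ih2 =>
    intro h a
    exact (ih1 h a).trans (ih2 (fun q hq => h q (h1.mem_iff.2 hq)) a)

def Sm (P : ℕ → Prop) (K : ℕ) : Prop := K ≠ 0 ∧ ∀ q, q.Prime → q ∣ K → P q

lemma Sm.one : Sm P 1 := ⟨one_ne_zero, fun q hq h => absurd (Nat.dvd_one.1 h) hq.ne_one⟩

lemma Sm.mul {K L : ℕ} (h : Sm P K) (h' : Sm P L) : Sm P (K * L) :=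
  ⟨mul_ne_zero h.1 h'.1, fun q hq hd => ((Nat.Prime.dvd_mul hq).1 hd).elim (h.2 q hq) (h'.2 q hq)⟩

lemma Sm.of_dvd {K L : ℕ} (h : Sm P K) (hd : L ∣ K) : Sm P L :=
  ⟨fun e => h.1 (Nat.eq_zero_of_zero_dvd (e ▸ hd)), fun q hq h' => h.2 q hq (h'.trans hd)⟩

lemma Sm.prime {p : ℕ} (hp : p.Prime) (h : P p) : Sm P p :=
  ⟨hp.ne_zero, fun q hq hd => by rwa [(Nat.prime_dvd_prime_iff_eq hq hp).1 hd]⟩

lemma Sm.fac {K : ℕ} (h : Sm P K) : ∀ p ∈ K.primeFactorsList, P p := fun p hp =>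
  h.2 p (Nat.prime_of_mem_primeFactorsList hp) (Nat.dvd_of_mem_primeFactorsList hp)

def uu (g : ℕ → Ad → H) (K : ℕ) : Ad → H := uL g K.primeFactorsList

lemma uu_loc {K : ℕ} (h : Sm P K) (a : Ad) : Loc P g a (uu g K a) := uL_loc h.fac a

lemma uu_nat (M : MJ P π t g) {K : ℕ} (h : Sm P K) : Nt π t (uu g K) := uL_nat M h.fac

lemma uu_key (M : MJ P π t g) {K p : ℕ} (h : Sm P K) (hp : P p) (a : Ad) :
    Eqv π t a (D g p (uu g K) a) (uu g (p * K) a) := by
  have : (p :: K.primeFactorsList).Perm (p * K).primeFactorsList := by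
    have := Nat.perm_primeFactorsList_mul (M.pr hp).ne_zero h.1
    rw [Nat.primeFactorsList_prime (M.pr hp)] at this
    exact this.symm
  refine uL_perm M this (fun q hq => ?_) a
  rcases List.mem_cons.1 hq with rfl | hq
  · exact hp
  · exact h.fac q hq

end Pool.Agent.H.MP_02e21a_al
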