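import Pool.Agent.H.MP_02e21a_al.D

set_option autoImplicit false

namespace Pool.Agent.H.MP_02e21a_al

open Equiv

variable {H : Type} [Group H]
variable {P : ℕ → Prop} {π : H →* Perm ℤ} {t : Ad → Ad → H} {g : ℕ → Ad → H}

def FF (g : ℕ → Ad → H) (N : ℕ) (L : List (Ad × ℕ)) : H := (L.map fun i => uu g (N / i.2) i.1).prod

structure Fr (P : ℕ → Prop) (π : H →* Perm ℤ) (t : Ad → Ad → H) (g : ℕ → Ad → H) (x : H)
    (L : List (Ad × ℕ)) : Prop where
  dj : L.Pairwise fun i j => Dj i.1 j.1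
  cov : ∀ n : ℤ, ∃ i ∈ L, ∃ k, n = cone i.1 k
  sem : ∀ i ∈ L, Sm P i.2 ∧ ∃ r : ℤ, ∀ k, π x (r + i.2 * k) = cone i.1 k
  nrm : ∀ N, Sm P N → (∀ i ∈ L, i.2 ∣ N) → ∃ v, Wd t Set.univ v ∧ FF g N L * x = v * uu g N []

lemma FF_perm (M : MI P π t g) {N : ℕ} (hN : Sm P N) {L L' : List (Ad × ℕ)} (hp : L.Perm L')
    (hd : L.Pairwise fun i j => Dj i.1 j.1) (h : ∀ i ∈ L, i.2 ∣ N) : FF g N L = FF g N L' :=
  prod_perm M Prod.fst _ hp hd fun i hi => uu_loc (hN.of_dvd (Nat.div_dvd_of_dvd (h i hi))) _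

lemma Fr.perm (M : MI P π t g) {x : H} {L L' : List (Ad × ℕ)} (h : Fr P π t g x L)
    (hp : L.Perm L') : Fr P π t g x L' := by
  refine ⟨(hp.pairwise_iff fun d => Dj.symm d).1 h.dj, fun n => ?_,
    fun i hi => h.sem i (hp.mem_iff.2 hi), fun N hN hd => ?_⟩
  · obtain ⟨i, hi, e⟩ := h.cov n
    exact ⟨i, hp.mem_iff.1 hi, e⟩
  · have hd' : ∀ i ∈ L, i.2 ∣ N := fun i hi => hd i (hp.mem_iff.1 hi)
    rw [← FF_perm M hN hp h.dj hd']
    exact h.nrm N hN hd'

lemma Fr.split (M : MJ P π t g) {x : H} {a : Ad} {m : ℕ} {L : List (Ad × ℕ)}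
    (h : Fr P π t g x ((a, m) :: L)) {p : ℕ} (hp : P p) :
    Fr P π t g (g p a * x) ((ch p a).map (fun b => (b, m * p)) ++ L) := by
  have hd := List.pairwise_cons.1 h.dj
  have p0 := (M.pr hp).pos
  obtain ⟨sm, r, hr⟩ := h.sem (a, m) (by simp)
  refine ⟨?_, fun n => ?_, fun i hi => ?_, fun N hN hdv => ?_⟩
  · rw [List.pairwise_append, List.pairwise_map]
    refine ⟨ch_pw p a, hd.2, fun i hi j hj => ?_⟩
    obtain ⟨b, hb, rfl⟩ := List.mem_map.1 hi
    obtain ⟨k, _, rfl⟩ := mem_ch.1 hb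
    exact (hd.1 j hj).appl _
  · obtain ⟨i, hi, k, rfl⟩ := h.cov n
    rcases List.mem_cons.1 hi with rfl | hi
    · obtain ⟨j, hj, l, rfl⟩ := lf_cover (p - 1) k
      refine ⟨(a ++ lf (p - 1) j, m * p), List.mem_append_left _ (List.mem_map.2
        ⟨_, mem_ch.2 ⟨j, by omega, rfl⟩, rfl⟩), l, (cone_append _ _ _).symm⟩
    · exact ⟨i, List.mem_append_right _ hi, k, rfl⟩
  · rcases List.mem_append.1 hi with hi | hi
    · obtain ⟨b, hb, rfl⟩ := List.mem_map.1 hi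
      obtain ⟨j, hj, rfl⟩ := mem_ch.1 hb
      refine ⟨sm.mul (Sm.prime (M.pr hp) hp), r + m * j, fun k => ?_⟩
      rw [map_mul, Perm.mul_apply, ← (M.mi.gs hp a).1 j hj, ← hr]
      congr 2
      push_cast; ring
    · obtain ⟨s1, r', hr'⟩ := h.sem i (List.mem_cons_of_mem _ hi)
      refine ⟨s1, r', fun k => ?_⟩
      rw [map_mul, Perm.mul_apply, hr', (M.mi.gs hp a).o (hd.1 i hi).symm]
  · have h0 : m * p ∣ N := hdv (a ++ lf (p - 1) 0, m * p)
      (List.mem_append_left _ (List.mem_map.2 ⟨_, mem_ch.2 ⟨0, p0, rfl⟩, rfl⟩))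
    obtain ⟨K, rfl⟩ := h0
    have hL : ∀ i ∈ L, i.2 ∣ m * p * K := fun i hi => hdv i (List.mem_append_right _ hi)
    obtain ⟨v, hv, e⟩ := h.nrm _ hN (fun i hi => by
      rcases List.mem_cons.1 hi with rfl | hi
      · exact ⟨p * K, by ring⟩
      · exact hL i hi)
    have sK : Sm P K := hN.of_dvd (Dvd.intro_left _ rfl)
    obtain ⟨w, hw, e'⟩ := uu_key M sK hp a
    have m0 : 0 < m := Nat.pos_of_ne_zero sm.1
    have e1 : m * p * K / (m * p) = K := Nat.mul_div_cancel_left _ (by positivity)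
    have e2 : m * p * K / m = p * K := by rw [mul_assoc]; exact Nat.mul_div_cancel_left _ m0
    have e3 : FF g (m * p * K) ((ch p a).map (fun b => (b, m * p)) ++ L) =
        Pr (uu g K) (ch p a) * FF g (m * p * K) L := by
      simp only [FF, List.map_append, List.prod_append, List.map_map, Pr]
      congr 3
      funext b
      simp [e1]
    have e4 : FF g (m * p * K) ((a, m) :: L) = uu g (p * K) a * FF g (m * p * K) L := by
      simp only [FF, List.map_cons, List.prod_cons, e2]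
    have c : Commute (g p a) (FF g (m * p * K) L) := com_prod fun i hi =>
      (Loc.single hp a).com M.mi (hd.1 i hi) (uu_loc (hN.of_dvd (Nat.div_dvd_of_dvd (hL i hi))) _)
    refine ⟨w * v, hw.1.mul' hv, ?_⟩
    rw [e3, mul_assoc, ← mul_assoc _ (g p a), ← c.eq, mul_assoc w, ← e, e4, ← mul_assoc,
      ← mul_assoc, ← mul_assoc, ← mul_assoc, ← e', D]

lemma Fr.vmove (M : MJ P π t g) {x v : H} {L : List (Ad × ℕ)} (h : Fr P π t g x L)
    (hv : Wd t Set.univ v) (φ : Ad → Ad) (hφ : ∀ i ∈ L, Mp (π v) i.1 (φ i.1)) :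
    Fr P π t g (v * x) (L.map fun i => (φ i.1, i.2)) := by
  refine ⟨?_, fun n => ?_, fun i hi => ?_, fun N hN hdv => ?_⟩
  · rw [List.pairwise_map]
    exact h.dj.imp_of_mem fun {i j} hi hj d => (hφ i hi).dj (hφ j hj) d
  · obtain ⟨i, hi, k, e⟩ := h.cov ((π v)⁻¹ n)
    refine ⟨_, List.mem_map.2 ⟨i, hi, rfl⟩, k, ?_⟩
    rw [← hφ i hi, ← e]; simp
  · obtain ⟨j, hj, rfl⟩ := List.mem_map.1 hi
    obtain ⟨s1, r, hr⟩ := h.sem j hj
    exact ⟨s1, r, fun k => by rw [map_mul, Perm.mul_apply, hr, hφ j hj]⟩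
  · have hL : ∀ i ∈ L, i.2 ∣ N := fun i hi => hdv (φ i.1, i.2) (List.mem_map.2 ⟨i, hi, rfl⟩)
    obtain ⟨w, hw, e⟩ := h.nrm N hN hL
    refine ⟨v * w, hv.mul' hw, ?_⟩
    have : v * FF g N L * v⁻¹ = FF g N (L.map fun i => (φ i.1, i.2)) := by
      rw [FF, FF, List.map_map]
      exact conj_prod v fun i hi =>
        uu_nat M (hN.of_dvd (Nat.div_dvd_of_dvd (hL i hi))) v _ _ hv (hφ i hi)
    rw [← this, mul_assoc v w, ← e]
    group

lemma Fr.lvlAux (M : MJ P π t g) {x : H} (d k : ℕ) : ∀ L1 L2 : List (Ad × ℕ),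
    Fr P π t g x (L1 ++ L2) → (∀ i ∈ L1, i.1.length ≤ d ∧ d ≤ i.1.length + k) →
      ∃ L, (∀ i ∈ L, i.1.length = d) ∧ Fr P π t g x (L ++ L2) := by
  induction k with
  | zero => exact fun L1 L2 h hl => ⟨L1, fun i hi => by have := hl i hi; omega, h⟩
  | succ k ih =>
    intro L1
    induction L1 with
    | nil => exact fun L2 h _ => ⟨[], by simp, h⟩
    | cons i L1 ih' =>
      intro L2 h hl
      have : ∃ L, (∀ i ∈ L, i.1.length = d) ∧ Fr P π t g x (L ++ (L1 ++ L2)) := by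
        by_cases e : i.1.length = d
        · exact ⟨[i], by simpa using e, h⟩
        · have h' := Fr.split M (a := i.1) (m := i.2) h M.two
          rw [M.mi.gtwo, one_mul] at h'
          refine ih _ _ h' fun j hj => ?_
          have := hl i (by simp)
          simp only [ch_two, List.map_cons, List.map_nil, List.mem_cons, List.not_mem_nil,
            or_false] at hj
          rcases hj with rfl | rfl <;> simp <;> omega
      obtain ⟨L, hL, h'⟩ := this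
      obtain ⟨L', hL', h''⟩ := ih' (L ++ L2) (h'.perm M.mi (List.perm_append_comm_assoc _ _ _))
        fun j hj => hl j (by simp [hj])
      refine ⟨L' ++ L, fun j hj => ?_, by rwa [List.append_assoc]⟩
      rcases List.mem_append.1 hj with hj | hj
      · exact hL' j hj
      · exact hL j hj

lemma Fr.lvl (M : MJ P π t g) {x : H} {L : List (Ad × ℕ)} (h : Fr P π t g x L) :
    ∃ d0, ∀ d, d0 ≤ d → ∃ L', (∀ i ∈ L', i.1.length = d) ∧ Fr P π t g x L' := by
  refine ⟨(L.map fun i => i.1.length).sum, fun d hd => ?_⟩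
  obtain ⟨L', h1, h2⟩ := Fr.lvlAux M d d L [] (by simpa using h) fun i hi =>
    ⟨(List.single_le_sum (by simp) _ (List.mem_map.2 ⟨i, hi, rfl⟩)).trans hd, by omega⟩
  exact ⟨L', h1, by simpa using h2⟩

lemma Fr.mem_lvl {x : H} {L : List (Ad × ℕ)} (h : Fr P π t g x L) {d : ℕ}
    (hl : ∀ i ∈ L, i.1.length = d) {a : Ad} (ha : a.length = d) : ∃ m, (a, m) ∈ L := by
  obtain ⟨i, hi, k, e⟩ := h.cov (cone a 0)
  obtain ⟨u, hu⟩ := cmp_len (a := a) (b := i.1) (fun d => d 0 k e) (by rw [ha, hl i hi])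
  have : u = [] := by
    have := congrArg List.length hu
    rw [List.length_append, hl i hi, ha] at this
    exact List.length_eq_zero_iff.1 (by omega)
  subst this
  rw [List.append_nil] at hu
  exact ⟨i.2, hu ▸ hi⟩

lemma Fr.gmove (M : MJ P π t g) {p : ℕ} (hp : P p) (k : ℕ) : ∀ (a : Ad) (x : H)
    (L : List (Ad × ℕ)), Fr P π t g x L → (∀ u : Ad, u.length = k → ∃ m, (a ++ u, m) ∈ L) →
      ∃ w L', Vs π t a w ∧ Fr P π t g (w⁻¹ * g p a * x) L' ∧ ∀ i ∈ L, Dj i.1 a → i ∈ L' := by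
  classical
  induction k with
  | zero =>
    intro a x L h hu
    obtain ⟨m, hm⟩ := hu [] rfl
    rw [List.append_nil] at hm
    have := (h.perm M.mi (List.perm_cons_erase hm)).split M hp
    refine ⟨1, _, ⟨Wd.one, fun c _ => by simpa using Mp.one c⟩, by simpa using this,
      fun i hi d => List.mem_append_right _ ?_⟩
    exact (List.mem_erase_of_ne fun e => d.ne (by rw [e])).2 hi
  | succ k ih =>
    intro a x L h hu
    obtain ⟨w, hw, e⟩ := M.gspl hp a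
    obtain ⟨w1, L1, v1, f1, k1⟩ := ih (a ++ [true]) x L h fun u hl => by
      simpa using hu (true :: u) (by simp [hl])
    obtain ⟨w0, L0, v0, f0, k0⟩ := ih (a ++ [false]) _ L1 f1 fun u hl => by
      obtain ⟨m, hm⟩ := hu (false :: u) (by simp [hl])
      have e : a ++ false :: u = a ++ [false] ++ u := by simp
      rw [e] at hm
      exact ⟨m, k1 _ hm ((dj_ch a).appl u)⟩
    refine ⟨w * w1 * w0, L0, (hw.mul v1.up).mul v0.up, ?_,
      fun i hi d => k0 i (k1 i hi (d.appr _)) (d.appr _)⟩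
    have c := (Loc.single hp (a ++ [false])).comV M v1.1 (v1.2 _ (dj_ch a))
    refine cast (congrArg (fun y => Fr P π t g y L0) ?_) f0
    rw [e]
    calc w0⁻¹ * g p (a ++ [false]) * (w1⁻¹ * g p (a ++ [true]) * x)
        = w0⁻¹ * (g p (a ++ [false]) * w1⁻¹) * g p (a ++ [true]) * x := by group
      _ = _ := by rw [← c.inv_left.eq]; group

inductive Ps (P : ℕ → Prop) (t : Ad → Ad → H) (g : ℕ → Ad → H) : H → Prop
  | one : Ps P t g 1
  | v (v x : H) : Wd t Set.univ v → Ps P t g x → Ps P t g (v * x)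
  | g (p : ℕ) (a : Ad) (x : H) : P p → Ps P t g x → Ps P t g (g p a * x)

lemma Ps.mul {x y : H} (hx : Ps P t g x) (hy : Ps P t g y) : Ps P t g (x * y) := by
  induction hx with
  | one => simpa using hy
  | v v x hv _ ih => rw [mul_assoc]; exact Ps.v v _ hv ih
  | g p a x hp _ ih => rw [mul_assoc]; exact Ps.g p a _ hp ih

lemma Loc.ps {a : Ad} {x : H} (h : Loc P g a x) : Ps P t g x := by
  induction h with
  | one => exact Ps.one
  | mul p u x hp _ ih => exact Ps.g p _ x hp ih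

lemma FF_ps {N : ℕ} (hN : Sm P N) {L : List (Ad × ℕ)} (h : ∀ i ∈ L, i.2 ∣ N) :
    Ps P t g (FF g N L) := by
  induction L with
  | nil => exact Ps.one
  | cons i L ih =>
    rw [FF, List.map_cons, List.prod_cons]
    exact (uu_loc (hN.of_dvd (Nat.div_dvd_of_dvd (h i (by simp)))) _).ps.mul
      (ih fun j hj => h j (by simp [hj]))

lemma Fr.vstep (M : MJ P π t g) {x v : H} {L : List (Ad × ℕ)} (h : Fr P π t g x L)
    (hv : Wd t Set.univ v) : ∃ L', Fr P π t g (v * x) L' := by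
  classical
  obtain ⟨d, c, hd⟩ := hv.deep M.mi
  obtain ⟨d0, h0⟩ := h.lvl M
  obtain ⟨L', hl, h'⟩ := h0 (d0 + d) (by omega)
  refine ⟨_, h'.vmove M hv (fun a => if h : ∃ a', Mp (π v) a a' then h.choose else a)
    fun i hi => ?_⟩
  obtain ⟨a', m, _⟩ := hd i.1 (by rw [hl i hi]; omega)
  have h : ∃ a', Mp (π v) i.1 a' := ⟨a', m⟩
  simp only [dif_pos h]
  exact h.choose_spec

lemma Ps.fr (M : MJ P π t g) {x : H} (h : Ps P t g x) : ∃ L, Fr P π t g x L := by
  induction h with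
  | one =>
    refine ⟨[([], 1)], by simp, fun n => ⟨([], 1), by simp, n, rfl⟩, fun i hi => ?_,
      fun N _ _ => ⟨1, Wd.one, by simp [FF]⟩⟩
    rw [List.mem_singleton.1 hi]
    exact ⟨Sm.one, 0, fun k => by simp⟩
  | v v x hv _ ih =>
    obtain ⟨L, h⟩ := ih
    exact h.vstep M hv
  | g p a x hp _ ih =>
    obtain ⟨L, h⟩ := ih
    obtain ⟨d0, h0⟩ := h.lvl M
    obtain ⟨L', hl, h'⟩ := h0 (a.length + d0) (by omega)
    obtain ⟨w, L'', hw, h'', _⟩ := Fr.gmove M hp d0 a x L' h' fun u hu =>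
      h'.mem_lvl hl (by simp [hu])
    obtain ⟨L3, h3⟩ := h''.vstep M hw.1
    exact ⟨L3, by simpa [mul_assoc] using h3⟩

lemma exN {L : List (Ad × ℕ)} (h : ∀ i ∈ L, Sm P i.2) : ∃ N, Sm P N ∧ ∀ i ∈ L, i.2 ∣ N := by
  induction L with
  | nil => exact ⟨1, Sm.one, by simp⟩
  | cons i L ih =>
    obtain ⟨N, hN, hd⟩ := ih fun j hj => h j (by simp [hj])
    refine ⟨i.2 * N, (h i (by simp)).mul hN, fun j hj => ?_⟩
    rcases List.mem_cons.1 hj with rfl | hj
    · exact Dvd.intro _ rfl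
    · exact (hd j hj).mul_left _

lemma Ps.ore (M : MJ P π t g) {x y : H} (hx : Ps P t g x) (hy : Ps P t g y) :
    ∃ a b, Ps P t g a ∧ Ps P t g b ∧ a * x = b * y := by
  obtain ⟨L, h⟩ := hx.fr M
  obtain ⟨L', h'⟩ := hy.fr M
  obtain ⟨N, hN, hd⟩ := exN fun i hi => (h.sem i hi).1
  obtain ⟨N', hN', hd'⟩ := exN fun i hi => (h'.sem i hi).1
  have d1 : ∀ i ∈ L, i.2 ∣ N * N' := fun i hi => (hd i hi).mul_right _
  have d2 : ∀ i ∈ L', i.2 ∣ N * N' := fun i hi => (hd' i hi).mul_left _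
  obtain ⟨v, hv, e⟩ := h.nrm _ (hN.mul hN') d1
  obtain ⟨v', hv', e'⟩ := h'.nrm _ (hN.mul hN') d2
  refine ⟨_, _, Ps.v _ _ (hv.inv M.mi) (FF_ps (hN.mul hN') d1),
    Ps.v _ _ (hv'.inv M.mi) (FF_ps (hN.mul hN') d2), ?_⟩
  rw [mul_assoc, mul_assoc, e, e']
  group

lemma Ps.inj (M : MJ P π t g) {x y : H} (hx : Ps P t g x) (hy : Ps P t g y) (e : π x = π y) :
    x = y := by
  obtain ⟨L, h⟩ := hx.fr M
  obtain ⟨L', h'⟩ := hy.fr M
  obtain ⟨d, hd⟩ := h.lvl M
  obtain ⟨d', hd'⟩ := h'.lvl M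
  obtain ⟨L, l, h⟩ := hd (d + d') (by omega)
  obtain ⟨L', l', h'⟩ := hd' (d + d') (by omega)
  have key : ∀ {x y : H} {L L' : List (Ad × ℕ)}, Fr P π t g x L → Fr P π t g y L' → π x = π y →
      (∀ i ∈ L, i.1.length = d + d') → (∀ i ∈ L', i.1.length = d + d') → ∀ i ∈ L, i ∈ L' := by
    intro x y L L' h h' e l l' i hi
    obtain ⟨m, hm⟩ := h'.mem_lvl l' (l i hi)
    obtain ⟨_, r, hr⟩ := h.sem i hi
    obtain ⟨_, r', hr'⟩ := h'.sem _ hm
    have k0 := (π y).injective ((e ▸ hr 0).trans (hr' 0).symm)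
    have k1 := (π y).injective ((e ▸ hr 1).trans (hr' 1).symm)
    have : i.2 = m := by
      simp only [mul_zero, add_zero, mul_one] at k0 k1
      have : (i.2 : ℤ) = m := by linarith
      exact_mod_cast this
    rw [← this] at hm
    exact hm
  have nd : ∀ {x : H} {L : List (Ad × ℕ)}, Fr P π t g x L → L.Nodup := fun h =>
    h.dj.imp fun d e => d.ne (by rw [e])
  have hp : L.Perm L' := (List.perm_ext_iff_of_nodup (nd h) (nd h')).2 fun i =>
    ⟨key h h' e l l' i, key h' h e.symm l' l i⟩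
  have h'' := h'.perm M.mi hp.symm
  obtain ⟨N, hN, hdv⟩ := exN fun i hi => (h.sem i hi).1
  obtain ⟨v, hv, e1⟩ := h.nrm N hN hdv
  obtain ⟨v', hv', e2⟩ := h''.nrm N hN hdv
  have : v = v' := by
    refine M.mi.eqV hv hv' (mul_right_cancel (b := π (uu g N [])) ?_)
    rw [← map_mul, ← map_mul, ← e1, ← e2, map_mul, map_mul, e]
  rw [this, ← e2] at e1
  exact mul_left_cancel e1

def Gens (P : ℕ → Prop) (t : Ad → Ad → H) (g : ℕ → Ad → H) : Set H :=
  {x | (∃ a b, Dj a b ∧ x = t a b) ∨ ∃ p a, P p ∧ x = g p a}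

theorem MJ.inj (M : MJ P π t g) {x : H} (hx : x ∈ Subgroup.closure (Gens P t g))
    (h1 : π x = 1) : x = 1 := by
  have : ∃ a b, Ps P t g a ∧ Ps P t g b ∧ x = a⁻¹ * b := by
    clear h1
    induction hx using Subgroup.closure_induction with
    | mem x hx =>
      refine ⟨1, x, Ps.one, ?_, by simp⟩
      rcases hx with ⟨a, b, d, rfl⟩ | ⟨p, a, hp, rfl⟩
      · simpa using Ps.v (P := P) (g := g) _ 1 (Wd.single (t := t) trivial trivial d) Ps.one
      · simpa using Ps.g (t := t) (g := g) p a 1 hp Ps.one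
    | one => exact ⟨1, 1, Ps.one, Ps.one, by simp⟩
    | mul x y _ _ ihx ihy =>
      obtain ⟨a, b, ha, hb, rfl⟩ := ihx
      obtain ⟨c, d, hc, hd, rfl⟩ := ihy
      obtain ⟨e, f, he, hf, h⟩ := hb.ore M hc
      refine ⟨e * a, f * d, he.mul ha, hf.mul hd, ?_⟩
      have : b = e⁻¹ * (f * c) := by rw [← h]; group
      rw [this]; group
    | inv x _ ih =>
      obtain ⟨a, b, ha, hb, rfl⟩ := ih
      exact ⟨b, a, hb, ha, by group⟩
  obtain ⟨a, b, ha, hb, rfl⟩ := this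
  rw [map_mul, map_inv, inv_mul_eq_one] at h1
  rw [ha.inj M hb h1, inv_mul_cancel]

end Pool.Agent.H.MP_02e21a_al
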