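import Pool.Agent.H.MP_02e21a_al.E

set_option autoImplicit false

namespace Pool.Agent.H.MP_02e21a_al

open Equiv

variable {H : Type} [Group H]

def idx (a : Ad) : ℕ := a.foldl (fun n b => 2 * n + b.toNat) 1

lemma idx_ch (a : Ad) (b : Bool) : idx (a ++ [b]) = 2 * idx a + b.toNat := by
  simp [idx, List.foldl_append]

lemma idx_bd (a : Ad) : 2 ^ a.length ≤ idx a ∧ idx a < 2 ^ (a.length + 1) := by
  induction a using List.reverseRecOn with
  | nil => simp [idx]
  | append_singleton a b ih =>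
    rw [idx_ch, List.length_append, List.length_singleton, pow_succ, pow_succ, pow_succ]
    rw [pow_succ] at ih
    have := Bool.toNat_le b
    omega

lemma idx_pos (a : Ad) : 0 < idx a := lt_of_lt_of_le (by positivity) (idx_bd a).1

lemma idx_mono (a u : Ad) : idx a ≤ idx (a ++ u) := by
  induction u using List.reverseRecOn with
  | nil => simp
  | append_singleton u b ih => rw [← List.append_assoc, idx_ch]; omega

lemma idx_inj {a : Ad} : ∀ {b : Ad}, idx a = idx b → a = b := by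
  induction a using List.reverseRecOn with
  | nil =>
    intro b h
    induction b using List.reverseRecOn with
    | nil => rfl
    | append_singleton b j _ =>
      rw [idx_ch] at h
      have := idx_pos b
      simp [idx] at h this; omega
  | append_singleton a i ih =>
    intro b h
    induction b using List.reverseRecOn with
    | nil =>
      rw [idx_ch] at h
      have := idx_pos a
      simp [idx] at h this; omega
    | append_singleton b j _ =>
      rw [idx_ch, idx_ch] at h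
      have h1 : idx a = idx b := by
        have := Bool.toNat_le i
        have := Bool.toNat_le j
        omega
      have h2 : i = j := by
        cases i <;> cases j <;> simp at h ⊢ <;> omega
      rw [ih h1, h2]

lemma idx_surj (k : ℕ) : 0 < k → ∃ a, idx a = k := by
  induction k using Nat.strong_induction_on with
  | _ k ih =>
    intro hk
    by_cases h : k = 1
    · exact ⟨[], by simp [idx, h]⟩
    · obtain ⟨a, ha⟩ := ih (k / 2) (by omega) (by omega)
      rcases Nat.mod_two_eq_zero_or_one k with e | e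
      · exact ⟨a ++ [false], by rw [idx_ch]; simp; omega⟩
      · exact ⟨a ++ [true], by rw [idx_ch]; simp; omega⟩

def sib (a : Ad) (i : ℕ) : Ad := a.take i ++ [!(a.getD i false)]

lemma sib_dj {a : Ad} {i : ℕ} (h : i < a.length) : Dj (sib a i) a := by
  have e : a = a.take i ++ a.getD i false :: a.drop (i + 1) := by
    rw [List.getD_eq_getElem _ _ h, ← List.drop_eq_getElem_cons h, List.take_append_drop]
  have := (dj_bool (i := !(a.getD i false)) (j := a.getD i false) (by simp) []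
    (a.drop (i + 1))).pre (a.take i)
  rwa [← e] at this

lemma sib_sib {a : Ad} {i j : ℕ} (hi : i < a.length) (hj : j < a.length) (h : i ≠ j) :
    Dj (sib a i) (sib a j) := by
  wlog hij : i < j generalizing i j
  · exact (this hj hi h.symm (by omega)).symm
  have h1 : i < (a.take j).length := by simp; omega
  have := (sib_dj h1).appr [!(a.getD j false)]
  have e : sib (a.take j) i = sib a i := by
    simp only [sib, List.take_take, min_eq_left hij.le]
    rw [List.getD_eq_getElem _ _ h1, List.getD_eq_getElem _ _ hi, List.getElem_take]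
  rwa [e] at this

lemma sib_blk {a y : Ad} {i : ℕ} (h : Dj y a) (h' : ¬ Dj y (sib a i)) : ∃ u, y = sib a i ++ u := by
  rcases cmp h' with ⟨u, e⟩ | h'
  · by_cases hu : u = []
    · exact ⟨[], by simp [e, hu]⟩
    · obtain ⟨v, hv⟩ := pre_concat hu e
      have : a = y ++ (v ++ a.drop i) := by rw [← List.append_assoc, ← hv, List.take_append_drop]
      rw [this] at h
      exact absurd h (not_dj_app _ _)
  · exact h'

/-- the relations among the addresses of index below `2 * k` -/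
structure MF (P : ℕ → Prop) (π : H →* Perm ℤ) (k : ℕ) (t : Ad → Ad → H) (g : ℕ → Ad → H) :
    Prop where
  ts : ∀ {a b}, idx a < 2 * k → idx b < 2 * k → Dj a b → Ts a b (π (t a b))
  gs : ∀ {p}, P p → ∀ {a}, idx a < 2 * k → Gs p a (π (g p a))
  sq : ∀ {a b}, idx a < 2 * k → idx b < 2 * k → Dj a b → t a b * t a b = 1
  sym : ∀ {a b}, idx a < 2 * k → idx b < 2 * k → Dj a b → t a b = t b a
  com : ∀ {a b c d}, idx a < 2 * k → idx b < 2 * k → idx c < 2 * k → idx d < 2 * k →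
    Dj a b → Dj c d → Dj a c → Dj a d → Dj b c → Dj b d → t a b * t c d = t c d * t a b
  tri : ∀ {a b c}, idx a < 2 * k → idx b < 2 * k → idx c < 2 * k →
    Dj a b → Dj a c → Dj b c → t a b * t b c * t a b = t a c
  spl : ∀ {a b}, (∀ i, idx (a ++ [i]) < 2 * k) → (∀ i, idx (b ++ [i]) < 2 * k) → Dj a b →
    t a b = t (a ++ [false]) (b ++ [false]) * t (a ++ [true]) (b ++ [true])
  g1 : ∀ {p a b}, P p → idx a < 2 * k → idx b < 2 * k → Dj a b → t a b * g p a * t a b = g p b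
  g2 : ∀ {p a b c}, P p → idx a < 2 * k → idx b < 2 * k → idx c < 2 * k →
    Dj a b → Dj a c → Dj b c → t b c * g p a = g p a * t b c
  g3 : ∀ {p q a b}, P p → P q → idx a < 2 * k → idx b < 2 * k → Dj a b →
    g p a * g q b = g q b * g p a
  gtwo : ∀ a, g 2 a = 1

section ext

variable {P : ℕ → Prop} {π : H →* Perm ℤ} {k : ℕ} {t : Ad → Ad → H} {g : ℕ → Ad → H} {α : Ad}

def rho (α δ x : Ad) : Ad :=
  if x = α ++ [false] then δ ++ [false] else if x = α ++ [true] then δ ++ [true] else x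

lemma rho_new (α δ : Ad) (b : Bool) : rho α δ (α ++ [b]) = δ ++ [b] := by
  cases b <;> simp [rho]

lemma rho_old (hα : idx α = k) (δ : Ad) {x : Ad} (hx : idx x < 2 * k) : rho α δ x = x := by
  have : ∀ b, x ≠ α ++ [b] := fun b e => by rw [e, idx_ch] at hx; omega
  simp [rho, this]

def Cd (α δ : Ad) : Prop := ∃ i < 5, δ = sib α i

def Ok (k : ℕ) (α δ x : Ad) : Prop := (∃ b, x = α ++ [b]) ∨ (idx x < 2 * k ∧ Dj x α ∧ Dj x δ)

lemma len_ge (hk : 64 ≤ k) (hα : idx α = k) : 5 ≤ α.length := by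
  by_contra h
  have h1 := (idx_bd α).2
  have : 2 ^ (α.length + 1) ≤ 2 ^ 5 := Nat.pow_le_pow_right (by omega) (by omega)
  omega

lemma Cd.dj (hk : 64 ≤ k) (hα : idx α = k) {δ : Ad} (h : Cd α δ) : Dj α δ := by
  obtain ⟨i, hi, rfl⟩ := h
  exact (sib_dj (by have := len_ge hk hα; omega)).symm

lemma Cd.lt (hk : 64 ≤ k) {δ : Ad} (h : Cd α δ) : idx δ < k := by
  obtain ⟨i, hi, rfl⟩ := h
  have h1 := (idx_bd (sib α i)).2
  have h2 : (sib α i).length ≤ 5 := by simp [sib]; omega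
  have : 2 ^ ((sib α i).length + 1) ≤ 2 ^ 6 := Nat.pow_le_pow_right (by omega) (by omega)
  omega

lemma Cd.o (hk : 64 ≤ k) {δ : Ad} (h : Cd α δ) : idx δ < 2 * k := by have := h.lt hk; omega

lemma Cd.oc (hk : 64 ≤ k) {δ : Ad} (h : Cd α δ) (b : Bool) : idx (δ ++ [b]) < 2 * k := by
  have := h.lt hk
  have := Bool.toNat_le b
  rw [idx_ch]; omega

lemma Cd.dd (hk : 64 ≤ k) (hα : idx α = k) {δ δ' : Ad} (h : Cd α δ) (h' : Cd α δ') (e : δ ≠ δ') :
    Dj δ δ' := by
  obtain ⟨i, hi, rfl⟩ := h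
  obtain ⟨j, hj, rfl⟩ := h'
  have := len_ge hk hα
  exact sib_sib (by omega) (by omega) fun h => e (by rw [h])

lemma Ok.o (hk : 64 ≤ k) (hα : idx α = k) {δ x : Ad} (h : Cd α δ) (hx : Ok k α δ x) :
    idx (rho α δ x) < 2 * k := by
  rcases hx with ⟨b, rfl⟩ | hx
  · rw [rho_new]; exact h.oc hk b
  · rw [rho_old hα δ hx.1]; exact hx.1

lemma Ok.mp (M : MF P π k t g) (hk : 64 ≤ k) (hα : idx α = k) {δ x : Ad} (h : Cd α δ)
    (hx : Ok k α δ x) : Mp (π (t α δ)) (rho α δ x) x := by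
  have T := M.ts (by omega) (h.o hk) (h.dj hk hα)
  rcases hx with ⟨b, rfl⟩ | hx
  · rw [rho_new]; exact T.r.app _
  · rw [rho_old hα δ hx.1]; exact T.o hx.2.1 hx.2.2

lemma Ok.dj (M : MF P π k t g) (hk : 64 ≤ k) (hα : idx α = k) {δ x y : Ad} (h : Cd α δ)
    (hx : Ok k α δ x) (hy : Ok k α δ y) (d : Dj x y) : Dj (rho α δ x) (rho α δ y) :=
  (hx.mp M hk hα h).inv.dj (hy.mp M hk hα h).inv d

lemma Ok.da (hk : 64 ≤ k) (hα : idx α = k) {δ x : Ad} (h : Cd α δ) (hx : Ok k α δ x) :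
    Dj α (rho α δ x) := by
  rcases hx with ⟨b, rfl⟩ | hx
  · rw [rho_new]; exact (h.dj hk hα).appr _
  · rw [rho_old hα δ hx.1]; exact hx.2.1.symm

lemma Ok.old (hα : idx α = k) {δ x : Ad} (hx : Ok k α δ x) (h : idx x < 2 * k) :
    Dj x α ∧ Dj x δ := by
  rcases hx with ⟨b, rfl⟩ | hx
  · rw [idx_ch] at h; omega
  · exact hx.2

lemma Ok.dd (hα : idx α = k) {δ δ' x : Ad} (d : Dj δ δ') (hx : Ok k α δ' x) :
    Dj δ' (rho α δ x) := by
  rcases hx with ⟨b, rfl⟩ | hx
  · rw [rho_new]; exact d.symm.appr _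
  · rw [rho_old hα δ hx.1]; exact hx.2.2.symm

lemma MF.comch (M : MF P π k t g) {a b : Ad} (oa : ∀ i, idx (a ++ [i]) < 2 * k)
    (ob : ∀ i, idx (b ++ [i]) < 2 * k) (d : Dj a b) :
    t (a ++ [false]) (b ++ [false]) * t (a ++ [true]) (b ++ [true]) =
      t (a ++ [true]) (b ++ [true]) * t (a ++ [false]) (b ++ [false]) :=
  M.com (oa _) (ob _) (oa _) (ob _) (d.app _ _) (d.app _ _) (dj_ch a) (d.app _ _)
    (d.symm.app _ _) (dj_ch b)

lemma MF.cjo (M : MF P π k t g) {a b c d : Ad} (oa : idx a < 2 * k) (ob : idx b < 2 * k)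
    (oc : idx c < 2 * k) (od : idx d < 2 * k) (h : Dj a b) (h1 : Dj c d) (h2 : Dj a c)
    (h3 : Dj a d) (h4 : Dj b c) (h5 : Dj b d) : t a b * t c d * t a b = t c d :=
  conj_of_com (M.com oa ob oc od h h1 h2 h3 h4 h5) (M.sq oa ob h)

lemma MF.tri' (M : MF P π k t g) {a b c : Ad} (oa : idx a < 2 * k) (ob : idx b < 2 * k)
    (oc : idx c < 2 * k) (h : Dj a b) (h1 : Dj a c) (h2 : Dj b c) :
    t a b * t a c * t a b = t b c := by
  rw [M.sym oa ob h]; exact M.tri ob oa oc h.symm h2 h1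

lemma MF.cjA (M : MF P π k t g) {a b z : Ad} (oa : ∀ i, idx (a ++ [i]) < 2 * k)
    (ob : ∀ i, idx (b ++ [i]) < 2 * k) (oz : idx z < 2 * k) (d : Dj a b) (h1 : Dj a z)
    (h2 : Dj b z) (i : Bool) : t a b * t (a ++ [i]) z * t a b = t (b ++ [i]) z := by
  rw [M.spl oa ob d]
  cases i
  · refine conj_two' (M.comch oa ob d) ?_
      (M.tri' (oa _) (ob _) oz (d.app _ _) (h1.appl _) (h2.appl _))
    exact M.cjo (oa _) (ob _) (oa _) oz (d.app _ _) (h1.appl _) (dj_ch a).symm (h1.appl _)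
      (d.symm.app _ _) (h2.appl _)
  · refine conj_two (M.comch oa ob d)
      (M.tri' (oa _) (ob _) oz (d.app _ _) (h1.appl _) (h2.appl _)) ?_
    exact M.cjo (oa _) (ob _) (ob _) oz (d.app _ _) (h2.appl _) (d.app _ _) (h1.appl _)
      (dj_ch b) (h2.appl _)

lemma MF.cjB (M : MF P π k t g) {a b : Ad} (oa : ∀ i, idx (a ++ [i]) < 2 * k)
    (ob : ∀ i, idx (b ++ [i]) < 2 * k) (d : Dj a b) :
    t a b * t (a ++ [false]) (a ++ [true]) * t a b = t (b ++ [false]) (b ++ [true]) := by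
  have e1 := M.tri' (oa true) (ob true) (oa false) (d.app _ _) (dj_ch a).symm (d.symm.app _ _)
  have e2 := M.tri' (oa false) (ob false) (ob true) (d.app _ _) (d.app _ _) (dj_ch b)
  rw [M.sym (ob true) (oa false) (d.symm.app _ _), M.sym (oa true) (oa false) (dj_ch a).symm] at e1
  have : ∀ s r x : H, s * r = r * s → s * r * x * (s * r) = s * (r * x * r) * s :=
    fun s r x h => by
      calc s * r * x * (s * r) = s * r * x * (r * s) := by rw [← h]
        _ = _ := by group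
  rw [M.spl oa ob d, this _ _ _ (M.comch oa ob d), e1, e2]

lemma MF.gjA (M : MF P π k t g) {p : ℕ} (hp : P p) {a b : Ad} (oa : ∀ i, idx (a ++ [i]) < 2 * k)
    (ob : ∀ i, idx (b ++ [i]) < 2 * k) (d : Dj a b) (i : Bool) :
    t a b * g p (a ++ [i]) * t a b = g p (b ++ [i]) := by
  rw [M.spl oa ob d]
  cases i
  · refine conj_two' (M.comch oa ob d) ?_ (M.g1 hp (oa _) (ob _) (d.app _ _))
    exact conj_of_com (M.g2 hp (oa _) (oa _) (ob _) (dj_ch a) (d.app _ _) (d.app _ _))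
      (M.sq (oa _) (ob _) (d.app _ _))
  · refine conj_two (M.comch oa ob d) (M.g1 hp (oa _) (ob _) (d.app _ _)) ?_
    exact conj_of_com (M.g2 hp (ob _) (oa _) (ob _) (d.symm.app _ _) (dj_ch b).symm (d.app _ _))
      (M.sq (oa _) (ob _) (d.app _ _))

lemma indep_aux {G : Type} [Group G] {s s' r x x' : G} (hs : s * s = 1) (hr : r * r = 1)
    (h1 : s * r * s = s') (h2 : r * s * r = s') (h3 : r * x * r = x') (h4 : s' * x = x * s') :
    s * x * s = s' * x' * s' := by
  have si : s⁻¹ = s := inv_eq_of_mul_eq_one_right hs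
  have ri : r⁻¹ = r := inv_eq_of_mul_eq_one_right hr
  have e1 : s' * x' * s' = r * (s * x * s) * r := by
    rw [← h2, ← h3]
    calc r * s * r * (r * x * r) * (r * s * r) = r * s * (r * r) * x * (r * r) * s * r := by group
      _ = _ := by rw [hr]; group
  have e2 : r * (s * x * s) = s * x * s * r := by
    rw [← h1] at h4
    calc r * (s * x * s) = (s * s) * r * s * x * s := by rw [hs]; group
      _ = s * (s * r * s * x) * s := by group
      _ = s * x * s * r * (s * s) := by rw [h4]; group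
      _ = _ := by rw [hs, mul_one]
  rw [e1, e2, mul_assoc _ r r, hr, mul_one]

lemma indep_t (M : MF P π k t g) (hk : 64 ≤ k) (hα : idx α = k) {δ δ' x y : Ad} (h : Cd α δ)
    (h' : Cd α δ') (hx : Ok k α δ x) (hy : Ok k α δ y) (hx' : Ok k α δ' x) (hy' : Ok k α δ' y)
    (d : Dj x y) : t α δ * t (rho α δ x) (rho α δ y) * t α δ =
      t α δ' * t (rho α δ' x) (rho α δ' y) * t α δ' := by
  by_cases e : δ = δ'
  · rw [e]
  have dd := h.dd hk hα h' e
  have oa : idx α < 2 * k := by omega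
  have d1 := h.dj hk hα
  have d2 := h'.dj hk hα
  refine indep_aux (r := t δ δ') (M.sq oa (h.o hk) d1) (M.sq (h.o hk) (h'.o hk) dd)
    (M.tri oa (h.o hk) (h'.o hk) d1 d2 dd) ?_ ?_ ?_
  · rw [M.sym oa (h.o hk) d1, M.sym oa (h'.o hk) d2]
    exact M.tri' (h.o hk) (h'.o hk) oa dd d1.symm d2.symm
  · rcases hx with ⟨i, rfl⟩ | hx
    · rcases hy with ⟨j, rfl⟩ | hy
      · simp only [rho_new]
        cases i <;> cases j
        · exact absurd rfl d.ne
        · exact M.cjB (h.oc hk) (h'.oc hk) dd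
        · rw [M.sym (h.oc hk _) (h.oc hk _) (dj_ch δ).symm,
            M.sym (h'.oc hk _) (h'.oc hk _) (dj_ch δ').symm]
          exact M.cjB (h.oc hk) (h'.oc hk) dd
        · exact absurd rfl d.ne
      · simp only [rho_new, rho_old hα _ hy.1]
        exact M.cjA (h.oc hk) (h'.oc hk) hy.1 dd hy.2.2.symm (hy'.old hα hy.1).2.symm i
    · have k1 := (hx'.old hα hx.1).2
      rcases hy with ⟨j, rfl⟩ | hy
      · simp only [rho_new, rho_old hα _ hx.1]
        rw [M.sym hx.1 (h.oc hk _) (hx.2.2.appr _), M.sym hx.1 (h'.oc hk _) (k1.appr _)]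
        exact M.cjA (h.oc hk) (h'.oc hk) hx.1 dd hx.2.2.symm k1.symm j
      · simp only [rho_old hα _ hx.1, rho_old hα _ hy.1]
        exact M.cjo (h.o hk) (h'.o hk) hx.1 hy.1 dd d hx.2.2.symm hy.2.2.symm k1.symm
          (hy'.old hα hy.1).2.symm
  · exact M.com oa (h'.o hk) (hx.o hk hα h) (hy.o hk hα h) d2 (hx.dj M hk hα h hy d)
      (hx.da hk hα h) (hy.da hk hα h) (hx'.dd hα dd) (hy'.dd hα dd)

lemma indep_g (M : MF P π k t g) (hk : 64 ≤ k) (hα : idx α = k) {p : ℕ} (hp : P p)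
    {δ δ' x : Ad} (h : Cd α δ) (h' : Cd α δ') (hx : Ok k α δ x) (hx' : Ok k α δ' x) :
    t α δ * g p (rho α δ x) * t α δ = t α δ' * g p (rho α δ' x) * t α δ' := by
  by_cases e : δ = δ'
  · rw [e]
  have dd := h.dd hk hα h' e
  have oa : idx α < 2 * k := by omega
  have d1 := h.dj hk hα
  have d2 := h'.dj hk hα
  refine indep_aux (r := t δ δ') (M.sq oa (h.o hk) d1) (M.sq (h.o hk) (h'.o hk) dd)
    (M.tri oa (h.o hk) (h'.o hk) d1 d2 dd) ?_ ?_ ?_
  · rw [M.sym oa (h.o hk) d1, M.sym oa (h'.o hk) d2]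
    exact M.tri' (h.o hk) (h'.o hk) oa dd d1.symm d2.symm
  · rcases hx with ⟨i, rfl⟩ | hx
    · simp only [rho_new]
      exact M.gjA hp (h.oc hk) (h'.oc hk) dd i
    · simp only [rho_old hα _ hx.1]
      exact conj_of_com (M.g2 hp hx.1 (h.o hk) (h'.o hk) hx.2.2 (hx'.old hα hx.1).2 dd)
        (M.sq (h.o hk) (h'.o hk) dd)
  · exact M.g2 hp (hx.o hk hα h) oa (h'.o hk) (hx.da hk hα h).symm (hx'.dd hα dd).symm d2

open Classical in
noncomputable def dl (k : ℕ) (α x y : Ad) : Ad :=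
  if h : ∃ δ, Cd α δ ∧ Ok k α δ x ∧ Ok k α δ y then h.choose else []

lemma dl_spec {δ x y : Ad} (h : Cd α δ) (hx : Ok k α δ x) (hy : Ok k α δ y) :
    Cd α (dl k α x y) ∧ Ok k α (dl k α x y) x ∧ Ok k α (dl k α x y) y := by
  have h : ∃ δ, Cd α δ ∧ Ok k α δ x ∧ Ok k α δ y := ⟨δ, h, hx, hy⟩
  simp only [dl, dif_pos h]
  exact h.choose_spec

noncomputable def tE (k : ℕ) (α : Ad) (t : Ad → Ad → H) (x y : Ad) : H :=
  if idx x < 2 * k ∧ idx y < 2 * k then t x y else
    t α (dl k α x y) * t (rho α (dl k α x y) x) (rho α (dl k α x y) y) * t α (dl k α x y)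

noncomputable def gE (k : ℕ) (α : Ad) (t : Ad → Ad → H) (g : ℕ → Ad → H) (p : ℕ) (x : Ad) : H :=
  if p = 2 then 1 else if idx x < 2 * k then g p x else
    t α (dl k α x x) * g p (rho α (dl k α x x) x) * t α (dl k α x x)

lemma tE_old {x y : Ad} (hx : idx x < 2 * k) (hy : idx y < 2 * k) : tE k α t x y = t x y :=
  if_pos ⟨hx, hy⟩

lemma gE_old (M : MF P π k t g) {p : ℕ} {x : Ad} (hx : idx x < 2 * k) :
    gE k α t g p x = g p x := by
  unfold gE
  split_ifs with h
  · rw [h, M.gtwo]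
  · rfl

lemma tE_eq (M : MF P π k t g) (hk : 64 ≤ k) (hα : idx α = k) {δ x y : Ad} (h : Cd α δ)
    (hx : Ok k α δ x) (hy : Ok k α δ y) (d : Dj x y) :
    tE k α t x y = t α δ * t (rho α δ x) (rho α δ y) * t α δ := by
  unfold tE
  split_ifs with c
  · rw [rho_old hα _ c.1, rho_old hα _ c.2]
    exact (M.cjo (by omega) (h.o hk) c.1 c.2 (h.dj hk hα) d (hx.old hα c.1).1.symm
      (hy.old hα c.2).1.symm (hx.old hα c.1).2.symm (hy.old hα c.2).2.symm).symm
  · obtain ⟨k1, k2, k3⟩ := dl_spec h hx hy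
    exact indep_t M hk hα k1 h k2 k3 hx hy d

lemma gE_eq (M : MF P π k t g) (hk : 64 ≤ k) (hα : idx α = k) {p : ℕ} (hp : P p) {δ x : Ad}
    (h : Cd α δ) (hx : Ok k α δ x) : gE k α t g p x = t α δ * g p (rho α δ x) * t α δ := by
  have oa : idx α < 2 * k := by omega
  unfold gE
  split_ifs with c0 c
  · rw [c0, M.gtwo, mul_one, M.sq oa (h.o hk) (h.dj hk hα)]
  · rw [rho_old hα _ c]
    exact (conj_of_com (M.g2 hp c oa (h.o hk) (hx.old hα c).1 (hx.old hα c).2 (h.dj hk hα))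
      (M.sq oa (h.o hk) (h.dj hk hα))).symm
  · obtain ⟨k1, k2, _⟩ := dl_spec h hx hx
    exact indep_g M hk hα hp k1 h k2 hx

lemma old_or_new (hα : idx α = k) (hk : 64 ≤ k) {x : Ad} (hx : idx x < 2 * (k + 1)) :
    idx x < 2 * k ∨ ∃ b, x = α ++ [b] := by
  by_cases h : idx x < 2 * k
  · exact Or.inl h
  · right
    by_cases h' : idx x = 2 * k
    · exact ⟨false, idx_inj (by rw [idx_ch]; simp; omega)⟩
    · exact ⟨true, idx_inj (by rw [idx_ch]; simp; omega)⟩

lemma dj_alpha (hα : idx α = k) {x : Ad} {b : Bool} (hx : idx x < 2 * k) (d : Dj x (α ++ [b])) :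
    Dj x α := by
  by_contra h
  rcases cmp h with ⟨u, e⟩ | ⟨u, e⟩
  · rw [e, List.append_assoc] at d
    exact not_dj_app _ _ d
  · cases u with
    | nil => rw [e, List.append_nil] at d; exact not_dj_app _ _ d
    | cons i u =>
      have := idx_mono (α ++ [i]) u
      rw [idx_ch, List.append_assoc, List.singleton_append, ← e] at this
      omega

def Gd (k : ℕ) (α x : Ad) : Prop := (∃ b, x = α ++ [b]) ∨ (idx x < 2 * k ∧ Dj x α)

lemma ex_cd (hk : 64 ≤ k) (hα : idx α = k) {x y z w : Ad} (hx : Gd k α x) (hy : Gd k α y)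
    (hz : Gd k α z) (hw : Gd k α w) :
    ∃ δ, Cd α δ ∧ Ok k α δ x ∧ Ok k α δ y ∧ Ok k α δ z ∧ Ok k α δ w := by
  have hl := len_ge hk hα
  have key : ∀ e, Gd k α e → ∃ m : ℕ, ∀ i < 5, i ≠ m → Ok k α (sib α i) e := by
    intro e he
    rcases he with he | he
    · exact ⟨0, fun i _ _ => Or.inl he⟩
    · by_cases h : ∃ i < 5, ¬ Dj e (sib α i)
      · obtain ⟨i, hi, h⟩ := h
        refine ⟨i, fun j hj hne => Or.inr ⟨he.1, he.2, ?_⟩⟩
        obtain ⟨u, rfl⟩ := sib_blk he.2 h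
        exact (sib_sib (by omega) (by omega) hne.symm).appl u
      · push Not at h
        exact ⟨0, fun i hi _ => Or.inr ⟨he.1, he.2, h i hi⟩⟩
  obtain ⟨m1, h1⟩ := key x hx
  obtain ⟨m2, h2⟩ := key y hy
  obtain ⟨m3, h3⟩ := key z hz
  obtain ⟨m4, h4⟩ := key w hw
  have : ∃ i < 5, i ≠ m1 ∧ i ≠ m2 ∧ i ≠ m3 ∧ i ≠ m4 := by
    by_contra hc
    push Not at hc
    have a0 := hc 0 (by omega)
    have a1 := hc 1 (by omega)
    have a2 := hc 2 (by omega)
    have a3 := hc 3 (by omega)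
    have a4 := hc 4 (by omega)
    omega
  obtain ⟨i, hi, i1, i2, i3, i4⟩ := this
  exact ⟨_, ⟨i, hi, rfl⟩, h1 i hi i1, h2 i hi i2, h3 i hi i3, h4 i hi i4⟩

lemma setup (hk : 64 ≤ k) (hα : idx α = k) {x y z w : Ad} (ox : idx x < 2 * (k + 1))
    (oy : idx y < 2 * (k + 1)) (oz : idx z < 2 * (k + 1)) (ow : idx w < 2 * (k + 1))
    (xy : x = y ∨ Dj x y) (xz : x = z ∨ Dj x z) (xw : x = w ∨ Dj x w) (yz : y = z ∨ Dj y z)
    (yw : y = w ∨ Dj y w) (zw : z = w ∨ Dj z w) :
    (idx x < 2 * k ∧ idx y < 2 * k ∧ idx z < 2 * k ∧ idx w < 2 * k) ∨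
      ∃ δ, Cd α δ ∧ Ok k α δ x ∧ Ok k α δ y ∧ Ok k α δ z ∧ Ok k α δ w := by
  have sy : ∀ {a b : Ad}, a = b ∨ Dj a b → b = a ∨ Dj b a := fun h => h.imp Eq.symm Dj.symm
  have key : ∀ {a n : Ad}, idx a < 2 * (k + 1) → (∃ b, n = α ++ [b]) → (a = n ∨ Dj a n) →
      Gd k α a := by
    intro a n oa hn h
    rcases old_or_new hα hk oa with c | c
    · obtain ⟨b, rfl⟩ := hn
      rcases h with rfl | h
      · exact Or.inl ⟨b, rfl⟩
      · exact Or.inr ⟨c, dj_alpha hα c h⟩
    · exact Or.inl c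
  rcases old_or_new hα hk ox with c1 | c1
  · rcases old_or_new hα hk oy with c2 | c2
    · rcases old_or_new hα hk oz with c3 | c3
      · rcases old_or_new hα hk ow with c4 | c4
        · exact Or.inl ⟨c1, c2, c3, c4⟩
        · exact Or.inr (ex_cd hk hα (key ox c4 xw) (key oy c4 yw) (key oz c4 zw) (Or.inl c4))
      · exact Or.inr (ex_cd hk hα (key ox c3 xz) (key oy c3 yz) (Or.inl c3) (key ow c3 (sy zw)))
    · exact Or.inr (ex_cd hk hα (key ox c2 xy) (Or.inl c2) (key oz c2 (sy yz)) (key ow c2 (sy yw)))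
  · exact Or.inr (ex_cd hk hα (Or.inl c1) (key oy c1 (sy xy)) (key oz c1 (sy xz)) (key ow c1 (sy xw)))

lemma cmul {G : Type} [Group G] {s : G} (hs : s * s = 1) (x y : G) :
    s * x * s * (s * y * s) = s * (x * y) * s := by
  calc s * x * s * (s * y * s) = s * x * (s * s) * y * s := by group
    _ = _ := by rw [hs]; group

lemma ext_sym (M : MF P π k t g) (hk : 64 ≤ k) (hα : idx α = k) {a b : Ad}
    (oa : idx a < 2 * (k + 1)) (ob : idx b < 2 * (k + 1)) (d : Dj a b) :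
    tE k α t a b = tE k α t b a := by
  rcases setup hk hα oa ob ob ob (.inr d) (.inr d) (.inr d) (.inl rfl) (.inl rfl) (.inl rfl) with
    ⟨c1, c2, -⟩ | ⟨δ, h, k1, k2, -⟩
  · rw [tE_old c1 c2, tE_old c2 c1, M.sym c1 c2 d]
  · rw [tE_eq M hk hα h k1 k2 d, tE_eq M hk hα h k2 k1 d.symm,
      M.sym (k1.o hk hα h) (k2.o hk hα h) (k1.dj M hk hα h k2 d)]

lemma ext_spl (M : MF P π k t g) (hk : 64 ≤ k) (hα : idx α = k) {b : Ad}
    (ob : ∀ i, idx (b ++ [i]) < 2 * (k + 1)) (d : Dj α b) :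
    tE k α t α b =
      tE k α t (α ++ [false]) (b ++ [false]) * tE k α t (α ++ [true]) (b ++ [true]) := by
  have oc : ∀ i, idx (b ++ [i]) < 2 * k := fun i => by
    rcases old_or_new hα hk (ob i) with c | ⟨j, c⟩
    · exact c
    · exact absurd (List.append_inj' c rfl).1.symm d.ne
  have o : idx b < 2 * k := lt_of_le_of_lt (idx_mono b _) (oc false)
  have oa : idx α < 2 * k := by omega
  have gb : Gd k α b := Or.inr ⟨o, d.symm⟩
  obtain ⟨δ, h, k1, -⟩ := ex_cd hk hα gb gb gb gb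
  have k2 := (k1.old hα o).2
  have k3 : ∀ i, Ok k α δ (b ++ [i]) := fun i => Or.inr ⟨oc i, d.symm.appl _, k2.appl _⟩
  rw [tE_old oa o, tE_eq M hk hα h (Or.inl ⟨_, rfl⟩) (k3 _) (d.app _ _),
    tE_eq M hk hα h (Or.inl ⟨_, rfl⟩) (k3 _) (d.app _ _), cmul (M.sq oa (h.o hk) (h.dj hk hα)),
    rho_new, rho_new, rho_old hα _ (oc _), rho_old hα _ (oc _), ← M.spl (h.oc hk) oc k2.symm,
    M.tri oa (h.o hk) o (h.dj hk hα) d k2.symm]

lemma MF.ext (M : MF P π k t g) (hk : 64 ≤ k) (hα : idx α = k) :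
    MF P π (k + 1) (tE k α t) (gE k α t g) := by
  have oα : idx α < 2 * k := by omega
  have sq : ∀ {δ}, Cd α δ → t α δ * t α δ = 1 := fun h => M.sq oα (h.o hk) (h.dj hk hα)
  have iv : ∀ {δ}, Cd α δ → (π (t α δ))⁻¹ = π (t α δ) := fun h => by
    rw [← map_inv, inv_eq_of_mul_eq_one_right (sq h)]
  refine ⟨fun {a b} oa ob d => ?_, fun {p} hp {a} oa => ?_, fun {a b} oa ob d => ?_,
    ext_sym M hk hα, fun {a b c d} oa ob oc od ab cd ac ad bc bd => ?_,
    fun {a b c} oa ob oc ab ac bc => ?_, fun {a b} oa ob d => ?_, fun {p a b} hp oa ob d => ?_,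
    fun {p a b c} hp oa ob oc ab ac bc => ?_, fun {p q a b} hp hq oa ob d => ?_,
    fun a => if_pos rfl⟩
  · rcases setup hk hα oa ob ob ob (.inr d) (.inr d) (.inr d) (.inl rfl) (.inl rfl) (.inl rfl) with
      ⟨c1, c2, -⟩ | ⟨δ, h, k1, k2, -⟩
    · rw [tE_old c1 c2]; exact M.ts c1 c2 d
    · have := (M.ts (k1.o hk hα h) (k2.o hk hα h) (k1.dj M hk hα h k2 d)).conj
        (k1.mp M hk hα h) (k2.mp M hk hα h)
      rw [iv h] at this
      rwa [tE_eq M hk hα h k1 k2 d, map_mul, map_mul]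
  · rcases setup hk hα oa oa oa oa (.inl rfl) (.inl rfl) (.inl rfl) (.inl rfl) (.inl rfl)
      (.inl rfl) with ⟨c1, -⟩ | ⟨δ, h, k1, -⟩
    · rw [gE_old M c1]; exact M.gs hp c1
    · have := (M.gs hp (k1.o hk hα h)).conj (k1.mp M hk hα h)
      rw [iv h] at this
      rwa [gE_eq M hk hα hp h k1, map_mul, map_mul]
  · rcases setup hk hα oa ob ob ob (.inr d) (.inr d) (.inr d) (.inl rfl) (.inl rfl) (.inl rfl) with
      ⟨c1, c2, -⟩ | ⟨δ, h, k1, k2, -⟩
    · rw [tE_old c1 c2]; exact M.sq c1 c2 d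
    · rw [tE_eq M hk hα h k1 k2 d, cmul (sq h),
        M.sq (k1.o hk hα h) (k2.o hk hα h) (k1.dj M hk hα h k2 d), mul_one, sq h]
  · rcases setup hk hα oa ob oc od (.inr ab) (.inr ac) (.inr ad) (.inr bc) (.inr bd) (.inr cd) with
      ⟨c1, c2, c3, c4⟩ | ⟨δ, h, k1, k2, k3, k4⟩
    · rw [tE_old c1 c2, tE_old c3 c4]; exact M.com c1 c2 c3 c4 ab cd ac ad bc bd
    · rw [tE_eq M hk hα h k1 k2 ab, tE_eq M hk hα h k3 k4 cd, cmul (sq h), cmul (sq h),
        M.com (k1.o hk hα h) (k2.o hk hα h) (k3.o hk hα h) (k4.o hk hα h) (k1.dj M hk hα h k2 ab)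
          (k3.dj M hk hα h k4 cd) (k1.dj M hk hα h k3 ac) (k1.dj M hk hα h k4 ad)
          (k2.dj M hk hα h k3 bc) (k2.dj M hk hα h k4 bd)]
  · rcases setup hk hα oa ob oc oc (.inr ab) (.inr ac) (.inr ac) (.inr bc) (.inr bc) (.inl rfl) with
      ⟨c1, c2, c3, -⟩ | ⟨δ, h, k1, k2, k3, -⟩
    · rw [tE_old c1 c2, tE_old c2 c3, tE_old c1 c3]; exact M.tri c1 c2 c3 ab ac bc
    · rw [tE_eq M hk hα h k1 k2 ab, tE_eq M hk hα h k2 k3 bc, tE_eq M hk hα h k1 k3 ac,
        cmul (sq h), cmul (sq h),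
        M.tri (k1.o hk hα h) (k2.o hk hα h) (k3.o hk hα h) (k1.dj M hk hα h k2 ab)
          (k1.dj M hk hα h k3 ac) (k2.dj M hk hα h k3 bc)]
  · by_cases e1 : a = α
    · subst e1; exact ext_spl M hk hα ob d
    · by_cases e2 : b = α
      · subst e2
        have oa' : idx a < 2 * (k + 1) := lt_of_le_of_lt (idx_mono a _) (oa false)
        rw [ext_sym M hk hα oa' (by omega) d, ext_sym M hk hα (oa _) (ob _) (d.app _ _),
          ext_sym M hk hα (oa true) (ob _) (d.app _ _)]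
        exact ext_spl M hk hα oa d.symm
      · have key : ∀ c : Ad, c ≠ α → (∀ i, idx (c ++ [i]) < 2 * (k + 1)) →
            ∀ i, idx (c ++ [i]) < 2 * k := fun c hc h i => by
          rcases old_or_new hα hk (h i) with c | ⟨j, c⟩
          · exact c
          · exact absurd (List.append_inj' c rfl).1 hc
        have k1 := key a e1 oa
        have k2 := key b e2 ob
        rw [tE_old (lt_of_le_of_lt (idx_mono a _) (k1 false))
          (lt_of_le_of_lt (idx_mono b _) (k2 false)), tE_old (k1 _) (k2 _), tE_old (k1 _) (k2 _)]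
        exact M.spl k1 k2 d
  · rcases setup hk hα oa ob ob ob (.inr d) (.inr d) (.inr d) (.inl rfl) (.inl rfl) (.inl rfl) with
      ⟨c1, c2, -⟩ | ⟨δ, h, k1, k2, -⟩
    · rw [tE_old c1 c2, gE_old M c1, gE_old M c2]; exact M.g1 hp c1 c2 d
    · rw [tE_eq M hk hα h k1 k2 d, gE_eq M hk hα hp h k1, gE_eq M hk hα hp h k2, cmul (sq h),
        cmul (sq h), M.g1 hp (k1.o hk hα h) (k2.o hk hα h) (k1.dj M hk hα h k2 d)]
  · rcases setup hk hα oa ob oc oc (.inr ab) (.inr ac) (.inr ac) (.inr bc) (.inr bc) (.inl rfl) with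
      ⟨c1, c2, c3, -⟩ | ⟨δ, h, k1, k2, k3, -⟩
    · rw [tE_old c2 c3, gE_old M c1]; exact M.g2 hp c1 c2 c3 ab ac bc
    · rw [tE_eq M hk hα h k2 k3 bc, gE_eq M hk hα hp h k1, cmul (sq h), cmul (sq h),
        M.g2 hp (k1.o hk hα h) (k2.o hk hα h) (k3.o hk hα h) (k1.dj M hk hα h k2 ab)
          (k1.dj M hk hα h k3 ac) (k2.dj M hk hα h k3 bc)]
  · rcases setup hk hα oa ob ob ob (.inr d) (.inr d) (.inr d) (.inl rfl) (.inl rfl) (.inl rfl) with
      ⟨c1, c2, -⟩ | ⟨δ, h, k1, k2, -⟩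
    · rw [gE_old M c1, gE_old M c2]; exact M.g3 hp hq c1 c2 d
    · rw [gE_eq M hk hα hp h k1, gE_eq M hk hα hq h k2, cmul (sq h), cmul (sq h),
        M.g3 hp hq (k1.o hk hα h) (k2.o hk hα h) (k1.dj M hk hα h k2 d)]

end ext

theorem MF.limit {P : ℕ → Prop} {π : H →* Perm ℤ} {t : Ad → Ad → H} {g : ℕ → Ad → H}
    (M : MF P π 64 t g) : ∃ t' g', MI P π t' g' ∧
      (∀ a b, idx a < 128 → idx b < 128 → t' a b = t a b) ∧ ∀ p a, idx a < 128 → g' p a = g p a := by
  have step : ∀ n (D : {D : (Ad → Ad → H) × (ℕ → Ad → H) // MF P π (64 + n) D.1 D.2}),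
      ∃ D' : {D : (Ad → Ad → H) × (ℕ → Ad → H) // MF P π (64 + (n + 1)) D.1 D.2},
        (∀ a b, idx a < 2 * (64 + n) → idx b < 2 * (64 + n) → D'.1.1 a b = D.1.1 a b) ∧
          ∀ p a, idx a < 2 * (64 + n) → D'.1.2 p a = D.1.2 p a := by
    intro n D
    obtain ⟨α, hα⟩ := idx_surj (64 + n) (by omega)
    exact ⟨⟨(_, _), D.2.ext (by omega) hα⟩, fun a b ha hb => tE_old ha hb,
      fun p a ha => gE_old D.2 ha⟩
  choose F hF using step
  let S : ∀ n, {D : (Ad → Ad → H) × (ℕ → Ad → H) // MF P π (64 + n) D.1 D.2} :=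
    fun n => Nat.rec ⟨(t, g), M⟩ F n
  have hS : ∀ n, S (n + 1) = F n (S n) := fun n => rfl
  have st : ∀ n m, n ≤ m → (∀ a b, idx a < 2 * (64 + n) → idx b < 2 * (64 + n) →
      (S m).1.1 a b = (S n).1.1 a b) ∧ ∀ p a, idx a < 2 * (64 + n) → (S m).1.2 p a = (S n).1.2 p a := by
    intro n m h
    induction m, h using Nat.le_induction with
    | base => exact ⟨fun _ _ _ _ => rfl, fun _ _ _ => rfl⟩
    | succ m h ih =>
      rw [hS]
      exact ⟨fun a b ha hb => by rw [(hF m _).1 a b (by omega) (by omega), ih.1 a b ha hb],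
        fun p a ha => by rw [(hF m _).2 p a (by omega), ih.2 p a ha]⟩
  let t' : Ad → Ad → H := fun a b => (S (idx a + idx b)).1.1 a b
  let g' : ℕ → Ad → H := fun p a => (S (idx a)).1.2 p a
  have ht : ∀ n a b, idx a < 2 * (64 + n) → idx b < 2 * (64 + n) → t' a b = (S n).1.1 a b := by
    intro n a b ha hb
    rw [← (st n (n + (idx a + idx b)) (by omega)).1 a b ha hb]
    exact ((st _ _ (by omega)).1 a b (by omega) (by omega)).symm
  have hg : ∀ n p a, idx a < 2 * (64 + n) → g' p a = (S n).1.2 p a := by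
    intro n p a ha
    rw [← (st n (n + idx a) (by omega)).2 p a ha]
    exact ((st _ _ (by omega)).2 p a (by omega)).symm
  refine ⟨t', g', ⟨fun {a b} d => ?_, fun {p} hp a => ?_, fun {a b} d => ?_, fun {a b} d => ?_,
    fun {a b c d} ab cd ac ad bc bd => ?_, fun {a b c} ab ac bc => ?_, fun {a b} d => ?_,
    fun {p a b} hp d => ?_, fun {p a b c} hp ab ac bc => ?_, fun {p q a b} hp hq d => ?_,
    fun a => (S _).2.gtwo a⟩, fun a b ha hb => ht 0 a b ha hb, fun p a ha => hg 0 p a ha⟩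
  · exact (S _).2.ts (by omega) (by omega) d
  · exact (S _).2.gs hp (by omega)
  · exact (S _).2.sq (by omega) (by omega) d
  · rw [ht (idx a + idx b) b a (by omega) (by omega)]
    exact (S _).2.sym (by omega) (by omega) d
  · rw [ht (idx a + idx b + idx c + idx d) a b (by omega) (by omega),
      ht (idx a + idx b + idx c + idx d) c d (by omega) (by omega)]
    exact (S _).2.com (by omega) (by omega) (by omega) (by omega) ab cd ac ad bc bd
  · rw [ht (idx a + idx b + idx c) a b (by omega) (by omega),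
      ht (idx a + idx b + idx c) b c (by omega) (by omega),
      ht (idx a + idx b + idx c) a c (by omega) (by omega)]
    exact (S _).2.tri (by omega) (by omega) (by omega) ab ac bc
  · have k : ∀ c : Ad, idx c ≤ idx a + idx b → ∀ i, idx (c ++ [i]) < 2 * (64 + (idx a + idx b)) :=
      fun c hc i => by have := Bool.toNat_le i; rw [idx_ch]; omega
    rw [ht (idx a + idx b) a b (by omega) (by omega),
      ht (idx a + idx b) _ _ (k a (by omega) false) (k b (by omega) false),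
      ht (idx a + idx b) _ _ (k a (by omega) true) (k b (by omega) true)]
    exact (S _).2.spl (k a (by omega)) (k b (by omega)) d
  · rw [ht (idx a + idx b) a b (by omega) (by omega), hg (idx a + idx b) p a (by omega),
      hg (idx a + idx b) p b (by omega)]
    exact (S _).2.g1 hp (by omega) (by omega) d
  · rw [ht (idx a + idx b + idx c) b c (by omega) (by omega),
      hg (idx a + idx b + idx c) p a (by omega)]
    exact (S _).2.g2 hp (by omega) (by omega) (by omega) ab ac bc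
  · rw [hg (idx a + idx b) p a (by omega), hg (idx a + idx b) q b (by omega)]
    exact (S _).2.g3 hp hq (by omega) (by omega) d

end Pool.Agent.H.MP_02e21a_al
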