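import Pool.Agent.H.MP_02e21a_al.F

set_option autoImplicit false

namespace Pool.Agent.H.MP_02e21a_al

open Equiv

variable {H : Type} [Group H]
variable {P : ℕ → Prop} {π : H →* Perm ℤ} {t : Ad → Ad → H} {g : ℕ → Ad → H}

def Cov (A : Set Ad) : Prop := ∀ n : ℤ, ∃ a ∈ A, ∃ k, n = cone a k

lemma mp_nil {σ : Perm ℤ} {a : Ad} (h : Mp σ [] a) : a = [] := by
  cases a with
  | nil => rfl
  | cons i u =>
    exfalso
    have h0 := h (σ⁻¹ 0)
    have h1 := h (σ⁻¹ 1)
    simp only [cone_nil, cone_cons, Perm.coe_inv, apply_symm_apply] at h0 h1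
    split_ifs at h0 h1 <;> omega

lemma ex_sib {A : Finset Ad} (hA : AC (A : Set Ad)) (hc : Cov (A : Set Ad)) (h0 : [] ∉ A) :
    ∃ c, ∀ i, c ++ [i] ∈ A := by
  obtain ⟨a0, ha0, _⟩ := hc 0
  obtain ⟨a, ha, hmax⟩ := Finset.exists_max_image A List.length ⟨a0, ha0⟩
  rcases List.eq_nil_or_concat a with rfl | ⟨c, j, rfl⟩
  · exact absurd ha h0
  rw [List.concat_eq_append] at ha hmax
  refine ⟨c, fun i => ?_⟩
  obtain ⟨b, hb, k, e⟩ := hc (cone (c ++ [i]) 0)
  obtain ⟨u, hu⟩ := cmp_len (a := b) (b := c ++ [i]) (fun d => d k 0 e.symm)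
    (by have := hmax b hb; simpa using this)
  by_cases h : u = []
  · rw [hu, h, List.append_nil]; exact hb
  · obtain ⟨v, rfl⟩ := pre_concat h hu
    have := hA b hb _ ha (fun e => by
      have := congrArg List.length e
      simp at this)
    rw [List.append_assoc] at this
    exact absurd this (not_dj_app _ _)

lemma vfull_aux (M : MI P π t g) (n : ℕ) : ∀ A : Finset Ad, A.card = n → AC (A : Set Ad) →
    Cov (A : Set Ad) → ∀ σ : Perm ℤ, (∀ a ∈ A, ∃ a', Mp σ a a') →
      ∃ v, Wd t Set.univ v ∧ π v = σ := by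
  classical
  induction n using Nat.strong_induction_on with
  | _ n ih =>
  intro A hn hA hc σ hσ
  by_cases h0 : [] ∈ A
  · obtain ⟨a', m⟩ := hσ _ h0
    rw [mp_nil m] at m
    exact ⟨1, Wd.one, by rw [map_one]; ext k; exact (m k).symm⟩
  obtain ⟨a, ha⟩ := ex_sib hA hc h0
  choose! φ hφ using hσ
  have hB : AC ((A.image φ : Finset Ad) : Set Ad) := by
    intro x hx y hy hxy
    obtain ⟨b, hb, rfl⟩ := Finset.mem_image.1 hx
    obtain ⟨c, hc, rfl⟩ := Finset.mem_image.1 hy
    exact (hφ b hb).dj (hφ c hc) (hA b hb c hc fun e => hxy (by rw [e]))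
  have hcB : Cov ((A.image φ : Finset Ad) : Set Ad) := by
    intro n
    obtain ⟨b, hb, k, e⟩ := hc (σ⁻¹ n)
    exact ⟨φ b, Finset.mem_image_of_mem φ hb, k, by rw [← hφ b hb, ← e]; simp⟩
  have h0B : [] ∉ A.image φ := by
    intro h
    obtain ⟨b, hb, e⟩ := Finset.mem_image.1 h
    have := hφ b hb
    rw [e] at this
    exact h0 (mp_nil this.inv ▸ hb)
  obtain ⟨c, hcc⟩ := ex_sib hB hcB h0B
  have mem : ∀ b ∈ A, φ b ∈ ((A.image φ : Finset Ad) : Set Ad) := fun b hb =>
    Finset.mem_image_of_mem φ hb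
  obtain ⟨s1, w1, m1, -⟩ := M.mv hB (mem _ (ha false)) (hcc false)
  obtain ⟨b1, hb1, n1⟩ := w1.perm M hB _ (mem _ (ha true))
  obtain ⟨s2, w2, m2, f2⟩ := M.mv hB hb1 (hcc true)
  have k0 : Mp (π s1 * σ) (a ++ [false]) (c ++ [false]) := m1.mul (hφ _ (ha false))
  have k1 : Mp (π s1 * σ) (a ++ [true]) b1 := n1.mul (hφ _ (ha true))
  have k2 : Mp (π s2 * (π s1 * σ)) a c := by
    refine Mp.of_ch fun i => ?_
    cases i
    · exact (f2 _ (hcc false) (k0.dj k1 (dj_ch a)).ne (dj_ch c).ne).mul k0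
    · exact m2.mul k1
  have aA : a ∉ A := fun h => not_dj_app _ _ (hA a h _ (ha false) (by simp))
  have e01 : a ++ [true] ≠ a ++ [false] := by simp
  have hlt : n - 1 < n := by have := Finset.card_pos.2 ⟨_, ha false⟩; omega
  have key := ih (n - 1) hlt
    (insert a ((A.erase (a ++ [false])).erase (a ++ [true]))) ?_ ?_ ?_ (π s2 * (π s1 * σ)) ?_
  · obtain ⟨v, hv, e⟩ := key
    refine ⟨s1⁻¹ * (s2⁻¹ * v), (w1.univ.inv M).mul' ((w2.univ.inv M).mul' hv), ?_⟩
    rw [map_mul, map_mul, e, map_inv, map_inv]; group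
  · have h1 : a ++ [true] ∈ A.erase (a ++ [false]) := Finset.mem_erase.2 ⟨e01, ha true⟩
    have := Finset.card_pos.2 ⟨_, h1⟩
    rw [Finset.card_insert_of_notMem (by simp [aA]), Finset.card_erase_of_mem h1]
    rw [Finset.card_erase_of_mem (ha false)] at this ⊢
    omega
  · have key : ∀ b ∈ (A.erase (a ++ [false])).erase (a ++ [true]), Dj a b := by
      intro b hb
      simp only [Finset.mem_erase] at hb
      intro k l e
      obtain ⟨i, k', e'⟩ := cone_split a k
      refine hA _ (ha i) b hb.2.2 ?_ k' l (e'.symm.trans e)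
      cases i
      · exact fun e => hb.2.1 e.symm
      · exact fun e => hb.1 e.symm
    intro x hx y hy hxy
    simp only [Finset.coe_insert, Set.mem_insert_iff, Finset.mem_coe] at hx hy
    rcases hx with rfl | hx
    · rcases hy with rfl | hy
      · exact absurd rfl hxy
      · exact key y hy
    · rcases hy with rfl | hy
      · exact (key x hx).symm
      · exact hA x (Finset.mem_of_mem_erase (Finset.mem_of_mem_erase hx)) y
          (Finset.mem_of_mem_erase (Finset.mem_of_mem_erase hy)) hxy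
  · intro n
    obtain ⟨b, hb, k, rfl⟩ := hc n
    by_cases e0 : b = a ++ [false]
    · exact ⟨a, by simp, _, by rw [e0, cone_append]⟩
    · by_cases e1 : b = a ++ [true]
      · exact ⟨a, by simp, _, by rw [e1, cone_append]⟩
      · exact ⟨b, by simp [e0, e1, Finset.mem_coe.1 hb], k, rfl⟩
  · intro b hb
    rcases Finset.mem_insert.1 hb with rfl | hb
    · exact ⟨c, k2⟩
    · have hb' := Finset.mem_of_mem_erase (Finset.mem_of_mem_erase hb)
      obtain ⟨x, hx, p1⟩ := w1.perm M hB _ (mem b hb')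
      obtain ⟨y, _, p2⟩ := w2.perm M hB _ hx
      exact ⟨y, p2.mul (p1.mul (hφ b hb'))⟩

lemma vfull (M : MI P π t g) {σ : Perm ℤ} {d : ℕ} (h : ∀ a : Ad, a.length = d → ∃ a', Mp σ a a') :
    ∃ v, Wd t Set.univ v ∧ π v = σ := by
  have hf := List.finite_length_eq Bool d
  refine vfull_aux M _ hf.toFinset rfl ?_ ?_ σ fun a ha => h a (by simpa using ha)
  · intro a ha b hb hab
    simp only [Set.Finite.coe_toFinset, Set.mem_setOf_eq] at ha hb
    by_contra hd
    obtain ⟨u, rfl⟩ := cmp_len hd (by omega)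
    rw [List.length_append] at hb
    exact hab (by simp [List.length_eq_zero_iff.1 (by omega : u.length = 0)])
  · intro n
    obtain ⟨u, hu, l, e⟩ := cone_deep d n
    exact ⟨u, by simpa using hu, l, e⟩

lemma lf_pre {n : ℕ} {u : Ad} (h : n ≤ u.length) : ∃ i ≤ n, ∃ v, u = lf n i ++ v := by
  obtain ⟨i, hi, l, e⟩ := lf_cover n (cone u 0)
  exact ⟨i, hi, cmp_len (fun d => d l 0 e.symm) ((lf_len n i).trans h)⟩

lemma g4_sem (M : MI P π t g) {p q : ℕ} (hp : P p) (hq : P q) (p0 : 0 < p) (q0 : 0 < q) (a : Ad) :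
    ∃ w, Wd t Set.univ w ∧ π (D g p (g q) a) = π (w * D g q (g p) a) := by
  obtain ⟨w, hw, e⟩ := vfull M (σ := π (D g p (g q) a) * (π (D g q (g p) a))⁻¹)
    (d := a.length + q + p) fun c hc => by
      by_cases d : Dj a c
      · exact ⟨c, ((D_loc (fun b => Loc.single hq b) hp a).fix M d.symm).mul
          ((D_loc (fun b => Loc.single hp b) hq a).fix M d.symm).inv⟩
      · obtain ⟨u, rfl⟩ := cmp_len d (by omega)
        rw [List.length_append] at hc
        obtain ⟨i', hi', v, rfl⟩ := lf_pre (n := q - 1) (u := u) (by omega)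
        rw [List.length_append] at hc
        obtain ⟨j', hj', v, rfl⟩ := lf_pre (n := p - 1) (u := v)
          (by have := lf_len (q - 1) i'; omega)
        obtain ⟨j, hj, i, hi, h⟩ := idx_swap (i := i') (j := j') (q := q) p0 (by omega) (by omega)
        have := (semW M hp hq a (σ := π (D g p (g q) a) * (π (D g q (g p) a))⁻¹) (by group)
          hj hi (by omega) (by omega) h).app v
        simp only [List.append_assoc] at this ⊢
        exact ⟨_, this⟩
  exact ⟨w, hw, by rw [map_mul π w, e]; group⟩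

lemma G4.move (M : MI P π t g) {p q : ℕ} (hp : P p) (hq : P q) {a b : Ad} (d : Dj a b)
    (h : G4 t g p q a) : G4 t g p q b := by
  have key : ∀ {p q : ℕ}, P p → P q → t a b * D g p (g q) a * (t a b)⁻¹ = D g p (g q) b := by
    intro p q hp hq
    have e1 : t a b * Pr (g q) (ch p a) * (t a b)⁻¹ = Pr (g q) (ch p b) := by
      simp only [Pr, ch, List.map_map]
      exact conj_prod _ fun j _ => by rw [M.tinv d]; exact M.gj1 hq _ d
    have e2 := M.g1 hp d
    rw [D, D, ← e1, ← e2]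
    conv_rhs => enter [2, 2]; rw [← M.tinv d]
    group
  obtain ⟨w, hw, e⟩ := h
  have wt : Wd t Set.univ (t a b) := Wd.single trivial trivial d
  refine ⟨t a b * w * (t a b)⁻¹, (wt.mul' hw).mul' (wt.inv M), ?_⟩
  rw [← key hp hq, ← key hq hp, e]
  group

lemma g4_all (M : MI P π t g) {p q : ℕ} (hp : P p) (hq : P q) (h0 : G4 t g p q [])
    (h1 : G4 t g p q [false]) (a : Ad) : G4 t g p q a := by
  have k : ∀ u, G4 t g p q (true :: u) := fun u => h1.move M hp hq (dj_bool (by simp) _ _)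
  cases a with
  | nil => exact h0
  | cons i u =>
    cases i
    · exact (k []).move M hp hq (dj_bool (by simp) _ _)
    · exact k u

lemma Wd.map {K : Type} [Group K] (f : H →* K) {A : Set Ad} {x : H} (h : Wd t A x) :
    Wd (fun a b => f (t a b)) A (f x) := by
  induction h with
  | one => rw [map_one]; exact Wd.one
  | mul a b x ha hb d _ ih => rw [map_mul]; exact Wd.mul a b _ ha hb d ih

lemma MI.map {K : Type} [Group K] (M : MI P π t g) (f : H →* K) (ρ : K →* Perm ℤ)
    (h : ∀ x, ρ (f x) = π x) : MI P ρ (fun a b => f (t a b)) (fun p a => f (g p a)) := by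
  refine ⟨fun d => ?_, fun hp a => ?_, fun d => ?_, fun d => ?_, fun ab cd ac ad bc bd => ?_,
    fun ab ac bc => ?_, fun d => ?_, fun hp d => ?_, fun hp ab ac bc => ?_, fun hp hq d => ?_,
    fun a => ?_⟩
  · rw [h]; exact M.ts d
  · rw [h]; exact M.gs hp a
  · rw [← map_mul, M.sq d, map_one]
  · rw [M.sym d]
  · rw [← map_mul, ← map_mul, M.com ab cd ac ad bc bd]
  · rw [← map_mul, ← map_mul, M.tri ab ac bc]
  · rw [← map_mul, ← M.spl d]
  · rw [← map_mul, ← map_mul, M.g1 hp d]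
  · rw [← map_mul, ← map_mul, M.g2 hp ab ac bc]
  · rw [← map_mul, ← map_mul, M.g3 hp hq d]
  · rw [M.gtwo, map_one]

lemma D_map {K : Type} [Group K] (f : H →* K) (p q : ℕ) (a : Ad) :
    f (D g p (g q) a) = D (fun p a => f (g p a)) p (fun a => f (g q a)) a := by
  simp only [D, Pr, map_mul, map_list_prod, List.map_map]
  rfl

open Classical in
noncomputable def tau (a b : Ad) : Perm ℤ :=
  if h : Dj a b then (exists_sw (cone_inj a) (cone_inj b) h).choose else 1

lemma tau_ts {a b : Ad} (h : Dj a b) : Ts a b (tau a b) := by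
  simp only [tau, dif_pos h]
  exact (exists_sw (cone_inj a) (cone_inj b) h).choose_spec

noncomputable def gam (p : ℕ) (a : Ad) : Perm ℤ :=
  if h : 0 < p then (exists_gs h a).choose else 1

lemma gam_gs {p : ℕ} (h : 0 < p) (a : Ad) : Gs p a (gam p a) := by
  simp only [gam, dif_pos h]
  exact (exists_gs h a).choose_spec

lemma mi_perm (hP : ∀ p, P p → 0 < p) : MI P (MonoidHom.id (Perm ℤ)) tau gam := by
  have iv : ∀ {a b}, Dj a b → (tau a b)⁻¹ = tau a b := fun d =>
    inv_eq_of_mul_eq_one_right (IsSw.sq (tau_ts d))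
  refine ⟨tau_ts, fun hp a => gam_gs (hP _ hp) a, fun d => IsSw.sq (tau_ts d),
    fun d => IsSw.uniq (tau_ts d) (IsSw.symm (tau_ts d.symm)), fun ab cd ac ad bc bd => ?_,
    fun ab ac bc => ?_, fun d => IsSw.uniq (tau_ts d)
      (Ts.split d (tau_ts (d.app _ _)) (tau_ts (d.app _ _))), fun hp d => ?_,
    fun hp ab ac bc => ?_, fun hp hq d => ?_, fun a => (gam_gs two_pos a).uniq two_pos (gs_two a)⟩
  · have := IsSw.uniq ((tau_ts cd).conj ((tau_ts ab).o ac.symm bc.symm)
      ((tau_ts ab).o ad.symm bd.symm)) (tau_ts cd)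
    exact mul_inv_eq_iff_eq_mul.1 this
  · have := IsSw.uniq ((tau_ts bc).conj (tau_ts ab).r ((tau_ts ab).o ac.symm bc.symm)) (tau_ts ac)
    rwa [iv ab] at this
  · have := ((gam_gs (hP _ hp) _).conj (tau_ts d).l).uniq (hP _ hp) (gam_gs (hP _ hp) _)
    rwa [iv d] at this
  · have := ((gam_gs (hP _ hp) _).conj ((tau_ts bc).o ab ac)).uniq (hP _ hp) (gam_gs (hP _ hp) _)
    exact mul_inv_eq_iff_eq_mul.1 this
  · have := ((gam_gs (hP _ hq) _).conj ((gam_gs (hP _ hp) _).o d.symm)).uniq (hP _ hq)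
      (gam_gs (hP _ hq) _)
    exact mul_inv_eq_iff_eq_mul.1 this

end Pool.Agent.H.MP_02e21a_al
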