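import Pool.Agent.H.MP_02e21a_al.G

set_option autoImplicit false

namespace Pool.Agent.H.MP_02e21a_al

open Equiv

def CTs (P : Finset ℕ) : Set (Perm ℤ) :=
  {σ : Equiv.Perm ℤ | ∃ r₁ m₁ r₂ m₂ : ℤ,
    0 < m₁ ∧ 0 < m₂ ∧ 0 ≤ r₁ ∧ r₁ < m₁ ∧ 0 ≤ r₂ ∧ r₂ < m₂ ∧
    (∀ k : ℤ, ¬ (k % m₁ = r₁ ∧ k % m₂ = r₂)) ∧
    (∀ p ∈ Nat.primeFactors m₁.natAbs, p = 2 ∨ p ∈ P) ∧
    (∀ p ∈ Nat.primeFactors m₂.natAbs, p = 2 ∨ p ∈ P) ∧
    ∀ k : ℤ, σ k =
      if k % m₁ = r₁ then (m₂ * k + m₁ * r₂ - m₂ * r₁) / m₁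
      else if k % m₂ = r₂ then (m₁ * k + m₂ * r₁ - m₁ * r₂) / m₂
      else k}

def Okp (P : Finset ℕ) (p : ℕ) : Prop := p = 2 ∨ p ∈ P

def Good (Q : ℕ → Prop) (a : ℤ → ℤ) : Prop :=
  ∃ r m : ℕ, Sm Q m ∧ r < m ∧ ∀ k, a k = r + m * k

lemma mod_iff {m r k : ℤ} (h0 : 0 ≤ r) (h1 : r < m) : k % m = r ↔ ∃ q, k = r + m * q := by
  constructor
  · rintro rfl
    exact ⟨k / m, (Int.emod_add_mul_ediv k m).symm⟩
  · rintro ⟨q, rfl⟩
    rw [Int.add_mul_emod_self_left]
    exact Int.emod_eq_of_lt h0 h1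

lemma form_eq {m₁ : ℤ} (h : 0 < m₁) (r₁ r₂ m₂ q : ℤ) :
    (m₂ * (r₁ + m₁ * q) + m₁ * r₂ - m₂ * r₁) / m₁ = r₂ + m₂ * q := by
  rw [show m₂ * (r₁ + m₁ * q) + m₁ * r₂ - m₂ * r₁ = m₁ * (r₂ + m₂ * q) by ring]
  exact Int.mul_ediv_cancel_left _ h.ne'

variable {P : Finset ℕ}

lemma sw_good {a b : ℤ → ℤ} (ha : Good (Okp P) a) (hb : Good (Okp P) b) (hd : ∀ k l, a k ≠ b l)
    {σ : Perm ℤ} (h : IsSw a b σ) : σ ∈ CTs P := by
  obtain ⟨r, m, sm, h1, ha⟩ := ha
  obtain ⟨s, n, sn, g1, hb⟩ := hb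
  have h0 : (0 : ℤ) ≤ r := by positivity
  have g0 : (0 : ℤ) ≤ s := by positivity
  have h1' : (r : ℤ) < m := by exact_mod_cast h1
  have g1' : (s : ℤ) < n := by exact_mod_cast g1
  refine ⟨r, m, s, n, by omega, by omega, h0, h1', g0, g1', fun k hk => ?_, fun p hp => ?_,
    fun p hp => ?_, fun k => ?_⟩
  · obtain ⟨q, e⟩ := (mod_iff h0 h1').1 hk.1
    obtain ⟨q', e'⟩ := (mod_iff g0 g1').1 hk.2
    exact hd q q' (by rw [ha, hb, ← e, ← e'])
  · exact sm.2 p (Nat.prime_of_mem_primeFactors hp) (by simpa using Nat.dvd_of_mem_primeFactors hp)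
  · exact sn.2 p (Nat.prime_of_mem_primeFactors hp) (by simpa using Nat.dvd_of_mem_primeFactors hp)
  · split_ifs with c1 c2
    · obtain ⟨q, rfl⟩ := (mod_iff h0 h1').1 c1
      rw [form_eq (by omega), ← ha, h.1, hb]
    · obtain ⟨q, rfl⟩ := (mod_iff g0 g1').1 c2
      rw [form_eq (by omega), ← hb, h.2.1, ha]
    · exact h.2.2 k (fun q e => c1 ((mod_iff h0 h1').2 ⟨q, by rw [e, ha]⟩))
        fun q e => c2 ((mod_iff g0 g1').2 ⟨q, by rw [e, hb]⟩)

lemma ct_sw {σ : Perm ℤ} (h : σ ∈ CTs P) :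
    ∃ a b, Good (Okp P) a ∧ Good (Okp P) b ∧ (∀ k l, a k ≠ b l) ∧ IsSw a b σ := by
  obtain ⟨r, m, s, n, m0, n0, h0, h1, g0, g1, hd, sm, sn, hσ⟩ := h
  have key : ∀ r m : ℤ, 0 ≤ r → r < m → (∀ p ∈ Nat.primeFactors m.natAbs, p = 2 ∨ p ∈ P) →
      Good (Okp P) fun k => r + m * k := by
    intro r m h0 h1 sm
    lift r to ℕ using h0
    lift m to ℕ using (by omega)
    have : m ≠ 0 := by omega
    exact ⟨r, m, ⟨this, fun q hq hd => sm q (by simp [hq, hd, this])⟩, by exact_mod_cast h1,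
      fun _ => rfl⟩
  have hd' : ∀ k l, r + m * k ≠ s + n * l := fun k l e =>
    hd (r + m * k) ⟨(mod_iff h0 h1).2 ⟨k, rfl⟩, (mod_iff g0 g1).2 ⟨l, e⟩⟩
  refine ⟨_, _, key r m h0 h1 sm, key s n g0 g1 sn, hd', fun k => ?_, fun k => ?_,
    fun x h1' h2' => ?_⟩
  · rw [hσ, if_pos ((mod_iff h0 h1).2 ⟨k, rfl⟩), form_eq m0]
  · rw [hσ, if_neg (fun c => by
      obtain ⟨q, e⟩ := (mod_iff h0 h1).1 c
      exact hd' q k e.symm), if_pos ((mod_iff g0 g1).2 ⟨k, rfl⟩), form_eq n0]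
  · rw [hσ, if_neg (fun c => by
      obtain ⟨q, e⟩ := (mod_iff h0 h1).1 c
      exact h1' q e), if_neg (fun c => by
      obtain ⟨q, e⟩ := (mod_iff g0 g1).1 c
      exact h2' q e)]

lemma Good.comp {Q : ℕ → Prop} {a b : ℤ → ℤ} (ha : Good Q a) (hb : Good Q b) :
    Good Q fun k => a (b k) := by
  obtain ⟨r, m, sm, h1, h⟩ := ha
  obtain ⟨s, n, sn, g1, g⟩ := hb
  refine ⟨r + m * s, m * n, sm.mul sn, by nlinarith, fun k => ?_⟩
  simp only [h, g]; push_cast; ring

lemma Good.inj {Q : ℕ → Prop} {a : ℤ → ℤ} (ha : Good Q a) : Function.Injective a := by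
  obtain ⟨r, m, sm, h1, h⟩ := ha
  intro x y hxy
  rw [h, h] at hxy
  have hm : (m : ℤ) ≠ 0 := by exact_mod_cast sm.1
  exact mul_left_cancel₀ hm (by linarith)

lemma good_cone (a : Ad) : Good (Okp P) (cone a) := by
  obtain ⟨r, h0, h1, h⟩ := cone_eq a
  lift r to ℕ using h0
  refine ⟨r, 2 ^ a.length, ⟨by positivity, fun q hq hd => Or.inl ?_⟩, by exact_mod_cast h1,
    fun k => by rw [h]; push_cast; ring⟩
  exact (Nat.prime_dvd_prime_iff_eq hq Nat.prime_two).1 (hq.dvd_of_dvd_pow hd)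

lemma glue (Q : Subgroup (Perm ℤ)) (S : ℕ → Set ℤ) (hS : ∀ i j n, n ∈ S i → n ∈ S j → i = j)
    (t : ℕ) : ∀ π : Perm ℤ, (∀ j < t, ∀ n, π n ∈ S j ↔ n ∈ S j) →
      (∀ n, (∀ j < t, n ∉ S j) → π n = n) →
      (∀ j < t, ∀ σ : Perm ℤ, (∀ n ∈ S j, σ n = π n) → (∀ n ∉ S j, σ n = n) → σ ∈ Q) →
      π ∈ Q := by
  classical
  induction t with
  | zero =>
    intro π _ h _
    have : π = 1 := Equiv.ext fun n => h n (fun j hj => absurd hj (Nat.not_lt_zero j))
    rw [this]; exact Q.one_mem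
  | succ t ih =>
    intro π h1 h2 h3
    have ht := h1 t (Nat.lt_succ_self t)
    let ρ : Perm ℤ := Equiv.Perm.ofSubtype (π.subtypePerm (p := fun n => n ∈ S t) ht)
    have ρ1 : ∀ n ∈ S t, ρ n = π n := fun n hn =>
      Equiv.Perm.ofSubtype_subtypePerm_of_mem ht hn
    have ρ2 : ∀ n ∉ S t, ρ n = n := fun n hn =>
      Equiv.Perm.ofSubtype_subtypePerm_of_not_mem ht hn
    have hρ : ρ ∈ Q := h3 t (Nat.lt_succ_self t) ρ ρ1 ρ2
    have e1 : ∀ n ∈ S t, (ρ⁻¹ * π) n = n := by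
      intro n hn
      rw [Perm.mul_apply, ← ρ1 n hn]
      simp
    have e2 : ∀ n ∉ S t, (ρ⁻¹ * π) n = π n := by
      intro n hn
      rw [Perm.mul_apply, Perm.inv_eq_iff_eq, ρ2 _ (fun h => hn ((ht n).1 h))]
    have key : ρ⁻¹ * π ∈ Q := by
      refine ih _ ?_ ?_ ?_
      · intro j hj n
        by_cases hn : n ∈ S t
        · rw [e1 n hn]
        · rw [e2 n hn]; exact h1 j (Nat.lt_succ_of_lt hj) n
      · intro n hn
        by_cases hn' : n ∈ S t
        · exact e1 n hn'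
        · rw [e2 n hn']
          refine h2 n fun j hj => ?_
          rcases Nat.lt_succ_iff_lt_or_eq.1 hj with c | c
          · exact hn j c
          · rw [c]; exact hn'
      · intro j hj σ s1 s2
        refine h3 j (Nat.lt_succ_of_lt hj) σ (fun n hn => ?_) s2
        rw [s1 n hn, e2 n (fun hc => absurd (hS _ _ _ hn hc) hj.ne)]
    have := Q.mul_mem hρ key
    simpa using this

lemma swGlue (Q : Subgroup (Perm ℤ)) {a b : ℤ → ℤ} (ia : Function.Injective a)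
    (ib : Function.Injective b) (hd : ∀ k l, a k ≠ b l) {m : ℕ} (hm : 0 < m)
    (hQ : ∀ j < m, ∀ σ, IsSw (fun k => a (j + m * k)) (fun k => b (j + m * k)) σ → σ ∈ Q)
    {π : Perm ℤ} (h : IsSw a b π) : π ∈ Q := by
  let S : ℕ → Set ℤ := fun j => {n | j < m ∧ ∃ k, n = a (j + m * k) ∨ n = b (j + m * k)}
  have hu : ∀ i j : ℕ, ∀ k l : ℤ, i < m → j < m → (i : ℤ) + m * k = j + m * l → i = j := by
    intro i j k l hi hj e
    exact_mod_cast (decomp_unique (Int.natCast_nonneg i) (by exact_mod_cast hi)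
      (Int.natCast_nonneg j) (by exact_mod_cast hj) e).1
  refine glue Q S ?_ m π ?_ ?_ ?_
  · rintro i j n ⟨hi, k, hk | hk⟩ ⟨hj, l, hl | hl⟩
    · exact hu i j k l hi hj (ia (hk.symm.trans hl))
    · exact absurd (hk.symm.trans hl) (hd _ _)
    · exact absurd (hl.symm.trans hk) (hd _ _)
    · exact hu i j k l hi hj (ib (hk.symm.trans hl))
  · intro j _ n
    constructor
    · rintro ⟨hj, k, hk | hk⟩
      · refine ⟨hj, k, Or.inr (π.injective ?_)⟩
        rw [hk, h.2.1]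
      · refine ⟨hj, k, Or.inl (π.injective ?_)⟩
        rw [hk, h.1]
    · rintro ⟨hj, k, hk | hk⟩
      · exact ⟨hj, k, Or.inr (by rw [hk, h.1])⟩
      · exact ⟨hj, k, Or.inl (by rw [hk, h.2.1])⟩
  · intro n hn
    have aux : ∀ k : ℤ, n = a k ∨ n = b k → False := by
      intro k hk
      obtain ⟨j, h1, q, rfl⟩ := decomp k hm
      exact hn j h1 ⟨h1, q, hk⟩
    exact h.2.2 n (fun k hk => aux k (Or.inl hk)) (fun k hk => aux k (Or.inr hk))
  · intro j hj σ s1 s2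
    refine hQ j hj σ ⟨fun k => ?_, fun k => ?_, fun n n1 n2 => s2 n ?_⟩
    · rw [s1 _ ⟨hj, k, Or.inl rfl⟩, h.1]
    · rw [s1 _ ⟨hj, k, Or.inr rfl⟩, h.2.1]
    · rintro ⟨_, k, hk | hk⟩
      · exact n1 k hk
      · exact n2 k hk

lemma okp_prime (hP : ∀ p ∈ P, Nat.Prime p ∧ p ≠ 2) {p : ℕ} (h : Okp P p) : p.Prime := by
  rcases h with rfl | h
  · exact Nat.prime_two
  · exact (hP p h).1

lemma mj_perm (hP : ∀ p ∈ P, Nat.Prime p ∧ p ≠ 2) :
    MJ (Okp P) (MonoidHom.id (Perm ℤ)) tau gam := by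
  have M := mi_perm (P := Okp P) fun p hp => (okp_prime hP hp).pos
  exact ⟨M, okp_prime hP, Or.inl rfl, fun hp hq a =>
    g4_sem M hp hq (okp_prime hP hp).pos (okp_prime hP hq).pos a⟩

lemma tau_mem (a b : Ad) : tau a b ∈ Subgroup.closure (CTs P) := by
  by_cases d : Dj a b
  · exact Subgroup.subset_closure (sw_good (good_cone a) (good_cone b) d (tau_ts d))
  · simp only [tau, dif_neg d]; exact one_mem _

lemma wd_mem {x : Perm ℤ} (h : Wd tau Set.univ x) : x ∈ Subgroup.closure (CTs P) := by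
  induction h with
  | one => exact one_mem _
  | mul a b x _ _ _ _ ih => exact mul_mem (tau_mem a b) ih

lemma gam_rel (hP : ∀ p ∈ P, Nat.Prime p ∧ p ≠ 2) {p : ℕ} (hp : Okp P p) {a b : Ad} (d : Dj a b) :
    gam p b * (gam p a)⁻¹ ∈ Subgroup.closure (CTs P) := by
  have p0 := (okp_prime hP hp).pos
  have G := gam_gs p0 []
  have key : ∀ (c : Ad) k, gam p c (cone c k) = cone c (gam p [] k) := by
    intro c k
    obtain ⟨j, hj, l, rfl⟩ := decomp k p0
    have := G.1 j hj l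
    simp only [cone_nil, List.nil_append] at this
    rw [(gam_gs p0 c).1 j hj, this, cone_append]
  have T : IsSw (fun k => cone a (gam p [] k)) (cone b) (tau a b * ((gam p a)⁻¹ * gam p b)) := by
    refine ⟨fun k => ?_, fun k => ?_, fun n n1 n2 => ?_⟩
    · simp only [Perm.mul_apply]
      rw [(gam_gs p0 b).o d, ← key, ← (tau_ts d).l]; simp
    · simp only [Perm.mul_apply]
      rw [key, ((gam_gs p0 a).o d.symm).inv, (tau_ts d).r]
    · have n1' : ∀ k, n ≠ cone a k := fun k e => n1 ((gam p [])⁻¹ k) (by simpa using e)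
      simp only [Perm.mul_apply]
      rw [(gam_gs p0 b).2 n n2, Perm.inv_eq_iff_eq.2 ((gam_gs p0 a).2 n n1').symm,
        (tau_ts d).2.2 n n1' n2]
  have h1 := swGlue (Subgroup.closure (CTs P)) ((cone_inj a).comp (gam p []).injective)
    (cone_inj b) (fun k l => d _ _) p0 (fun j hj σ hσ => Subgroup.subset_closure (by
      refine sw_good ?_ ((good_cone b).comp ⟨j, p, Sm.prime (okp_prime hP hp) hp, hj, fun _ => rfl⟩)
        (fun k l => d _ _) hσ
      have : (fun k => cone a (gam p [] (j + p * k))) = cone (a ++ lf (p - 1) j) := by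
        funext k
        have := G.1 j hj k
        simp only [cone_nil, List.nil_append] at this
        simp only [this, cone_append]
      rw [this]; exact good_cone _)) T
  have h2 := mul_mem (inv_mem (tau_mem (P := P) a b)) h1
  have c : gam p a * gam p b = gam p b * gam p a := (mj_perm hP).mi.g3 hp hp d
  rw [inv_mul_cancel_left] at h2
  rwa [show gam p b * (gam p a)⁻¹ = (gam p a)⁻¹ * (gam p a * gam p b) * (gam p a)⁻¹ by group, c,
    mul_assoc, mul_assoc, mul_inv_cancel, mul_one]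

lemma gam_mem (hP : ∀ p ∈ P, Nat.Prime p ∧ p ≠ 2) {p : ℕ} (hp : Okp P p) (a : Ad) :
    gam p a ∈ Subgroup.closure (CTs P) := by
  have tr : ∀ {a b : Ad}, Dj a b → gam p a ∈ Subgroup.closure (CTs P) →
      gam p b ∈ Subgroup.closure (CTs P) := fun d h => by
    simpa using mul_mem (gam_rel hP hp d) h
  have h0 : gam p ([false] ++ [false]) ∈ Subgroup.closure (CTs P) := by
    obtain ⟨w, hw, e⟩ := (mj_perm hP).gspl hp [false]
    have d : Dj [true] [false] := dj_bool (by simp) _ _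
    have := mul_mem (inv_mem (wd_mem hw.1))
      (mul_mem (gam_rel hP hp d) (inv_mem (gam_rel hP hp (d.appr [true]))))
    rw [e] at this
    refine cast (congrArg (· ∈ _) ?_) this
    group
  have h1 : ∀ u, gam p (true :: u) ∈ Subgroup.closure (CTs P) := fun u =>
    tr (dj_bool (by simp) _ _) h0
  have h2 : ∀ u, gam p (false :: u) ∈ Subgroup.closure (CTs P) := fun u =>
    tr (dj_bool (by simp) _ _) (h1 [])
  cases a with
  | nil =>
    obtain ⟨w, hw, e⟩ := (mj_perm hP).gspl hp []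
    rw [e]
    exact mul_mem (wd_mem hw.1) (mul_mem (h2 _) (h1 _))
  | cons i u =>
    cases i
    · exact h2 u
    · exact h1 u

lemma step_gam {p : ℕ} (p0 : 0 < p) (a : Ad) (r K : ℕ) (k : ℤ) :
    gam p a (cone a (r + (p * K : ℕ) * k)) =
      cone (a ++ lf (p - 1) (r % p)) ((r / p : ℕ) + K * k) := by
  rw [← (gam_gs p0 a).1 _ (Nat.mod_lt r p0)]
  congr 2
  have : (r : ℤ) = (r % p : ℕ) + p * (r / p : ℕ) := by exact_mod_cast (Nat.mod_add_div r p).symm
  rw [this]; push_cast; ring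

lemma str_one (hP : ∀ p ∈ P, Nat.Prime p ∧ p ≠ 2) (l : List ℕ) (hl : ∀ p ∈ l, Okp P p) :
    ∀ (a : Ad) (r : ℕ), r < l.prod → ∃ x c, Loc (Okp P) gam a x ∧
      ∀ k, x (cone a (r + (l.prod : ℕ) * k)) = cone (a ++ c) k := by
  induction l with
  | nil => exact fun a r hr => ⟨1, [], Loc.one, fun k => by simp at hr; simp [hr]⟩
  | cons p l ih =>
    intro a r hr
    have hp := hl p (by simp)
    have p0 := (okp_prime hP hp).pos
    rw [List.prod_cons] at hr ⊢
    obtain ⟨x, c, h1, h2⟩ := ih (fun q hq => hl q (by simp [hq])) (a ++ lf (p - 1) (r % p)) (r / p)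
      (Nat.div_lt_of_lt_mul hr)
    exact ⟨x * gam p a, lf (p - 1) (r % p) ++ c, h1.up.mul' (Loc.single hp a), fun k => by
      rw [Perm.mul_apply, step_gam p0, h2, List.append_assoc]⟩

lemma str_two (hP : ∀ p ∈ P, Nat.Prime p ∧ p ≠ 2) (l : List ℕ) (hl : ∀ p ∈ l, Okp P p) :
    ∀ (a : Ad) (r s : ℕ), r < l.prod → s < l.prod → r ≠ s → ∃ x c c', Loc (Okp P) gam a x ∧
      (∀ k, x (cone a (r + (l.prod : ℕ) * k)) = cone (a ++ c) k) ∧
      ∀ k, x (cone a (s + (l.prod : ℕ) * k)) = cone (a ++ c') k := by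
  induction l with
  | nil => intro a r s hr hs h; simp at hr hs; omega
  | cons p l ih =>
    intro a r s hr hs h
    have hp := hl p (by simp)
    have p0 := (okp_prime hP hp).pos
    have hl' : ∀ q ∈ l, Okp P q := fun q hq => hl q (by simp [hq])
    rw [List.prod_cons] at hr hs ⊢
    by_cases e : r % p = s % p
    · obtain ⟨x, c, c', h1, h2, h3⟩ := ih hl' (a ++ lf (p - 1) (r % p)) (r / p) (s / p)
        (Nat.div_lt_of_lt_mul hr) (Nat.div_lt_of_lt_mul hs) (fun e' => h (by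
          rw [← Nat.mod_add_div r p, e, e', Nat.mod_add_div]))
      exact ⟨x * gam p a, lf (p - 1) (r % p) ++ c, lf (p - 1) (r % p) ++ c',
        h1.up.mul' (Loc.single hp a),
        fun k => by rw [Perm.mul_apply, step_gam p0, h2, List.append_assoc],
        fun k => by rw [Perm.mul_apply, step_gam p0, ← e, h3, List.append_assoc]⟩
    · obtain ⟨x, c, h1, h2⟩ := str_one hP l hl' (a ++ lf (p - 1) (r % p)) (r / p)
        (Nat.div_lt_of_lt_mul hr)
      obtain ⟨y, c', k1, k2⟩ := str_one hP l hl' (a ++ lf (p - 1) (s % p)) (s / p)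
        (Nat.div_lt_of_lt_mul hs)
      have d : Dj (a ++ lf (p - 1) (r % p)) (a ++ lf (p - 1) (s % p)) :=
        (lf_dj (by have := Nat.mod_lt r p0; omega) (by have := Nat.mod_lt s p0; omega) e).pre a
      have f1 := k1.fix (mj_perm hP).mi d
      have f2 := h1.fix (mj_perm hP).mi (d.symm.appl c')
      simp only [MonoidHom.id_apply] at f1 f2
      exact ⟨x * (y * gam p a), lf (p - 1) (r % p) ++ c, lf (p - 1) (s % p) ++ c',
        h1.up.mul' (k1.up.mul' (Loc.single hp a)),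
        fun k => by rw [Perm.mul_apply, Perm.mul_apply, step_gam p0, f1, h2, List.append_assoc],
        fun k => by rw [Perm.mul_apply, Perm.mul_apply, step_gam p0, k2, f2, List.append_assoc]⟩

lemma loc_mem {a : Ad} {x : Perm ℤ} (h : Loc (Okp P) gam a x) :
    x ∈ Subgroup.closure (Gens (Okp P) tau gam) := by
  induction h with
  | one => exact one_mem _
  | mul p u x hp _ ih => exact mul_mem (Subgroup.subset_closure (Or.inr ⟨p, _, hp, rfl⟩)) ih

lemma ct_mem (hP : ∀ p ∈ P, Nat.Prime p ∧ p ≠ 2) {σ : Perm ℤ} (h : σ ∈ CTs P) :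
    σ ∈ Subgroup.closure (Gens (Okp P) tau gam) := by
  obtain ⟨a, b, ha, hb, hd, hs⟩ := ct_sw h
  have ia := ha.inj
  have ib := hb.inj
  obtain ⟨r, m, sm, h1, ha⟩ := ha
  obtain ⟨s, n, sn, g1, hb⟩ := hb
  have m0 : 0 < m := by omega
  refine swGlue _ ia ib hd m0 (fun j hj ρ hρ => ?_) hs
  have pm := Nat.prod_primeFactorsList sm.1
  have pn := Nat.prod_primeFactorsList sn.1
  have e : ((s + n * j : ℕ) : ℤ) = ((s + n * j) % m : ℕ) + m * ((s + n * j) / m : ℕ) := by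
    exact_mod_cast (Nat.mod_add_div _ _).symm
  have lt : (s + n * j) / m < n := by
    rw [Nat.div_lt_iff_lt_mul m0]; nlinarith
  generalize (s + n * j) / m = s' at e lt
  have lt' := Nat.mod_lt (s + n * j) m0
  generalize (s + n * j) % m = s0 at e lt'
  push_cast at e
  have ne : r ≠ s0 := fun h => hd s' j (by rw [ha, hb, e, h])
  obtain ⟨x, c, c', l0, x1, x2⟩ := str_two hP _ sm.fac [] r s0 (by omega) (by omega) ne
  obtain ⟨y, u, l1, y1⟩ := str_one hP _ sm.fac c j (by omega)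
  obtain ⟨z, u', l2, z1⟩ := str_one hP _ sn.fac c' s' (by omega)
  simp only [pm, pn, cone_nil, List.nil_append] at x1 x2 y1 z1
  have d : Dj c c' := fun k l e => by
    rw [← x1, ← x2] at e
    exact ne (by
      exact_mod_cast (decomp_unique (Int.natCast_nonneg r) (by exact_mod_cast h1)
        (Int.natCast_nonneg s0) (by exact_mod_cast lt') (x.injective e)).1)
  have f1 := l2.fix (mj_perm hP).mi d
  have f2 := l1.fix (mj_perm hP).mi (d.symm.appl u')
  simp only [MonoidHom.id_apply] at f1 f2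
  have T := hρ.conj (ρ := y * (z * x)) (a' := cone (c ++ u)) (b' := cone (c' ++ u'))
    (fun k => by rw [Perm.mul_apply, Perm.mul_apply, ha, x1, f1, y1])
    (fun k => by
      rw [Perm.mul_apply, Perm.mul_apply, hb,
        show (s : ℤ) + n * (j + m * k) = s0 + m * (s' + n * k) by linear_combination e, x2, z1, f2])
  have e2 := T.uniq (tau_ts (d.app u u'))
  have hm := mul_mem (loc_mem l1) (mul_mem (loc_mem l2) (loc_mem l0))
  have := mul_mem (mul_mem (inv_mem hm) (Subgroup.subset_closure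
    (Or.inl ⟨_, _, d.app u u', rfl⟩ : tau (c ++ u) (c' ++ u') ∈ Gens (Okp P) tau gam))) hm
  rw [← e2] at this
  refine cast (congrArg (· ∈ _) ?_) this
  group

end Pool.Agent.H.MP_02e21a_al
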