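import Pool.Agent.H.MP_02e21a_al.I

set_option autoImplicit false

namespace Pool.Agent.H.MP_02e21a_al

open Equiv

abbrev SA := {a : Ad // idx a < 128}

instance : Finite SA :=
  Finite.of_injective (fun a : SA => (⟨idx a.1, a.2⟩ : Fin 128)) fun a b h =>
    Subtype.ext (idx_inj (by simpa using h))

abbrev Gen (P : Finset ℕ) := (SA × SA) ⊕ (P × SA)

noncomputable def val (P : Finset ℕ) : Gen P → Perm ℤ
  | Sum.inl (a, b) => tau a.1 b.1
  | Sum.inr (p, a) => gam p.1 a.1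

section
variable {F : Type} [Group F] {P : Finset ℕ} (o : Gen P → F)

noncomputable def tF (a b : Ad) : F :=
  if h : idx a < 128 ∧ idx b < 128 then o (Sum.inl (⟨a, h.1⟩, ⟨b, h.2⟩)) else 1

noncomputable def gF (p : ℕ) (a : Ad) : F :=
  if h : p ∈ P ∧ idx a < 128 then o (Sum.inr (⟨p, h.1⟩, ⟨a, h.2⟩)) else 1

lemma tF_mem (a b : Ad) : tF o a b ∈ insert 1 (Set.range o) := by
  unfold tF; split_ifs
  · exact Or.inr ⟨_, rfl⟩
  · exact Or.inl rfl

lemma gF_mem (p : ℕ) (a : Ad) : gF o p a ∈ insert 1 (Set.range o) := by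
  unfold gF; split_ifs
  · exact Or.inr ⟨_, rfl⟩
  · exact Or.inl rfl

variable {o} {ψ : F →* Perm ℤ}

lemma tF_val (h : ∀ i, ψ (o i) = val P i) {a b : Ad} (ha : idx a < 2 * 64) (hb : idx b < 2 * 64) :
    ψ (tF o a b) = tau a b := by
  rw [tF, dif_pos ⟨ha, hb⟩, h]; rfl

lemma gF_val (hP : ∀ p ∈ P, Nat.Prime p ∧ p ≠ 2) (h : ∀ i, ψ (o i) = val P i) {p : ℕ}
    (hp : Okp P p) {a : Ad} (ha : idx a < 2 * 64) : ψ (gF o p a) = gam p a := by
  rcases hp with rfl | hp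
  · rw [gF, dif_neg fun c => (hP 2 c.1).2 rfl, map_one, (mj_perm hP).mi.gtwo]
  · rw [gF, dif_pos ⟨hp, ha⟩, h]; rfl

lemma mf_quot (hP : ∀ p ∈ P, Nat.Prime p ∧ p ≠ 2) (h : ∀ i, ψ (o i) = val P i) {H : Type} [Group H]
    (mk : F →* H) (π : H →* Perm ℤ) (hπ : ∀ x, π (mk x) = ψ x)
    (pr : ∀ a ∈ insert 1 (Set.range o), ∀ b ∈ insert 1 (Set.range o),
      ∀ c ∈ insert 1 (Set.range o), ∀ d ∈ insert 1 (Set.range o), ∀ e ∈ insert 1 (Set.range o),
        ψ a * ψ b * ψ c = ψ d * ψ e → mk a * mk b * mk c = mk d * mk e) :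
    MF (Okp P) π 64 (fun a b => mk (tF o a b)) (fun p a => mk (gF o p a)) := by
  have M := (mj_perm hP).mi
  have m1 : (1 : F) ∈ insert 1 (Set.range o) := Or.inl rfl
  refine ⟨fun oa ob d => ?_, fun hp a oa => ?_, fun {a b} oa ob d => ?_, fun {a b} oa ob d => ?_,
    fun {a b c d} oa ob oc od ab cd ac ad bc bd => ?_, fun {a b c} oa ob oc ab ac bc => ?_,
    fun {a b} oa ob d => ?_, fun {p a b} hp oa ob d => ?_, fun {p a b c} hp oa ob oc ab ac bc => ?_,
    fun {p q a b} hp hq oa ob d => ?_, fun a => ?_⟩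
  · rw [hπ, tF_val h oa ob]; exact tau_ts d
  · rw [hπ, gF_val hP h hp oa]; exact M.gs hp a
  · simpa using pr _ (tF_mem o a b) _ (tF_mem o a b) _ m1 _ m1 _ m1
      (by simpa [tF_val h oa ob] using M.sq d)
  · simpa using pr _ (tF_mem o a b) _ m1 _ m1 _ (tF_mem o b a) _ m1
      (by simpa [tF_val h oa ob, tF_val h ob oa] using M.sym d)
  · simpa using pr _ (tF_mem o a b) _ (tF_mem o c d) _ m1 _ (tF_mem o c d) _ (tF_mem o a b)
      (by simpa [tF_val h oa ob, tF_val h oc od] using M.com ab cd ac ad bc bd)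
  · simpa using pr _ (tF_mem o a b) _ (tF_mem o b c) _ (tF_mem o a b) _ (tF_mem o a c) _ m1
      (by simpa [tF_val h oa ob, tF_val h ob oc, tF_val h oa oc] using M.tri ab ac bc)
  · have oa' : idx a < 2 * 64 := lt_of_le_of_lt (idx_mono a _) (oa false)
    have ob' : idx b < 2 * 64 := lt_of_le_of_lt (idx_mono b _) (ob false)
    simpa using pr _ (tF_mem o a b) _ m1 _ m1 _ (tF_mem o (a ++ [false]) (b ++ [false])) _
      (tF_mem o (a ++ [true]) (b ++ [true]))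
      (by simpa [tF_val h oa' ob', tF_val h (oa _) (ob _)] using M.spl d)
  · simpa using pr _ (tF_mem o a b) _ (gF_mem o p a) _ (tF_mem o a b) _ (gF_mem o p b) _ m1
      (by simpa [tF_val h oa ob, gF_val hP h hp oa, gF_val hP h hp ob] using M.g1 hp d)
  · simpa using pr _ (tF_mem o b c) _ (gF_mem o p a) _ m1 _ (gF_mem o p a) _ (tF_mem o b c)
      (by simpa [tF_val h ob oc, gF_val hP h hp oa] using M.g2 hp ab ac bc)
  · simpa using pr _ (gF_mem o p a) _ (gF_mem o q b) _ m1 _ (gF_mem o q b) _ (gF_mem o p a)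
      (by simpa [gF_val hP h hp oa, gF_val hP h hq ob] using M.g3 hp hq d)
  · rw [gF, dif_neg fun c => (hP 2 c.1).2 rfl, map_one]

end

lemma ex_quot {F : Type} [Group F] (ψ : F →* Perm ℤ) (R : Set F) (h : ∀ w ∈ R, ψ w = 1) :
    ∃ (H : Type) (_ : Group H) (mk : F →* H) (π : H →* Perm ℤ), Function.Surjective mk ∧
      (∀ x, π (mk x) = ψ x) ∧ ∀ x, mk x = 1 ↔ x ∈ Subgroup.normalClosure R :=
  ⟨F ⧸ Subgroup.normalClosure R, inferInstance, QuotientGroup.mk' _,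
    QuotientGroup.lift _ ψ (Subgroup.normalClosure_le_normal h), QuotientGroup.mk'_surjective _,
    fun _ => rfl, fun x => QuotientGroup.eq_one_iff x⟩

lemma ex_fac {F H K : Type} [Group F] [Group H] [Group K] (f : F →* H) (hf : Function.Surjective f)
    (g : F →* K) (h : ∀ x, f x = 1 → g x = 1) : ∃ k : H →* K, ∀ x, k (f x) = g x :=
  ⟨f.liftOfRightInverse (Function.surjInv hf) (Function.rightInverse_surjInv hf) ⟨g, h⟩,
    fun x => f.liftOfRightInverse_comp_apply _ _ _ x⟩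

theorem main_aux {F : Type} [Group F] {P : Finset ℕ} (hP : ∀ p ∈ P, Nat.Prime p ∧ p ≠ 2)
    (o : Gen P → F) (ho : Subgroup.closure (Set.range o) = ⊤) (ψ : F →* Perm ℤ)
    (h : ∀ i, ψ (o i) = val P i) :
    ψ.range = Subgroup.closure (CTs P) ∧
      ∃ R : Finset F, ψ.ker = Subgroup.normalClosure (R : Set F) := by
  classical
  let X : Set F := insert 1 (Set.range o)
  have hX : X.Finite := (Set.finite_range o).insert 1
  let R0 : Set F := {w | ψ w = 1 ∧ ∃ a ∈ X, ∃ b ∈ X, ∃ c ∈ X, ∃ d ∈ X, ∃ e ∈ X,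
    w = a * b * c * (d * e)⁻¹}
  have hR0 : R0.Finite := by
    refine ((hX.prod (hX.prod (hX.prod (hX.prod hX)))).image
      fun z : F × F × F × F × F => z.1 * z.2.1 * z.2.2.1 * (z.2.2.2.1 * z.2.2.2.2)⁻¹).subset ?_
    rintro _ ⟨_, a, ha, b, hb, c, hc, d, hd, e, he, rfl⟩
    exact ⟨(a, b, c, d, e), ⟨ha, hb, hc, hd, he⟩, rfl⟩
  obtain ⟨H1, _, mk1, π1, hsurj, hπ1, hk1⟩ := ex_quot ψ R0 fun w hw => hw.1
  have pr : ∀ a ∈ X, ∀ b ∈ X, ∀ c ∈ X, ∀ d ∈ X, ∀ e ∈ X,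
      ψ a * ψ b * ψ c = ψ d * ψ e → mk1 a * mk1 b * mk1 c = mk1 d * mk1 e := by
    intro a ha b hb c hc d hd e he E
    have : a * b * c * (d * e)⁻¹ ∈ Subgroup.normalClosure R0 :=
      Subgroup.subset_normalClosure ⟨by simp [E], a, ha, b, hb, c, hc, d, hd, e, he, rfl⟩
    have h1 : mk1 (a * b * c * (d * e)⁻¹) = 1 := (hk1 _).2 this
    simp only [map_mul, map_inv] at h1
    exact mul_inv_eq_one.1 h1
  obtain ⟨t, g, M, ht, hg⟩ := (mf_quot hP h mk1 π1 hπ1 pr).limit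
  have et : ∀ {a b}, Dj a b → π1 (t a b) = tau a b := fun d => IsSw.uniq (M.ts d) (tau_ts d)
  have eg : ∀ {p}, Okp P p → ∀ a, π1 (g p a) = gam p a := fun hp a =>
    (M.gs hp a).uniq (okp_prime hP hp).pos (gam_gs (okp_prime hP hp).pos a)
  refine ⟨le_antisymm ?_ ?_, ?_⟩
  · rintro _ ⟨x, rfl⟩
    have hx : x ∈ Subgroup.closure (Set.range o) := ho ▸ Subgroup.mem_top x
    have : Subgroup.closure (Set.range o) ≤ (Subgroup.closure (CTs P)).comap ψ := by
      refine (Subgroup.closure_le _).2 ?_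
      rintro _ ⟨i, rfl⟩
      show ψ (o i) ∈ Subgroup.closure (CTs P)
      rw [h]
      rcases i with ⟨a, b⟩ | ⟨p, a⟩
      · exact tau_mem _ _
      · exact gam_mem hP (Or.inr p.2) _
    exact this hx
  · refine (Subgroup.closure_le _).2 fun σ hσ => ?_
    refine (Subgroup.closure_le ψ.range).2 ?_ (ct_mem hP hσ)
    rintro _ (⟨a, b, d, rfl⟩ | ⟨p, a, hp, rfl⟩)
    · obtain ⟨x, hx⟩ := hsurj (t a b)
      exact ⟨x, by rw [← hπ1, hx, et d]⟩
    · obtain ⟨x, hx⟩ := hsurj (g p a)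
      exact ⟨x, by rw [← hπ1, hx, eg hp]⟩
  have ok : ∀ p : (insert 2 P : Finset ℕ), Okp P p := fun p => Finset.mem_insert.1 p.2
  have ex : ∀ z : (insert 2 P : Finset ℕ) × (insert 2 P : Finset ℕ) × Bool, ∃ x : F, ψ x = 1 ∧
      ∃ w, Wd t Set.univ w ∧ mk1 x = (D g z.1 (g z.2.1) (if z.2.2 then [] else [false]))⁻¹ *
        (w * D g z.2.1 (g z.1) (if z.2.2 then [] else [false])) := by
    intro z
    obtain ⟨w, hw, e⟩ := g4_sem M (ok z.1) (ok z.2.1) (okp_prime hP (ok z.1)).pos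
      (okp_prime hP (ok z.2.1)).pos (if z.2.2 then [] else [false])
    obtain ⟨x, hx⟩ := hsurj ((D g z.1 (g z.2.1) (if z.2.2 then [] else [false]))⁻¹ *
        (w * D g z.2.1 (g z.1) (if z.2.2 then [] else [false])))
    exact ⟨x, by rw [← hπ1, hx, map_mul, map_inv, e, inv_mul_cancel], w, hw, hx⟩
  choose rel hrel1 hrel2 using ex
  have hR : (R0 ∪ Set.range rel).Finite := hR0.union (Set.finite_range rel)
  refine ⟨hR.toFinset, ?_⟩
  rw [Set.Finite.coe_toFinset]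
  have k1 : ∀ w ∈ R0 ∪ Set.range rel, ψ w = 1 := by
    rintro w (hw | ⟨z, rfl⟩)
    · exact hw.1
    · exact hrel1 z
  refine le_antisymm (fun x hx => ?_) (Subgroup.normalClosure_le_normal k1)
  obtain ⟨H2, _, mk2, π2, -, hπ2', hk2⟩ := ex_quot ψ _ k1
  obtain ⟨f, hf⟩ := ex_fac mk1 hsurj mk2 fun x hx =>
    (hk2 x).2 (Subgroup.normalClosure_mono Set.subset_union_left ((hk1 x).1 hx))
  have hπ2 : ∀ y, π2 (f y) = π1 y := fun y => by
    obtain ⟨x, rfl⟩ := hsurj y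
    rw [hf, hπ2', hπ1]
  have M2 := M.map f π2 hπ2
  have g4 : ∀ {p q}, Okp P p → Okp P q → ∀ b : Bool, G4 (fun a b => f (t a b))
      (fun p a => f (g p a)) p q (if b then [] else [false]) := by
    intro p q hp hq b
    obtain ⟨w, hw, e⟩ := hrel2 (⟨p, Finset.mem_insert.2 hp⟩, ⟨q, Finset.mem_insert.2 hq⟩, b)
    refine ⟨f w, hw.map f, ?_⟩
    have e1 : mk2 (rel (⟨p, Finset.mem_insert.2 hp⟩, ⟨q, Finset.mem_insert.2 hq⟩, b)) = 1 :=
      (hk2 _).2 (Subgroup.subset_normalClosure (Or.inr ⟨_, rfl⟩))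
    rw [← hf, e, map_mul, map_mul, map_inv, D_map, D_map, inv_mul_eq_one] at e1
    exact e1
  have MJ2 : MJ (Okp P) π2 (fun a b => f (t a b)) (fun p a => f (g p a)) :=
    ⟨M2, okp_prime hP, Or.inl rfl, fun hp hq => g4_all M2 hp hq (g4 hp hq true) (g4 hp hq false)⟩
  have hx' : x ∈ Subgroup.closure (Set.range o) := ho ▸ Subgroup.mem_top x
  have : Subgroup.closure (Set.range o) ≤ (Subgroup.closure (Gens (Okp P)
      (fun a b => f (t a b)) (fun p a => f (g p a)))).comap mk2 := by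
    refine (Subgroup.closure_le _).2 ?_
    rintro _ ⟨i, rfl⟩
    show mk2 (o i) ∈ Subgroup.closure _
    rcases i with ⟨a, b⟩ | ⟨p, a⟩
    · by_cases d : Dj a.1 b.1
      · refine Subgroup.subset_closure (Or.inl ⟨a.1, b.1, d, ?_⟩)
        show _ = f (t a.1 b.1)
        rw [ht _ _ a.2 b.2, hf, tF, dif_pos ⟨a.2, b.2⟩]
      · have m1 : (1 : F) ∈ X := Or.inl rfl
        have := pr _ (Or.inr ⟨Sum.inl (a, b), rfl⟩) _ m1 _ m1 _ m1 _ m1 (by
          simp [h, val, tau, d])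
        simp only [map_one, mul_one] at this
        rw [← hf, this, map_one]
        exact one_mem _
    · refine Subgroup.subset_closure (Or.inr ⟨p.1, a.1, Or.inr p.2, ?_⟩)
      show _ = f (g p.1 a.1)
      rw [hg _ _ a.2, hf, gF, dif_pos ⟨p.2, a.2⟩]
  exact (hk2 _).1 (MJ2.inj (this hx') (by rw [hπ2']; exact hx))

theorem main (P : Finset ℕ) (hP : ∀ p ∈ P, Nat.Prime p ∧ p ≠ 2) :
    ∃ (n : ℕ) (φ : FreeGroup (Fin n) →* ↥(Subgroup.closure (CTs P))),
      Function.Surjective φ ∧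
        ∃ R : Finset (FreeGroup (Fin n)),
          φ.ker = Subgroup.normalClosure (R : Set (FreeGroup (Fin n))) := by
  let e := Finite.equivFin (Gen P)
  obtain ⟨h1, R, h2⟩ := main_aux hP (fun i => FreeGroup.of (e i)) (by
    rw [← FreeGroup.closure_range_of]
    congr 1
    exact e.surjective.range_comp FreeGroup.of) (FreeGroup.lift fun j => val P (e.symm j))
    (fun i => by simp)
  refine ⟨_, (FreeGroup.lift fun j => val P (e.symm j)).codRestrict _
    (fun x => h1 ▸ ⟨x, rfl⟩), fun y => ?_, R, ?_⟩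
  · obtain ⟨x, hx⟩ : y.1 ∈ (FreeGroup.lift fun j => val P (e.symm j)).range := by
      rw [h1]; exact y.2
    exact ⟨x, Subtype.ext hx⟩
  · rw [← h2, MonoidHom.ker_codRestrict]

end Pool.Agent.H.MP_02e21a_al
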